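import Pool.Agent.Q30.HP.Step3

/-!
# The area of the set where a Hecke eigenfunction is large
-/

set_option autoImplicit false

open MeasureTheory UpperHalfPlane Metric Filter Topology Real
open scoped MatrixGroups ENNReal ComplexConjugate

namespace Pool.Agent.Q30.HP

variable {U : ℂ → ℂ} {T : ℝ}

/-- a lower bound for an integral gives a lower bound for the measure of the set of large values -/
lemma big_of_int {u : ℂ → ℝ} {z1 : ℂ} {s S : ℝ} (hs : 0 < s) (hS : 0 < S)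
    (hG : MeasurableSet {w : ℂ | w ∈ ball z1 s ∧ S / 4 ≤ u w}) (hu : ∀ w ∈ ball z1 s, u w ≤ 4 * S)
    (h : ENNReal.ofReal (π * (S / 2) * s ^ 2) ≤ ∫⁻ z in ball z1 s, ENNReal.ofReal (u z)) :
    ENNReal.ofReal (π / 16 * s ^ 2) ≤ volume {w : ℂ | w ∈ ball z1 s ∧ S / 4 ≤ u w} := by
  set G : Set ℂ := {w : ℂ | w ∈ ball z1 s ∧ S / 4 ≤ u w} with hGdef
  have hball : volume (ball z1 s) = ENNReal.ofReal (π * s ^ 2) := by
    rw [Complex.volume_ball, ENNReal.ofReal_mul pi_pos.le, ENNReal.ofReal_pow hs.le, mul_comm]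
    congr 1
    rw [← ENNReal.ofReal_coe_nnreal]
    rfl
  have hGfin : volume G ≠ ⊤ :=
    ((measure_mono (fun w hw => hw.1)).trans_lt (by rw [hball]; exact ENNReal.ofReal_lt_top)).ne
  have h1 : ∫⁻ z in ball z1 s, ENNReal.ofReal (u z) ≤
      ENNReal.ofReal (S / 4) * ENNReal.ofReal (π * s ^ 2) + ENNReal.ofReal (4 * S) * volume G := by
    calc ∫⁻ z in ball z1 s, ENNReal.ofReal (u z)
        ≤ ∫⁻ z in ball z1 s, (ENNReal.ofReal (S / 4) + G.indicator (fun _ => ENNReal.ofReal (4 * S)) z) := by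
          apply setLIntegral_mono' measurableSet_ball
          intro z hz
          by_cases hzG : S / 4 ≤ u z
          · rw [Set.indicator_of_mem (show z ∈ G from ⟨hz, hzG⟩)]
            exact (ENNReal.ofReal_le_ofReal (hu z hz)).trans le_add_self
          · push Not at hzG
            exact (ENNReal.ofReal_le_ofReal hzG.le).trans le_self_add
      _ = ENNReal.ofReal (S / 4) * volume (ball z1 s) + ∫⁻ z in ball z1 s, G.indicator (fun _ => ENNReal.ofReal (4 * S)) z := by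
          rw [lintegral_add_left measurable_const, setLIntegral_const]
      _ ≤ ENNReal.ofReal (S / 4) * ENNReal.ofReal (π * s ^ 2) + ENNReal.ofReal (4 * S) * volume G := by
          rw [hball]
          gcongr
          refine (lintegral_mono' Measure.restrict_le_self le_rfl).trans ?_
          rw [lintegral_indicator hG, setLIntegral_const]
  set g : NNReal := (volume G).toNNReal with hg
  have h2 := h.trans h1
  have hg' : volume G = ENNReal.ofReal (g : ℝ) := by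
    rw [ENNReal.ofReal_coe_nnreal, hg, ENNReal.coe_toNNReal hGfin]
  rw [hg'] at h2 ⊢
  rw [← ENNReal.ofReal_mul (by positivity), ← ENNReal.ofReal_mul (by positivity), ← ENNReal.ofReal_add (by positivity)
    (by positivity), ENNReal.ofReal_le_ofReal_iff (by positivity)] at h2
  apply ENNReal.ofReal_le_ofReal
  have h3 : S * (π * s ^ 2 / 4) ≤ S * (4 * g) := by nlinarith
  have h4 := le_of_mul_le_mul_left h3 hS
  linarith

/-- the chain of points -/
lemma chain {κ ρ L Λ : ℝ} (hρ : 0 < ρ) (hκ0 : 0 ≤ κ) (hκ : κ * ρ ^ 2 ≤ 8) (hΛ : 1 ≤ Λ) (n : ℕ) :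
    ∀ (z0 : ℂ) (r : ℝ), ((n : ℝ) + 1) * ρ ≤ r → ContDiffOn ℝ 2 U (ball z0 r) → ContinuousOn U (closedBall z0 r) →
      (∀ w ∈ ball z0 r, ‖LL U w‖ ≤ κ * ‖U w‖) → (∀ w ∈ ball z0 r, ‖U w‖ ≤ L) → U z0 ≠ 0 → L ≤ Λ ^ n * ‖U z0‖ →
      ENNReal.ofReal (π * ρ ^ 2 / (256 * Λ)) ≤ volume {w : ℂ | w ∈ ball z0 r ∧ ‖U z0‖ / 4 ≤ ‖U w‖} := by
  have hmain : ∀ (z0 : ℂ) (r : ℝ), ρ ≤ r → ContDiffOn ℝ 2 U (ball z0 r) → ContinuousOn U (closedBall z0 r) →
      (∀ w ∈ ball z0 r, ‖LL U w‖ ≤ κ * ‖U w‖) → U z0 ≠ 0 →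
      ∃ z1 : ℂ, z1 ∈ ball z0 ρ ∧ ‖U z0‖ ≤ ‖U z1‖ ∧ (‖U z1‖ ≤ Λ * ‖U z0‖ →
        ENNReal.ofReal (π * ρ ^ 2 / (256 * Λ)) ≤ volume {w : ℂ | w ∈ ball z0 r ∧ ‖U z0‖ / 4 ≤ ‖U w‖}) := by
    intro z0 r hr hU hUc hL hz0
    have hb : ball z0 ρ ⊆ ball z0 r := ball_subset_ball hr
    obtain ⟨z1, r1, h1, h2, h3, h4, h5, h6⟩ := core hρ hκ0 hκ (hU.mono hb)
      (hUc.mono (closedBall_subset_closedBall hr)) (fun w hw => hL w (hb hw)) hz0
    have hz1 : 0 < ‖U z1‖ := lt_of_lt_of_le (norm_pos_iff.2 hz0) h4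
    have hsub : ball z1 (r1 / 4) ⊆ ball z0 r := ((ball_subset_ball (by linarith)).trans h2).trans hb
    refine ⟨z1, h2 (mem_ball_self h1), h4, fun hle => ?_⟩
    have hmeas : MeasurableSet {w : ℂ | w ∈ ball z1 (r1 / 4) ∧ ‖U z1‖ / 4 ≤ ‖U w‖} := by
      have hc : ContinuousOn (fun w => ‖U w‖) (ball z1 (r1 / 4)) := (hU.continuousOn.mono hsub).norm
      obtain ⟨t, ht, he⟩ := (continuousOn_iff_isClosed.1 hc) (Set.Ici (‖U z1‖ / 4)) isClosed_Ici
      have e : {w : ℂ | w ∈ ball z1 (r1 / 4) ∧ ‖U z1‖ / 4 ≤ ‖U w‖} = t ∩ ball z1 (r1 / 4) := by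
        rw [← he]
        ext w
        constructor
        · rintro ⟨a, b⟩; exact ⟨b, a⟩
        · rintro ⟨a, b⟩; exact ⟨b, a⟩
      rw [e]
      exact ht.measurableSet.inter measurableSet_ball
    have hbig := big_of_int (u := fun w => ‖U w‖) (by positivity : 0 < r1 / 4) hz1 hmeas
      (fun w hw => h5 w (ball_subset_ball (by linarith) hw)) h6
    have h7 : ρ ^ 2 / Λ ≤ r1 ^ 2 := by
      rw [div_le_iff₀ (by linarith)]
      have h8 : ρ ^ 2 * ‖U z0‖ ≤ r1 ^ 2 * Λ * ‖U z0‖ := by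
        calc ρ ^ 2 * ‖U z0‖ ≤ r1 ^ 2 * ‖U z1‖ := h3
          _ ≤ r1 ^ 2 * (Λ * ‖U z0‖) := by gcongr
          _ = _ := by ring
      exact le_of_mul_le_mul_right h8 (norm_pos_iff.2 hz0)
    calc ENNReal.ofReal (π * ρ ^ 2 / (256 * Λ)) ≤ ENNReal.ofReal (π / 16 * (r1 / 4) ^ 2) := by
          apply ENNReal.ofReal_le_ofReal
          calc π * ρ ^ 2 / (256 * Λ) = π / 256 * (ρ ^ 2 / Λ) := by field_simp
            _ ≤ π / 256 * r1 ^ 2 := by gcongr
            _ = _ := by ring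
      _ ≤ _ := hbig
      _ ≤ _ := by
          apply measure_mono
          rintro w ⟨hw1, hw2⟩
          exact ⟨hsub hw1, by linarith⟩
  induction n with
  | zero =>
    intro z0 r hr hU hUc hL hLL hz0 hle
    rw [Nat.cast_zero, zero_add, one_mul] at hr
    obtain ⟨z1, h1, h2, h3⟩ := hmain z0 r hr hU hUc hL hz0
    apply h3
    have := hLL z1 (ball_subset_ball hr h1)
    rw [pow_zero, one_mul] at hle
    nlinarith [norm_nonneg (U z0)]
  | succ n ih =>
    intro z0 r hr hU hUc hL hLL hz0 hle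
    push_cast at hr
    have hn0 : (0 : ℝ) ≤ n := Nat.cast_nonneg n
    have hr1 : ρ ≤ r := by nlinarith
    obtain ⟨z1, h1, h2, h3⟩ := hmain z0 r hr1 hU hUc hL hz0
    rcases le_or_gt ‖U z1‖ (Λ * ‖U z0‖) with h4 | h4
    · exact h3 h4
    · have hd : dist z1 z0 < ρ := h1
      have hsub : ball z1 (r - ρ) ⊆ ball z0 r := ball_subset_ball' (by linarith)
      have hsub2 : closedBall z1 (r - ρ) ⊆ closedBall z0 r := closedBall_subset_closedBall' (by linarith)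
      have hz1 : U z1 ≠ 0 := by
        intro h0
        rw [h0, norm_zero] at h2
        exact hz0 (norm_le_zero_iff.1 h2)
      refine (ih z1 (r - ρ) (by nlinarith) (hU.mono hsub) (hUc.mono hsub2) (fun w hw => hL w (hsub hw))
        (fun w hw => hLL w (hsub hw)) hz1 ?_).trans ?_
      · refine hle.trans ?_
        rw [pow_succ, mul_assoc]
        gcongr
      · apply measure_mono
        rintro w ⟨hw1, hw2⟩
        exact ⟨hsub hw1, by linarith⟩

lemma Form.LL_le (h : Form U T) {y0 : ℝ} (hy0 : 0 < y0) {w : ℂ} (hw : y0 ≤ w.im) :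
    ‖LL U w‖ ≤ (5 / 4 * T ^ 2 / y0 ^ 2) * ‖U w‖ := by
  have hT := h.one_le
  have hw0 : 0 < w.im := by linarith
  set lam : ℝ := 1 / 4 + T ^ 2 with hlam
  have e2 := congrArg norm (h.eigen w hw0)
  rw [norm_mul, norm_mul, norm_neg, norm_pow, Complex.norm_real] at e2
  have e3 : ‖(1 / 4 + (T : ℂ) ^ 2)‖ = lam := by
    have : (1 / 4 + (T : ℂ) ^ 2) = ((lam : ℝ) : ℂ) := by rw [hlam]; push_cast; ring
    rw [this, Complex.norm_real, Real.norm_of_nonneg (by positivity)]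
  rw [e3, Real.norm_of_nonneg hw0.le] at e2
  have e4 : y0 ^ 2 ≤ w.im ^ 2 := by gcongr
  have e5 : lam ≤ 5 / 4 * T ^ 2 := by rw [hlam]; nlinarith
  rw [div_mul_eq_mul_div, le_div_iff₀ (by positivity)]
  calc ‖LL U w‖ * y0 ^ 2 ≤ ‖LL U w‖ * w.im ^ 2 := by gcongr
    _ = lam * ‖U w‖ := by rw [← e2]; ring
    _ ≤ _ := by gcongr

end Pool.Agent.Q30.HP
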