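import Pool.Agent.Q30.HP.Area

/-!
# The area of the set of large values in one band
-/

set_option autoImplicit false

open MeasureTheory UpperHalfPlane Metric Filter Topology Real
open scoped MatrixGroups ENNReal ComplexConjugate

namespace Pool.Agent.Q30.HP

variable {U : ℂ → ℂ} {T : ℝ}

/-- Lebesgue measure and hyperbolic measure -/
lemma vol_le {U : ℂ → ℂ} (hUc : ContinuousOn U {z : ℂ | 0 < z.im}) {Y : ℝ} (hY : 0 < Y) {D : Set ℂ} {S : Set ℍ}
    (hS : MeasurableSet S)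
    {v : ℝ} (hD : ∀ w ∈ D, 0 < w.im ∧ w.im ≤ Y) (hDS : ∀ τ : ℍ, (τ : ℂ) ∈ D → τ ∈ S) :
    volume {w : ℂ | w ∈ D ∧ v < ‖U w‖} ≤ ENNReal.ofReal (Y ^ 2) * volume (S ∩ {τ : ℍ | v < ‖U τ‖}) := by
  have hm : Measurable fun τ : ℍ => ‖U τ‖ :=
    (hUc.comp_continuous (by fun_prop) fun τ : ℍ => τ.im_pos).measurable.norm
  have hA : MeasurableSet {τ : ℍ | v < ‖U τ‖} := measurableSet_lt measurable_const hm
  have hYm : MeasurableSet {τ : ℍ | τ.im ≤ Y} := measurableSet_le UpperHalfPlane.continuous_im.measurable measurable_const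
  set A : Set ℍ := (S ∩ {τ : ℍ | v < ‖U τ‖}) ∩ {τ : ℍ | τ.im ≤ Y} with hAdef
  have hAm : MeasurableSet A := (hS.inter hA).inter hYm
  have h1 := lint_gen (f := fun _ => 1) measurable_const hAm
  simp only [lintegral_const, MeasurableSet.univ, Measure.restrict_apply, Set.univ_inter, one_mul] at h1
  have him : MeasurableSet (UpperHalfPlane.coe '' A) := measurableEmbedding_coe.measurableSet_image.2 hAm
  calc volume {w : ℂ | w ∈ D ∧ v < ‖U w‖} ≤ volume (UpperHalfPlane.coe '' A) := by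
        apply measure_mono
        rintro w ⟨hw1, hw2⟩
        obtain ⟨h0, hle⟩ := hD w hw1
        exact ⟨⟨w, h0⟩, ⟨⟨hDS _ hw1, hw2⟩, hle⟩, rfl⟩
    _ = ∫⁻ _ in UpperHalfPlane.coe '' A, 1 := by rw [setLIntegral_one]
    _ ≤ ∫⁻ z in UpperHalfPlane.coe '' A, ENNReal.ofReal (Y ^ 2) * ENNReal.ofReal (1 / z.im ^ 2) := by
        apply setLIntegral_mono' him
        rintro z ⟨τ, hτ, rfl⟩
        rw [← ENNReal.ofReal_mul (by positivity), ← ENNReal.ofReal_one]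
        apply ENNReal.ofReal_le_ofReal
        have h2 : (τ : ℂ).im ≤ Y := hτ.2
        have h3 : 0 < (τ : ℂ).im := τ.im_pos
        rw [mul_one_div, le_div_iff₀ (by positivity), one_mul]
        gcongr
    _ = ENNReal.ofReal (Y ^ 2) * volume A := by
        rw [lintegral_const_mul' _ _ ENNReal.ofReal_ne_top, ← h1]
    _ ≤ _ := by
        gcongr
        exact fun τ hτ => hτ.1

/-- the local estimate for the area -/
lemma Form.area_loc {M δ : ℝ} (hM : 1 ≤ M) (hδ : 0 < δ) : ∃ c : ℝ, 0 < c ∧ ∀ (U : ℂ → ℂ) (T : ℝ), Form U T →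
    ∀ z : ℂ, 1 / M ≤ z.im → z.im ≤ M → 1 ≤ ‖U z‖ →
      ENNReal.ofReal (c * T ^ (-2 - δ)) ≤ volume {w : ℂ | w ∈ ball z (1 / (2 * M)) ∧ ‖U z‖ / 4 ≤ ‖U w‖} := by
  set n : ℕ := ⌈1 / δ⌉₊ with hn
  have hn1 : 1 ≤ δ * n := by
    have := Nat.le_ceil (1 / δ)
    rw [div_le_iff₀ hδ] at this
    linarith
  have hM0 : 0 < M := by linarith
  set A : ℝ := 1200 * M with hA
  have hA1 : 1 ≤ A := by rw [hA]; linarith
  refine ⟨π / (1024 * M ^ 2 * ((n : ℝ) + 1) ^ 2 * A ^ δ), by positivity, fun U T hU z h1 h2 h3 => ?_⟩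
  have hT := hU.one_le
  have hT0 : 0 < T := by linarith
  set r : ℝ := 1 / (2 * M) with hr
  have hr0 : 0 < r := by positivity
  have hr1 : r ≤ 1 / 2 := by
    rw [hr, div_le_div_iff₀ (by positivity) (by norm_num)]
    linarith
  have hM2 : 1 / M = 2 * r := by rw [hr]; field_simp
  set ρ : ℝ := 1 / (((n : ℝ) + 1) * (2 * M) * T) with hρ
  have hρ0 : 0 < ρ := by positivity
  have hAT : 1 ≤ A * T := by nlinarith
  set Λ : ℝ := (A * T) ^ δ with hΛ
  have hΛ1 : 1 ≤ Λ := Real.one_le_rpow hAT hδ.le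
  have hball : ∀ w ∈ closedBall z r, r ≤ w.im ∧ w.im ≤ 2 * M := by
    intro w hw
    rw [mem_closedBall, dist_eq_norm] at hw
    have e2 := (Complex.abs_im_le_norm (w - z)).trans hw
    rw [Complex.sub_im, abs_le] at e2
    constructor <;> linarith
  have hsub : closedBall z r ⊆ {z : ℂ | 0 < z.im} := fun w hw => lt_of_lt_of_le hr0 (hball w hw).1
  have hchain := chain (U := U) (κ := 5 / 4 * T ^ 2 / r ^ 2) (ρ := ρ) (L := A * T) (Λ := Λ) hρ0 (by positivity) (by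
      have e : 5 / 4 * T ^ 2 / r ^ 2 * ρ ^ 2 = 5 / 4 / ((n : ℝ) + 1) ^ 2 := by
        rw [hρ, hr]
        field_simp
      rw [e, div_le_iff₀ (by positivity)]
      have : (1 : ℝ) ≤ ((n : ℝ) + 1) ^ 2 := by
        have : (0 : ℝ) ≤ n := Nat.cast_nonneg n
        nlinarith
      linarith) hΛ1 n z r (by
      rw [hρ, hr, mul_one_div, div_le_div_iff₀ (by positivity) (by positivity)]
      have : (0 : ℝ) ≤ n := Nat.cast_nonneg n
      have : 0 < ((n : ℝ) + 1) * (2 * M) := by positivity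
      nlinarith)
    (hU.smooth.mono (ball_subset_closedBall.trans hsub)) (hU.smooth.continuousOn.mono hsub)
    (fun w hw => hU.LL_le hr0 (hball w (ball_subset_closedBall hw)).1)
    (fun w hw => by
      obtain ⟨q1, q2⟩ := hball w (ball_subset_closedBall hw)
      have hw0 : 0 < w.im := by linarith
      refine (hU.le hw0).trans ?_
      have : max 1 (max w.im (1 / w.im)) ≤ 2 * M := by
        apply max_le (by linarith)
        apply max_le q2
        rw [div_le_iff₀ hw0]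
        have : 2 * M * r = 1 := by rw [hr]; field_simp
        nlinarith
      calc 600 * T * max 1 (max w.im (1 / w.im)) ≤ 600 * T * (2 * M) := by gcongr
        _ = A * T := by rw [hA]; ring)
    (by
      intro h0
      rw [h0, norm_zero] at h3
      linarith)
    (by
      have e : Λ ^ n = (A * T) ^ (δ * n) := by rw [hΛ, ← Real.rpow_natCast, ← Real.rpow_mul (by positivity)]
      have e2 : A * T ≤ Λ ^ n := by
        rw [e]
        calc A * T = (A * T) ^ (1 : ℝ) := (Real.rpow_one _).symm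
          _ ≤ _ := Real.rpow_le_rpow_of_exponent_le hAT hn1
      have : 0 ≤ Λ ^ n := by positivity
      nlinarith)
  refine le_trans (ENNReal.ofReal_le_ofReal (le_of_eq ?_)) hchain
  rw [hΛ, Real.mul_rpow (by linarith) hT0.le, Real.rpow_sub hT0, Real.rpow_neg hT0.le, hρ]
  rw [show (2 : ℝ) = ((2 : ℕ) : ℝ) by norm_num, Real.rpow_natCast]
  field_simp
  norm_num

/-- **The area of the set of large values in one band.** -/
theorem area_band {a M δ : ℝ} (ha : 0 < a) (hM : 1 ≤ M) (hδ : 0 < δ) : ∃ c : ℝ, 0 < c ∧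
    ∀ (U : ℂ → ℂ) (T : ℝ), Form U T → ∀ z : ℂ, |z.re| ≤ M → 1 / M ≤ z.im → z.im ≤ M → 1 ≤ ‖U z‖ →
      ENNReal.ofReal (c * T ^ (-2 - δ)) ≤
        volume ({τ : ℍ | |τ.re| ≤ 1 / 2 ∧ a ≤ τ.im ∧ τ.im ≤ 4 * a} ∩ {τ : ℍ | c * ‖U z‖ < ‖U τ‖}) := by
  obtain ⟨c1, hc1, H1⟩ := Form.area_loc hM hδ
  have hM0 : 0 < M := by linarith
  have hEm : MeasurableSet {τ : ℍ | |τ.re| ≤ 1 / 2 ∧ a ≤ τ.im ∧ τ.im ≤ 4 * a} :=
    (box_compact ha).isClosed.measurableSet
  obtain ⟨C, hC, H2⟩ := (step_band (M := 2 * M + 1) ha (by linarith)).dist hEm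
  refine ⟨min (1 / (5 * C)) (c1 / ((2 * M + 1) ^ 2 * C)), by positivity, fun U T hU z h0 h1 h2 h3 => ?_⟩
  set c : ℝ := min (1 / (5 * C)) (c1 / ((2 * M + 1) ^ 2 * C)) with hc
  have hT := hU.one_le
  have hT0 : 0 < T := by linarith
  have hr1 : 1 / (2 * M) ≤ 1 / 2 := by
    rw [div_le_div_iff₀ (by positivity) (by norm_num)]
    linarith
  have hM2 : 1 / M = 2 * (1 / (2 * M)) := by field_simp
  have hr0 : 0 < 1 / (2 * M) := by positivity
  rw [abs_le] at h0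
  have hball : ∀ w ∈ ball z (1 / (2 * M)), |w.re| ≤ 2 * M + 1 ∧ 1 / (2 * M + 1) ≤ w.im ∧ w.im ≤ 2 * M + 1 := by
    intro w hw
    rw [mem_ball, dist_eq_norm] at hw
    have e1 := (Complex.abs_re_le_norm (w - z)).trans hw.le
    have e2 := (Complex.abs_im_le_norm (w - z)).trans hw.le
    rw [Complex.sub_re, abs_le] at e1
    rw [Complex.sub_im, abs_le] at e2
    refine ⟨by rw [abs_le]; constructor <;> linarith, ?_, by linarith⟩
    have : 1 / (2 * M + 1) ≤ 1 / (2 * M) := by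
      apply one_div_le_one_div_of_le (by positivity)
      linarith
    linarith
  have hA := H1 U T hU z h1 h2 h3
  have hSm : MeasurableSet {τ : ℍ | |τ.re| ≤ 2 * M + 1 ∧ 1 / (2 * M + 1) ≤ τ.im ∧ τ.im ≤ 2 * M + 1} :=
    (box_compact (by positivity)).isClosed.measurableSet
  have hB := vol_le hU.smooth.continuousOn (Y := 2 * M + 1) (by positivity) (D := ball z (1 / (2 * M))) hSm
    (v := ‖U z‖ / 5) (fun w hw => by
      obtain ⟨_, q2, q3⟩ := hball w hw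
      exact ⟨lt_of_lt_of_le (by positivity) q2, q3⟩) (fun τ hτ => hball _ hτ)
  have hD := H2 U T hU (‖U z‖ / 5) (by positivity)
  have hmono : volume {w : ℂ | w ∈ ball z (1 / (2 * M)) ∧ ‖U z‖ / 4 ≤ ‖U w‖} ≤
      volume {w : ℂ | w ∈ ball z (1 / (2 * M)) ∧ ‖U z‖ / 5 < ‖U w‖} := by
    apply measure_mono
    rintro w ⟨q1, q2⟩
    exact ⟨q1, by linarith⟩
  have hall := hA.trans (hmono.trans (hB.trans (mul_le_mul_right hD _)))
  rw [← mul_assoc, ← ENNReal.ofReal_mul (by positivity)] at hall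
  have hlast : volume ({τ : ℍ | |τ.re| ≤ 1 / 2 ∧ a ≤ τ.im ∧ τ.im ≤ 4 * a} ∩ {τ : ℍ | ‖U z‖ / 5 / C < ‖U τ‖}) ≤
      volume ({τ : ℍ | |τ.re| ≤ 1 / 2 ∧ a ≤ τ.im ∧ τ.im ≤ 4 * a} ∩ {τ : ℍ | c * ‖U z‖ < ‖U τ‖}) := by
    apply measure_mono
    rintro τ ⟨q1, q2⟩
    refine ⟨q1, ?_⟩
    have q2' : ‖U z‖ / 5 / C < ‖U τ‖ := q2
    show c * ‖U z‖ < ‖U τ‖
    refine lt_of_le_of_lt ?_ q2'
    have : c ≤ 1 / (5 * C) := min_le_left _ _
    calc c * ‖U z‖ ≤ 1 / (5 * C) * ‖U z‖ := by gcongr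
      _ = ‖U z‖ / 5 / C := by field_simp
  refine le_trans ?_ hlast
  have hq : 0 < (2 * M + 1) ^ 2 * C := by positivity
  have h5 : ENNReal.ofReal ((2 * M + 1) ^ 2 * C) * ENNReal.ofReal (c * T ^ (-2 - δ)) ≤
      ENNReal.ofReal ((2 * M + 1) ^ 2 * C) *
        volume ({τ : ℍ | |τ.re| ≤ 1 / 2 ∧ a ≤ τ.im ∧ τ.im ≤ 4 * a} ∩ {τ : ℍ | ‖U z‖ / 5 / C < ‖U τ‖}) := by
    refine le_trans ?_ hall
    rw [← ENNReal.ofReal_mul hq.le]
    apply ENNReal.ofReal_le_ofReal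
    have h6 : c ≤ c1 / ((2 * M + 1) ^ 2 * C) := min_le_right _ _
    rw [le_div_iff₀ hq] at h6
    have h7 : 0 < T ^ (-2 - δ) := by positivity
    nlinarith
  have hne0 : ENNReal.ofReal ((2 * M + 1) ^ 2 * C) ≠ 0 := by
    rw [Ne, ENNReal.ofReal_eq_zero, not_le]
    exact hq
  exact (ENNReal.mul_le_mul_iff_right hne0 ENNReal.ofReal_ne_top).1 h5

end Pool.Agent.Q30.HP
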