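import Pool.Agent.Q30.HP.Area2

/-!
# One large value forces a large area of the set of large values
-/

set_option autoImplicit false

open MeasureTheory UpperHalfPlane Metric Filter Topology Real
open scoped MatrixGroups ENNReal ComplexConjugate

namespace Pool.Agent.Q30.HP

variable {U : ℂ → ℂ} {T : ℝ}

/-- **One large value forces many large values**, in terms of the area. -/
theorem area_tree {M δ : ℝ} (hM : 1 ≤ M) (hδ : 0 < δ) : ∃ c : ℝ, 0 < c ∧ c ≤ 1 ∧
    ∀ (U : ℂ → ℂ) (T : ℝ), Form U T → ∀ z : ℂ, |z.re| ≤ M → 1 / M ≤ z.im → z.im ≤ M → 1 ≤ ‖U z‖ →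
      ∀ J : ℕ, 64 ^ J ≤ c * T →
      ENNReal.ofReal (c * (2 ^ J / ((J : ℝ) + 1) ^ 2) * T ^ (-2 - δ)) ≤
        volume ({τ : ℍ | |τ.re| ≤ 1 ∧ 1 / 4 ≤ τ.im ∧ τ.im ≤ 2 * M * 4 ^ J} ∩
          {τ : ℍ | ‖U z‖ / (5 * 14 ^ J) < ‖U τ‖}) := by
  classical
  set n : ℕ := ⌈2 / δ⌉₊ with hn
  have hn1 : 2 ≤ δ * n := by
    have := Nat.le_ceil (2 / δ)
    rw [div_le_iff₀ hδ] at this
    linarith
  have hM0 : 0 < M := by linarith
  set A : ℝ := 2400 * M with hA
  have hA1 : 1 ≤ A := by rw [hA]; linarith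
  have hn0 : (0 : ℝ) ≤ n := Nat.cast_nonneg n
  set c1 : ℝ := π / (1024 * ((n : ℝ) + 1) ^ 2 * A ^ (δ / 2)) with hc1
  have hc10 : 0 < c1 := by positivity
  refine ⟨min (min 1 (1 / (64 * M ^ 4))) (c1 / 256), by positivity, (min_le_left _ _).trans (min_le_left _ _),
    fun U T hU z m1 m2 m3 hz1 J hJ => ?_⟩
  set c : ℝ := min (min 1 (1 / (64 * M ^ 4))) (c1 / 256) with hc
  have hc0 : 0 < c := by positivity
  have hcA : c ≤ 1 := (min_le_left _ _).trans (min_le_left _ _)
  have hcB : c ≤ 1 / (64 * M ^ 4) := (min_le_left _ _).trans (min_le_right _ _)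
  have hcC : c ≤ c1 / 256 := min_le_right _ _
  have hT := hU.one_le
  have hT0 : 0 < T := by linarith
  have hJT : (64 : ℝ) ^ J ≤ T := hJ.trans (by nlinarith)
  have hJT2 : 64 * M ^ 4 * 64 ^ J ≤ T := by
    have h1 : 64 * M ^ 4 * (64 : ℝ) ^ J ≤ 64 * M ^ 4 * (c * T) := by gcongr
    have h2 : 64 * M ^ 4 * (c * T) ≤ 64 * M ^ 4 * (1 / (64 * M ^ 4) * T) := by gcongr
    have h3 : 64 * M ^ 4 * (1 / (64 * M ^ 4) * T) = T := by field_simp
    linarith
  obtain ⟨cc, hcc, hc7⟩ := hU.two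
  obtain ⟨P, hP1, hP2, hP3⟩ := peaks hU.inv hcc (by norm_num : (2 : ℝ) ≤ 7) hc7 (z := z)
    (lt_of_lt_of_le (by positivity) m2) hM m2 m3 m1 J
  set r : ℝ := 1 / (64 * M ^ 3 * 16 ^ J) with hr
  have hr0 : 0 < r := by positivity
  have h16 : (1 : ℝ) ≤ 16 ^ J := one_le_pow₀ (by norm_num)
  have hM3 : 1 ≤ M ^ 3 := one_le_pow₀ hM
  have hr1 : r ≤ 1 / 64 := by
    rw [hr]
    apply one_div_le_one_div_of_le (by norm_num)
    nlinarith
  set v : ℝ := ‖U z‖ / (5 * 14 ^ J) with hv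
  have h14 : (0 : ℝ) < 14 ^ J := by positivity
  -- one peak
  have hone : ∀ p ∈ P, ENNReal.ofReal (c1 * T ^ (-2 - δ)) ≤
      volume (UpperHalfPlane.coe ⁻¹' (ball p r) ∩ {τ : ℍ | v < ‖U τ‖}) := by
    intro p hp
    obtain ⟨q1, q2, q3, q4, q5⟩ := hP2 p hp
    have h27 : (2 * 7 : ℝ) = 14 := by norm_num
    rw [h27] at q5
    have hy : 4 / 5 ≤ p.im := by
      have h4 : 1 ≤ ‖p‖ ^ 2 := by nlinarith
      rw [← Complex.normSq_eq_norm_sq, Complex.normSq_apply] at h4
      rw [abs_le] at q1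
      nlinarith
    set y : ℝ := p.im with hydef
    have hUp : 0 < ‖U p‖ := lt_of_lt_of_le (by positivity) q5
    set ρ : ℝ := y / (((n : ℝ) + 1) * T) with hρ
    have hρ0 : 0 < ρ := by positivity
    have hAT : 1 ≤ A * T ^ 2 := by nlinarith
    set Λ : ℝ := (A * T ^ 2) ^ (δ / 2) with hΛ
    have hΛ1 : 1 ≤ Λ := Real.one_le_rpow hAT (by positivity)
    have hball : ∀ w ∈ closedBall p r, y / 2 ≤ w.im ∧ w.im ≤ 2 * y := by
      intro w hw
      rw [mem_closedBall, dist_eq_norm] at hw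
      have e2 := (Complex.abs_im_le_norm (w - p)).trans hw
      rw [Complex.sub_im, abs_le] at e2
      constructor <;> linarith
    have hsub : closedBall p r ⊆ {z : ℂ | 0 < z.im} := fun w hw =>
      lt_of_lt_of_le (by positivity) (hball w hw).1
    have hchain := chain (U := U) (κ := 5 / 4 * T ^ 2 / (y / 2) ^ 2) (ρ := ρ) (L := A * 4 ^ J * T) (Λ := Λ) hρ0
      (by positivity) (by
        have e : 5 / 4 * T ^ 2 / (y / 2) ^ 2 * ρ ^ 2 = 5 / ((n : ℝ) + 1) ^ 2 := by
          rw [hρ]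
          field_simp
          norm_num
        rw [e, div_le_iff₀ (by positivity)]
        have : (1 : ℝ) ≤ ((n : ℝ) + 1) ^ 2 := by nlinarith
        linarith) hΛ1 n p r (by
        rw [hρ, hr]
        have e : ((n : ℝ) + 1) * (y / (((n : ℝ) + 1) * T)) = y / T := by field_simp
        rw [e, div_le_div_iff₀ hT0 (by positivity), one_mul]
        refine le_trans ?_ hJT2
        have e2 : (64 : ℝ) ^ J = 4 ^ J * 16 ^ J := by rw [← mul_pow]; norm_num
        rw [e2]
        calc y * (64 * M ^ 3 * 16 ^ J) ≤ (M * 4 ^ J) * (64 * M ^ 3 * 16 ^ J) := by gcongr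
          _ = _ := by ring)
      (hU.smooth.mono (ball_subset_closedBall.trans hsub)) (hU.smooth.continuousOn.mono hsub)
      (fun w hw => hU.LL_le (by positivity) (hball w (ball_subset_closedBall hw)).1)
      (fun w hw => by
        obtain ⟨q1', q2'⟩ := hball w (ball_subset_closedBall hw)
        have hw0 : 0 < w.im := by linarith
        refine (hU.le hw0).trans ?_
        have h4J : (1 : ℝ) ≤ 4 ^ J := one_le_pow₀ (by norm_num)
        have hM4 : 1 ≤ M * 4 ^ J := by nlinarith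
        have : max 1 (max w.im (1 / w.im)) ≤ 4 * (M * 4 ^ J) := by
          apply max_le (by linarith)
          apply max_le (by linarith)
          rw [div_le_iff₀ hw0]
          nlinarith
        calc 600 * T * max 1 (max w.im (1 / w.im)) ≤ 600 * T * (4 * (M * 4 ^ J)) := by gcongr
          _ = A * 4 ^ J * T := by rw [hA]; ring)
      (norm_pos_iff.1 hUp)
      (by
        have e : Λ ^ n = (A * T ^ 2) ^ (δ / 2 * n) := by
          rw [hΛ, ← Real.rpow_natCast, ← Real.rpow_mul (by positivity)]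
        have e2 : A * T ^ 2 ≤ Λ ^ n := by
          rw [e]
          calc A * T ^ 2 = (A * T ^ 2) ^ (1 : ℝ) := (Real.rpow_one _).symm
            _ ≤ _ := Real.rpow_le_rpow_of_exponent_le hAT (by linarith)
        have h5 : 1 / 14 ^ J ≤ ‖U p‖ := le_trans (by gcongr) q5
        have e3 : (4 : ℝ) ^ J * 14 ^ J ≤ 64 ^ J := by
          rw [← mul_pow]
          gcongr
          norm_num
        calc A * 4 ^ J * T = (A * T * (4 ^ J * 14 ^ J)) * (1 / 14 ^ J) := by field_simp
          _ ≤ (A * T * T) * ‖U p‖ := by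
              gcongr
              exact e3.trans hJT
          _ = A * T ^ 2 * ‖U p‖ := by ring
          _ ≤ _ := by gcongr)
    have hSm : MeasurableSet (UpperHalfPlane.coe ⁻¹' (ball p r)) := measurable_coe measurableSet_ball
    have hB := vol_le hU.smooth.continuousOn (Y := 2 * y) (by positivity) (D := ball p r) hSm
      (v := v) (fun w hw => by
        obtain ⟨q2', q3'⟩ := hball w (ball_subset_closedBall hw)
        exact ⟨by linarith, q3'⟩) (fun τ hτ => hτ)
    have hmono : volume {w : ℂ | w ∈ ball p r ∧ ‖U p‖ / 4 ≤ ‖U w‖} ≤ volume {w : ℂ | w ∈ ball p r ∧ v < ‖U w‖} := by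
      apply measure_mono
      rintro w ⟨q1', q2'⟩
      refine ⟨q1', lt_of_lt_of_le ?_ q2'⟩
      have : v = (‖U z‖ / 14 ^ J) / 5 := by rw [hv]; field_simp
      rw [this]
      linarith
    have hall := hchain.trans (hmono.trans hB)
    have hq : 0 < (2 * y) ^ 2 := by positivity
    have hne0 : ENNReal.ofReal ((2 * y) ^ 2) ≠ 0 := by
      rw [Ne, ENNReal.ofReal_eq_zero, not_le]
      exact hq
    refine (ENNReal.mul_le_mul_iff_right hne0 ENNReal.ofReal_ne_top).1 (le_trans (le_of_eq ?_) hall)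
    rw [← ENNReal.ofReal_mul hq.le]
    congr 1
    rw [hΛ, Real.mul_rpow (by linarith) (by positivity), Real.rpow_sub hT0, Real.rpow_neg hT0.le, hρ, hc1]
    have e4 : (T ^ 2) ^ (δ / 2) = T ^ δ := by
      rw [← Real.rpow_natCast, ← Real.rpow_mul hT0.le]
      congr 1
      push_cast
      ring
    rw [e4, show (2 : ℝ) = ((2 : ℕ) : ℝ) by norm_num, Real.rpow_natCast]
    push_cast
    field_simp
    norm_num
  -- the union
  have hm : Measurable fun τ : ℍ => ‖U τ‖ :=
    (hU.smooth.continuousOn.comp_continuous (by fun_prop) fun τ : ℍ => τ.im_pos).measurable.norm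
  have hAm : MeasurableSet {τ : ℍ | v < ‖U τ‖} := measurableSet_lt measurable_const hm
  have hdisj : (P : Set ℂ).PairwiseDisjoint fun p => UpperHalfPlane.coe ⁻¹' (ball p r) ∩ {τ : ℍ | v < ‖U τ‖} := by
    intro p hp q hq hpq
    apply Set.disjoint_left.2
    rintro τ ⟨t1, _⟩ ⟨t2, _⟩
    have t1' : dist (τ : ℂ) p < r := t1
    have t2' : dist (τ : ℂ) q < r := t2
    have h1 := hP3 p hp q hq hpq
    have h2 : ‖p - q‖ < 2 * r := by
      rw [← dist_eq_norm]
      calc dist p q ≤ dist p τ + dist (τ : ℂ) q := dist_triangle _ _ _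
        _ < r + r := by rw [dist_comm p]; linarith
        _ = 2 * r := by ring
    have h3 : 2 * r = 1 / (32 * M ^ 3 * 16 ^ J) := by rw [hr]; field_simp; norm_num
    linarith
  have hsum := measure_biUnion_finset (μ := (volume : Measure ℍ)) hdisj
    (fun p _ => (measurable_coe measurableSet_ball).inter hAm)
  have hlow : ENNReal.ofReal (c * (2 ^ J / ((J : ℝ) + 1) ^ 2) * T ^ (-2 - δ)) ≤
      volume (⋃ p ∈ P, UpperHalfPlane.coe ⁻¹' (ball p r) ∩ {τ : ℍ | v < ‖U τ‖}) := by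
    rw [hsum]
    calc ENNReal.ofReal (c * (2 ^ J / ((J : ℝ) + 1) ^ 2) * T ^ (-2 - δ))
        ≤ ENNReal.ofReal (P.card * (c1 * T ^ (-2 - δ))) := by
          apply ENNReal.ofReal_le_ofReal
          have h1 : (2 : ℝ) ^ J ≤ 256 * ((J : ℝ) + 1) ^ 2 * P.card := by exact_mod_cast hP1
          have h2 : (2 : ℝ) ^ J / ((J : ℝ) + 1) ^ 2 ≤ 256 * P.card := by
            rw [div_le_iff₀ (by positivity)]
            linarith
          have h3 : 0 < T ^ (-2 - δ) := by positivity
          calc c * (2 ^ J / ((J : ℝ) + 1) ^ 2) * T ^ (-2 - δ) ≤ (c1 / 256) * (256 * P.card) * T ^ (-2 - δ) := by gcongr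
            _ = _ := by ring
      _ = ∑ _p ∈ P, ENNReal.ofReal (c1 * T ^ (-2 - δ)) := by
          rw [Finset.sum_const, nsmul_eq_mul, ENNReal.ofReal_mul (by positivity), ENNReal.ofReal_natCast]
      _ ≤ _ := Finset.sum_le_sum hone
  refine hlow.trans (measure_mono ?_)
  intro τ hτ
  simp only [Set.mem_iUnion] at hτ
  obtain ⟨p, hp, t1, t2⟩ := hτ
  obtain ⟨q1, q2, q3, q4, q5⟩ := hP2 p hp
  have t1' : ‖(τ : ℂ) - p‖ < r := by rw [← dist_eq_norm]; exact t1
  have e1 := (Complex.abs_re_le_norm ((τ : ℂ) - p)).trans t1'.le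
  have e2 := (Complex.abs_im_le_norm ((τ : ℂ) - p)).trans t1'.le
  rw [Complex.sub_re, abs_le] at e1
  rw [Complex.sub_im, abs_le] at e2
  have hy : 4 / 5 ≤ p.im := by
    have h4 : 1 ≤ ‖p‖ ^ 2 := by nlinarith
    rw [← Complex.normSq_eq_norm_sq, Complex.normSq_apply] at h4
    rw [abs_le] at q1
    nlinarith
  rw [abs_le] at q1
  simp only [UpperHalfPlane.coe_re, UpperHalfPlane.coe_im] at e1 e2
  refine ⟨⟨?_, ?_, ?_⟩, t2⟩
  · rw [abs_le]
    constructor <;> linarith
  · linarith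
  · have : p.im + r ≤ 2 * (M * 4 ^ J) := by linarith
    linarith

end Pool.Agent.Q30.HP
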