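import Pool.Agent.Q30.HP.Dom

/-!
# Values of a Hecke eigenfunction are controlled by its values in one horizontal band
-/

set_option autoImplicit false

open MeasureTheory UpperHalfPlane Metric Filter Topology
open scoped MatrixGroups ENNReal

namespace Pool.Agent.Q30.HP

variable {U : ℂ → ℂ} {T : ℝ}

/-- **The horocycle inequality.** -/
theorem horo2 {N : ℕ} (hN : 2 ≤ N) {A : ℕ → Polynomial ℚ}
    (hA : Polynomial.cyclotomic N ℚ = ∑ p ∈ N.primeFactors, A p * psi N p) (h : Form U T)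
    {y B : ℝ} (hy : 0 < y) (hB0 : 0 ≤ B)
    (hup : ∀ p ∈ N.primeFactors, ∀ z : ℂ, z.im = p * y ∨ z.im = p * (p * y) → ‖U z‖ ≤ B) {x0 : ℝ}
    (hst : ∀ x : ℝ, x0 ≤ x → x ≤ x0 + (N.totient : ℝ) / N → ‖U (x + y * Complex.I)‖ ≤ B) (x : ℝ) :
    ‖U (x + y * Complex.I)‖ ≤ hcst N A * B := by
  have hN0 : (0 : ℝ) < N := by exact_mod_cast (by omega : 0 < N)
  have hNc : (N : ℂ) ≠ 0 := by exact_mod_cast hN0.ne'
  set g : ℤ → ℂ := fun k => U (x + y * Complex.I + k / N) with hg
  have him : ∀ r : ℂ, r.im = 0 → (x + y * Complex.I + r).im = y := by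
    intro r hr
    simp [hr]
  have hkim : ∀ k : ℤ, ((k : ℂ) / N).im = 0 := by
    intro k
    have : ((k : ℂ) / N) = (((k : ℝ) / N : ℝ) : ℂ) := by push_cast; rfl
    rw [this, Complex.ofReal_im]
  -- the relations
  have hpsi : ∀ p ∈ N.primeFactors, ∀ k : ℤ, ‖Polynomial.aeval shiftL (psi N p) g k‖ ≤ ((p : ℝ) * (p + 1) + 1) * B := by
    intro p hp k
    have hp' := hp
    rw [Nat.mem_primeFactors] at hp
    obtain ⟨hpp, hpN, _⟩ := hp
    obtain ⟨c, hc⟩ := h.heckeP hpp
    have hc1 := h.eig_le hpp hc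
    have hp2 : (2 : ℝ) ≤ p := by exact_mod_cast hpp.two_le
    have hpN' : (p : ℝ) ≤ N := by exact_mod_cast Nat.le_of_dvd (by omega) hpN
    have hpc : (p : ℂ) ≠ 0 := by exact_mod_cast hpp.ne_zero
    set w : ℂ := x + y * Complex.I + k / N with hw
    have hwim : w.im = y := him _ (hkim k)
    have hpw : (p * w).im = p * y := by simp [hwim]
    have hppw : (p * (p * w)).im = p * (p * y) := by simp [hwim]
    have hrel := hc (p * w) (by rw [hpw]; positivity)
    rw [aeval_psi]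
    have e1 : ∑ b ∈ Finset.range p, g (k + ((N / p : ℕ) : ℤ) * b) = ∑ b ∈ Finset.range p, U ((p * w + b) / p) := by
      refine Finset.sum_congr rfl fun b _ => ?_
      simp only [hg]
      congr 1
      have e2 : ((((N / p : ℕ) : ℤ)) : ℂ) = (N : ℂ) / p := by
        rw [Int.cast_natCast]; exact Nat.cast_div hpN hpc
      rw [Int.cast_add, Int.cast_mul, e2, Int.cast_natCast, hw]
      field_simp
      ring
    rw [e1]
    have e3 : ∑ b ∈ Finset.range p, U ((p * w + b) / p) = c * U (p * w) - U (p * (p * w)) := by rw [← hrel]; ring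
    rw [e3]
    have b1 : ‖U (p * w)‖ ≤ B := hup p hp' _ (Or.inl hpw)
    have b2 : ‖U (p * (p * w))‖ ≤ B := hup p hp' _ (Or.inr hppw)
    calc ‖c * U (p * w) - U (p * (p * w))‖ ≤ ‖c‖ * ‖U (p * w)‖ + ‖U (p * (p * w))‖ := by
          rw [← norm_mul]; exact norm_sub_le _ _
      _ ≤ (p * (p + 1)) * B + B := by gcongr
      _ = _ := by ring
  set R : ℝ := (∑ p ∈ N.primeFactors, wt (A p) * ((p : ℝ) * (p + 1) + 1)) * B with hR
  have hR0 : 0 ≤ R := mul_nonneg (Finset.sum_nonneg fun p _ => mul_nonneg (wt_nonneg _) (by positivity)) hB0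
  have hcyc : ∀ k : ℤ, ‖Polynomial.aeval shiftL (Polynomial.cyclotomic N ℚ) g k‖ ≤ R := by
    intro k
    rw [hA, map_sum, LinearMap.sum_apply, Finset.sum_apply, hR, Finset.sum_mul]
    refine (norm_sum_le _ _).trans (Finset.sum_le_sum fun p hp => ?_)
    rw [map_mul, Module.End.mul_apply, mul_assoc]
    exact norm_aeval_le _ _ (hpsi p hp) k
  -- the strip
  set k0 : ℤ := ⌈(x0 - x) * N⌉ with hk0
  have hk1 : (x0 - x) * N ≤ k0 := Int.le_ceil _
  have hk2 : (k0 : ℝ) < (x0 - x) * N + 1 := Int.ceil_lt_add_one _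
  have hstrip : ∀ j : ℕ, j < (Polynomial.cyclotomic N ℚ).natDegree → ‖g (k0 + j)‖ ≤ B := by
    intro j hj
    rw [Polynomial.natDegree_cyclotomic] at hj
    have hj' : (j : ℝ) + 1 ≤ N.totient := by exact_mod_cast hj
    have e1 : g (k0 + j) = U (((x + (k0 + j) / N : ℝ) : ℂ) + y * Complex.I) := by
      simp only [hg]
      congr 1
      push_cast
      ring
    rw [e1]
    apply hst
    · have : x0 - x ≤ (k0 + j) / N := by
        rw [le_div_iff₀ hN0]
        have : (0 : ℝ) ≤ j := Nat.cast_nonneg j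
        linarith
      linarith
    · have : (k0 + j) / N ≤ x0 - x + (N.totient : ℝ) / N := by
        rw [div_le_iff₀ hN0, add_mul, div_mul_cancel₀ _ hN0.ne']
        linarith
      linarith
  have hmono := Polynomial.cyclotomic.monic N ℚ
  -- the representative of zero
  set m : ℕ := ((-k0) % (N : ℤ)).toNat with hm
  have hNz : (0 : ℤ) < N := by omega
  have hm0 : ((m : ℕ) : ℤ) = (-k0) % (N : ℤ) := by
    rw [hm, Int.toNat_of_nonneg (Int.emod_nonneg _ hNz.ne')]
  have hmN : m < N := by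
    have := Int.emod_lt_of_pos (-k0) hNz
    omega
  obtain ⟨t, ht⟩ : ∃ t : ℤ, k0 + m = N * t := by
    refine ⟨-((-k0) / N), ?_⟩
    have := Int.emod_add_mul_ediv (-k0) N
    rw [hm0]
    linarith
  have hfin := recur hmono g hR0 hB0 hcyc k0 hstrip m
  rw [ht] at hfin
  have e2 : g (N * t) = U (x + y * Complex.I) := by
    simp only [hg]
    push_cast
    rw [mul_div_assoc, mul_div_cancel₀ _ hNc]
    exact h.inv.shift_int t (by simpa using hy)
  rw [e2] at hfin
  refine hfin.trans ?_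
  unfold hcst
  have h1 : (1 + wt (Polynomial.cyclotomic N ℚ)) ^ (m + 1) ≤ (1 + wt (Polynomial.cyclotomic N ℚ)) ^ (N + 1) :=
    pow_le_pow_right₀ (by linarith [wt_nonneg (Polynomial.cyclotomic N ℚ)]) (by omega)
  have h2 : B + R = (1 + ∑ p ∈ N.primeFactors, wt (A p) * ((p : ℝ) * (p + 1) + 1)) * B := by rw [hR]; ring
  rw [h2, ← mul_assoc]
  have h3 : 0 ≤ 1 + ∑ p ∈ N.primeFactors, wt (A p) * ((p : ℝ) * (p + 1) + 1) :=
    add_nonneg zero_le_one (Finset.sum_nonneg fun p _ => mul_nonneg (wt_nonneg _) (by positivity))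
  gcongr


lemma exists_totient2 (P : ℕ) {η : ℝ} (hη : 0 < η) :
    ∃ N : ℕ, 2 ≤ N ∧ (∀ p ∈ N.primeFactors, P ≤ p) ∧ (N.totient : ℝ) / N ≤ η := by
  have hns := not_summable_one_div_on_primes
  rw [not_summable_iff_tendsto_nat_atTop_of_nonneg (by
    intro n
    apply Set.indicator_nonneg
    intro m _
    positivity)] at hns
  set S : ℝ := ∑ i ∈ Finset.range P, Set.indicator {p : ℕ | p.Prime} (fun n : ℕ => (1 : ℝ) / n) i with hS
  obtain ⟨n, hn, hn2, hn3⟩ := ((hns.eventually_ge_atTop (S + Real.log (1 / η))).and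
    ((hns.eventually_ge_atTop (S + 1)).and (eventually_ge_atTop P))).exists
  set s : Finset ℕ := (Finset.Ico P n).filter Nat.Prime with hs
  have hsp : ∀ p ∈ s, p.Prime := fun p hp => (Finset.mem_filter.1 hp).2
  have hsum : ∑ i ∈ Finset.range n, Set.indicator {p : ℕ | p.Prime} (fun n : ℕ => (1 : ℝ) / n) i =
      S + ∑ p ∈ s, (p : ℝ)⁻¹ := by
    rw [hS, ← Finset.sum_range_add_sum_Ico _ hn3, hs, Finset.sum_filter]
    congr 1
    refine Finset.sum_congr rfl fun p _ => ?_
    by_cases hp : p.Prime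
    · rw [Set.indicator_of_mem (by exact hp), if_pos hp, one_div]
    · rw [Set.indicator_of_notMem (by exact hp), if_neg hp]
  rw [hsum] at hn hn2
  have hpf : (∏ p ∈ s, p).primeFactors = s := Nat.primeFactors_prod hsp
  have hne : s.Nonempty := by
    by_contra hcon
    rw [Finset.not_nonempty_iff_eq_empty] at hcon
    rw [hcon, Finset.sum_empty] at hn2
    linarith
  obtain ⟨p0, hp0⟩ := hne
  have hNpos : 0 < ∏ p ∈ s, p := Finset.prod_pos fun p hp => (hsp p hp).pos
  refine ⟨∏ p ∈ s, p, ?_, ?_, ?_⟩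
  · exact (hsp p0 hp0).two_le.trans (Nat.le_of_dvd hNpos (Finset.dvd_prod_of_mem _ hp0))
  · intro p hp
    rw [hpf] at hp
    exact (Finset.mem_Ico.1 (Finset.mem_filter.1 hp).1).1
  · have hN0 : (0 : ℝ) < ((∏ p ∈ s, p : ℕ) : ℝ) := by exact_mod_cast hNpos
    have h1 := Nat.totient_eq_mul_prod_factors (∏ p ∈ s, p)
    rw [hpf] at h1
    have h2 : (((∏ p ∈ s, p).totient : ℝ)) / ((∏ p ∈ s, p : ℕ) : ℝ) = ∏ p ∈ s, (1 - (p : ℝ)⁻¹) := by
      have h3 : (((∏ p ∈ s, p).totient : ℝ)) = ((∏ p ∈ s, p : ℕ) : ℝ) * ∏ p ∈ s, (1 - (p : ℝ)⁻¹) := by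
        have h1' := congrArg (fun q : ℚ => (q : ℝ)) h1
        push_cast at h1'
        push_cast
        exact h1'
      rw [h3]
      field_simp
    rw [h2]
    have h4 : ∏ p ∈ s, (1 - (p : ℝ)⁻¹) ≤ ∏ p ∈ s, Real.exp (-(p : ℝ)⁻¹) := by
      apply Finset.prod_le_prod
      · intro p hp
        have hp1 : (1 : ℝ) ≤ p := by exact_mod_cast (hsp p hp).one_lt.le
        have := inv_le_one_of_one_le₀ hp1
        linarith
      · intro p _
        have := Real.add_one_le_exp (-(p : ℝ)⁻¹)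
        linarith
    refine h4.trans ?_
    rw [← Real.exp_sum, Finset.sum_neg_distrib]
    calc Real.exp (-∑ p ∈ s, (p : ℝ)⁻¹) ≤ Real.exp (-Real.log (1 / η)) :=
          Real.exp_le_exp.2 (by linarith)
      _ = η := by
          rw [one_div, Real.log_inv, neg_neg, Real.exp_log hη]

/-- going up -/
lemma up {c : ℂ} (hH : HeckeTwo U c) (hc : ‖c‖ ≤ 7) {a A : ℝ} (ha : 0 < a) (hA0 : 0 ≤ A)
    (hA : ∀ w : ℂ, a ≤ w.im → w.im ≤ 4 * a → ‖U w‖ ≤ A) (k : ℕ) :
    ∀ w : ℂ, a ≤ w.im → w.im ≤ 2 ^ k * (4 * a) → ‖U w‖ ≤ 9 ^ k * A := by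
  induction k with
  | zero => intro w h1 h2; simpa using hA w h1 (by simpa using h2)
  | succ k ih =>
    intro w h1 h2
    have hk1 : (1 : ℝ) ≤ 2 ^ k := one_le_pow₀ (by norm_num)
    have h9 : (0 : ℝ) ≤ 9 ^ k * A := by positivity
    rcases le_or_gt w.im (2 ^ k * (4 * a)) with h4 | h4
    · have := ih w h1 h4
      rw [pow_succ]
      nlinarith
    · have hw4 : 4 * a < w.im := by nlinarith
      have hw2 : 0 < (w / 2).im := by simp; linarith
      have hrel := hH.hecke (w / 2) hw2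
      have e1 : 2 * (w / 2) = w := by ring
      rw [e1] at hrel
      rw [pow_succ] at h2
      have b1 := ih (w / 2) (by simp; linarith) (by simp; linarith)
      have b2 := ih (w / 2 / 2) (by simp; linarith) (by simp; linarith)
      have b3 := ih ((w / 2 + 1) / 2) (by simp; linarith) (by simp; linarith)
      have e2 : U w = c * U (w / 2) - U (w / 2 / 2) - U ((w / 2 + 1) / 2) := by rw [← hrel]; ring
      rw [e2]
      calc ‖c * U (w / 2) - U (w / 2 / 2) - U ((w / 2 + 1) / 2)‖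
          ≤ ‖c * U (w / 2)‖ + ‖U (w / 2 / 2)‖ + ‖U ((w / 2 + 1) / 2)‖ :=
            (norm_sub_le _ _).trans (by gcongr; exact norm_sub_le _ _)
        _ ≤ 7 * (9 ^ k * A) + 9 ^ k * A + 9 ^ k * A := by
            rw [norm_mul]
            gcongr
        _ = 9 ^ (k + 1) * A := by rw [pow_succ]; ring

/-- **One band controls everything.** -/
theorem band {a : ℝ} (ha : 0 < a) {M : ℝ} (hM : 1 ≤ M) : ∃ C : ℝ, 0 < C ∧
    ∀ (U : ℂ → ℂ) (T : ℝ), Form U T → ∀ B : ℝ, 0 ≤ B →
    (∀ z : ℂ, |z.re| ≤ 1 / 2 → a ≤ z.im → z.im ≤ 4 * a → ‖U z‖ ≤ B) →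
    ∀ z : ℂ, 1 / M ≤ z.im → z.im ≤ M → ‖U z‖ ≤ C * B := by
  set h : ℝ := max a 1 with hh
  have hh1 : 1 ≤ h := le_max_right _ _
  have hha : a ≤ h := le_max_left _ _
  have hh0 : 0 < h := by linarith
  set yl : ℝ := (1 / (2 * h)) / ((2 * h + 1) ^ 2 + h ^ 2) with hyl
  have hyl0 : 0 < yl := by positivity
  set η : ℝ := 2 * Real.sqrt (yl / (2 * h)) with hη
  have hη0 : 0 < η := by positivity
  obtain ⟨N, hN, hNP, hNη⟩ := exists_totient2 ⌈h / yl⌉₊ hη0
  obtain ⟨A, hA⟩ := cyc_mem hN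
  have hN0 : (0 : ℝ) < N := by exact_mod_cast (by omega : 0 < N)
  set H' : ℝ := max (max ((N : ℝ) ^ 2 / (2 * h)) (1 / yl)) M with hH'
  obtain ⟨k, hk⟩ := pow_unbounded_of_one_lt (H' / (4 * a)) (by norm_num : (1 : ℝ) < 2)
  have hk' : H' ≤ 2 ^ k * (4 * a) := by
    rw [div_lt_iff₀ (by positivity)] at hk
    exact hk.le
  have hc1 := hcst_one_le N A
  refine ⟨hcst N A * 9 ^ k, by positivity, fun U T hU B hB0 hB z hz1 hz2 => ?_⟩
  obtain ⟨c, hc, hc7⟩ := hU.two
  -- the band, all real parts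
  have hper : ∀ z : ℂ, a ≤ z.im → z.im ≤ 4 * a → ‖U z‖ ≤ B := by
    intro z h1 h2
    have hz : 0 < z.im := by linarith
    rw [← hU.inv.shift_int (-round z.re) hz]
    apply hB
    · have e : (z + ((-round z.re : ℤ) : ℂ)).re = z.re - round z.re := by
        rw [Complex.add_re, Complex.intCast_re]; push_cast; ring
      rw [e]
      exact abs_sub_round z.re
    · simpa using h1
    · simpa using h2
  have hup := up hc hc7 ha hB0 hper k
  set B' : ℝ := 9 ^ k * B with hB'
  have hB'0 : 0 ≤ B' := by positivity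
  have hhigh : ∀ w : ℂ, h ≤ w.im → w.im ≤ H' → ‖U w‖ ≤ B' := fun w h1 h2 =>
    hup w (hha.trans h1) (h2.trans hk')
  -- the low horocycles
  have hlow : ∀ y : ℝ, yl ≤ y → y ≤ 1 / (2 * h) → ∀ x : ℝ, ‖U (x + y * Complex.I)‖ ≤ hcst N A * B' := by
    intro y hy1 hy2 x
    have hy0 : 0 < y := by linarith
    apply horo2 hN hA hU hy0 hB'0 (x0 := -Real.sqrt (y / (2 * h)))
    · intro p hp w hw
      have hpP := hNP p hp
      have hpr := Nat.prime_of_mem_primeFactors hp
      have hp1 : (1 : ℝ) ≤ p := by exact_mod_cast hpr.one_lt.le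
      have hpN : (p : ℝ) ≤ N := by
        exact_mod_cast Nat.le_of_dvd (by omega) (Nat.dvd_of_mem_primeFactors hp)
      have hph : h / yl ≤ p := (Nat.le_ceil _).trans (by exact_mod_cast hpP)
      rw [div_le_iff₀ hyl0] at hph
      have hpy : h ≤ p * y := hph.trans (by gcongr)
      have hppy : h ≤ p * (p * y) := hpy.trans (by nlinarith)
      have hup1 : (p : ℝ) * (p * y) ≤ (N : ℝ) ^ 2 / (2 * h) := by
        calc (p : ℝ) * (p * y) ≤ N * (N * (1 / (2 * h))) := by gcongr
          _ = _ := by ring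
      have hup2 : (p : ℝ) * y ≤ (N : ℝ) ^ 2 / (2 * h) := by
        refine le_trans ?_ hup1
        have : 0 < (p : ℝ) * y := by positivity
        nlinarith
      have hle : (N : ℝ) ^ 2 / (2 * h) ≤ H' := (le_max_left _ _).trans (le_max_left _ _)
      rcases hw with hw | hw
      · exact hhigh w (by rw [hw]; exact hpy) (by rw [hw]; linarith)
      · exact hhigh w (by rw [hw]; exact hppy) (by rw [hw]; linarith)
    · intro x' hx1 hx2
      have hsq : 0 ≤ y / (2 * h) := by positivity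
      have hx3 : |x'| ≤ Real.sqrt (y / (2 * h)) := by
        rw [abs_le]
        refine ⟨hx1, ?_⟩
        have h5 : η ≤ 2 * Real.sqrt (y / (2 * h)) := by
          rw [hη]
          gcongr
        linarith
      have hx4 : x' ^ 2 ≤ y / (2 * h) := by
        rw [← Real.sq_sqrt hsq, ← sq_abs x']
        gcongr
      have hwim : ((x' : ℂ) + y * Complex.I).im = y := by simp
      have hwre : ((x' : ℂ) + y * Complex.I).re = x' := by simp
      have hns : Complex.normSq ((x' : ℂ) + y * Complex.I) = x' ^ 2 + y ^ 2 := by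
        rw [Complex.normSq_apply, hwim, hwre]; ring
      rw [← (hU.inv ((x' : ℂ) + y * Complex.I) (by rw [hwim]; exact hy0)).2]
      have hIm : (-((x' : ℂ) + y * Complex.I)⁻¹).im = y / (x' ^ 2 + y ^ 2) := by
        rw [Complex.neg_im, Complex.inv_im, hwim, hns]; ring
      have hpos : 0 < x' ^ 2 + y ^ 2 := by positivity
      apply hhigh
      · rw [hIm, le_div_iff₀ hpos]
        have h6 : y ^ 2 ≤ y / (2 * h) := by
          rw [sq, div_eq_mul_one_div y (2 * h)]
          gcongr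
        have h7 : y / (2 * h) + y / (2 * h) = y / h := by field_simp; ring
        calc h * (x' ^ 2 + y ^ 2) ≤ h * (y / h) := by
              rw [← h7]; gcongr
          _ = y := by field_simp
      · rw [hIm]
        have h8 : y / (x' ^ 2 + y ^ 2) ≤ 1 / yl := by
          rw [div_le_div_iff₀ hpos hyl0]
          nlinarith [sq_nonneg x']
        exact h8.trans ((le_max_right _ _).trans (le_max_left _ _))
  have hBB : B' ≤ hcst N A * B' := by nlinarith
  obtain ⟨p, hp, hp1, hp2⟩ := hU.rep hM hz1 hz2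
  refine hp2.trans ?_
  rw [mul_assoc, ← hB']
  rcases le_or_gt h p.im with h9 | h9
  · exact (hhigh p h9 (hp1.trans (le_max_right _ _))).trans hBB
  · -- move far to the right, then invert
    obtain ⟨q1, q2, q3⟩ := hp
    have hpim : 1 / (2 * h) ≤ p.im := by
      have h4 : 1 ≤ ‖p‖ ^ 2 := by nlinarith
      rw [← Complex.normSq_eq_norm_sq, Complex.normSq_apply] at h4
      rw [abs_le] at q2
      have h5 : 1 / 2 ≤ p.im := by nlinarith
      refine le_trans ?_ h5
      rw [div_le_div_iff₀ (by positivity) (by norm_num)]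
      linarith
    set n : ℤ := ⌈2 * h - p.re⌉ with hn
    have hn1 : 2 * h - p.re ≤ n := Int.le_ceil _
    have hn2 : (n : ℝ) < 2 * h - p.re + 1 := Int.ceil_lt_add_one _
    set w : ℂ := p + n with hw
    have hwim : w.im = p.im := by rw [hw]; simp
    have hwre : w.re = p.re + n := by rw [hw]; simp
    have hw0 : 0 < w.im := by rw [hwim]; exact q1
    have e1 : U (-w⁻¹) = U p := (hU.inv w hw0).2.trans (hU.inv.shift_int n q1)
    have hns : Complex.normSq w = (p.re + n) ^ 2 + p.im ^ 2 := by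
      rw [Complex.normSq_apply, hwim, hwre]; ring
    have hIm : (-w⁻¹).im = p.im / ((p.re + n) ^ 2 + p.im ^ 2) := by
      rw [Complex.neg_im, Complex.inv_im, hwim, hns]; ring
    have hpos : 0 < (p.re + n) ^ 2 + p.im ^ 2 := by positivity
    rw [← e1, ← Complex.re_add_im (-w⁻¹)]
    apply hlow
    · rw [hIm, hyl]
      have h10 : (p.re + n) ^ 2 ≤ (2 * h + 1) ^ 2 := by
        have : 0 ≤ p.re + n := by linarith
        exact pow_le_pow_left₀ this (by linarith) 2
      gcongr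
    · rw [hIm, div_le_div_iff₀ hpos (by positivity)]
      have h10 : (2 * h) ^ 2 ≤ (p.re + n) ^ 2 := by
        gcongr
        linarith
      nlinarith [sq_nonneg p.im]

end Pool.Agent.Q30.HP
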