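import Pool.Agent.Q30.HP.Peaks

/-!
# The Hecke eigenvalue at two of a square integrable automorphic function is at most seven
-/

set_option autoImplicit false

open MeasureTheory UpperHalfPlane
open scoped MatrixGroups ENNReal

namespace Pool.Agent.Q30.HP

/-- real matrices of positive determinant -/
structure Quad where
  a : ℝ
  b : ℝ
  c : ℝ
  d : ℝ
  h : 0 < a * d - b * c

namespace Quad

/-- the matrix -/
noncomputable def gl (m : Quad) : GL (Fin 2) ℝ :=
  Matrix.GeneralLinearGroup.mkOfDetNeZero !![m.a, m.b; m.c, m.d]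
    (by rw [Matrix.det_fin_two_of]; exact m.h.ne')

lemma gl_val (m : Quad) : (m.gl : Matrix (Fin 2) (Fin 2) ℝ) = !![m.a, m.b; m.c, m.d] := rfl

lemma coe_smul (m : Quad) (τ : ℍ) : ((m.gl • τ : ℍ) : ℂ) = (m.a * τ + m.b) / (m.c * τ + m.d) := by
  rw [UpperHalfPlane.coe_smul_of_det_pos]
  · rfl
  · rw [Matrix.GeneralLinearGroup.val_det_apply, gl_val, Matrix.det_fin_two_of]
    exact m.h

/-- the common denominator of the coordinates -/
noncomputable def D (m : Quad) (x y : ℝ) : ℝ := (m.c * x + m.d) ^ 2 + (m.c * y) ^ 2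

lemma D_pos (m : Quad) (x : ℝ) {y : ℝ} (hy : 0 < y) : 0 < m.D x y := by
  unfold D
  rcases eq_or_ne m.c 0 with h | h
  · have hd : m.d ≠ 0 := by
      intro hd
      have := m.h
      rw [h, hd] at this
      simp at this
    rw [h]
    simp only [zero_mul, zero_add]
    positivity
  · have : 0 < (m.c * y) ^ 2 := by positivity
    nlinarith [sq_nonneg (m.c * x + m.d)]

lemma mem_fd (m : Quad) (τ : ℍ) (h1 : |(m.a * τ.re + m.b) * (m.c * τ.re + m.d) + m.a * m.c * τ.im ^ 2| ≤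
      m.D τ.re τ.im / 2)
    (h2 : m.D τ.re τ.im ≤ (m.a * τ.re + m.b) ^ 2 + (m.a * τ.im) ^ 2) :
    m.gl • τ ∈ ModularGroup.fd := by
  have hD := m.D_pos τ.re τ.im_pos
  have hn : Complex.normSq (m.c * (τ : ℂ) + m.d) = m.D τ.re τ.im := by
    rw [Complex.normSq_apply]
    simp [D]
    ring
  have hn2 : Complex.normSq (m.a * (τ : ℂ) + m.b) = (m.a * τ.re + m.b) ^ 2 + (m.a * τ.im) ^ 2 := by
    rw [Complex.normSq_apply]
    simp
    ring
  constructor
  · rw [coe_smul, Complex.normSq_div, hn, hn2, le_div_iff₀ hD, one_mul]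
    exact h2
  · have e : (m.gl • τ : ℍ).re = ((m.a * τ.re + m.b) * (m.c * τ.re + m.d) + m.a * m.c * τ.im ^ 2) / m.D τ.re τ.im := by
      have : (m.gl • τ : ℍ).re = ((m.gl • τ : ℍ) : ℂ).re := rfl
      rw [this, coe_smul, Complex.div_re, hn]
      simp
      ring
    rw [e, abs_div, abs_of_pos hD, div_le_iff₀ hD]
    linarith

end Quad

lemma measurableSet_fd : MeasurableSet ModularGroup.fd := ModularGroup.isClosed_fd.measurableSet

/-- the covering inequality -/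
lemma fam_gen {ι : Type} [Fintype ι] (F : ι → Quad) {φ χ : ℍ → ℝ≥0∞} (hφ : Measurable φ) {A : Set ℍ}
    (hA : MeasurableSet A)
    (h : ∀ τ ∈ A, ∃ i, (F i).gl • τ ∈ ModularGroup.fd ∧ φ ((F i).gl • τ) = χ τ) :
    ∫⁻ τ in A, χ τ ≤ Fintype.card ι * ∫⁻ τ in ModularGroup.fd, φ τ := by
  set ψ : ℍ → ℝ≥0∞ := ModularGroup.fd.indicator φ with hψ
  have hψm : Measurable ψ := hφ.indicator measurableSet_fd
  have h1 : ∫⁻ τ in A, χ τ ≤ ∫⁻ τ in A, ∑ i : ι, ψ ((F i).gl • τ) := by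
    apply setLIntegral_mono' hA
    intro τ hτ
    obtain ⟨i, hi, hi2⟩ := h τ hτ
    have : χ τ = ψ ((F i).gl • τ) := by
      rw [hψ, Set.indicator_of_mem hi, hi2]
    rw [this]
    exact Finset.single_le_sum (f := fun i => ψ ((F i).gl • τ)) (fun _ _ => zero_le) (Finset.mem_univ i)
  refine h1.trans ((lintegral_mono' Measure.restrict_le_self le_rfl).trans ?_)
  rw [lintegral_finsetSum]
  · have h2 : ∀ i : ι, ∫⁻ τ, ψ ((F i).gl • τ) = ∫⁻ τ in ModularGroup.fd, φ τ := by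
      intro i
      rw [(measurePreserving_smul (F i).gl (volume : Measure ℍ)).lintegral_comp hψm, hψ,
        lintegral_indicator measurableSet_fd]
    rw [Finset.sum_congr rfl fun i _ => h2 i, Finset.sum_const, Finset.card_univ, nsmul_eq_mul]
  · intro i _
    exact hψm.comp (measurable_const_smul _)

lemma fam {n : ℕ} (F : Fin n → Quad) {φ χ : ℍ → ℝ≥0∞} (hφ : Measurable φ)
    (h : ∀ τ ∈ ModularGroup.fd, ∃ i, (F i).gl • τ ∈ ModularGroup.fd ∧ φ ((F i).gl • τ) = χ τ) :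
    ∫⁻ τ in ModularGroup.fd, χ τ ≤ n * ∫⁻ τ in ModularGroup.fd, φ τ := by
  have := fam_gen F hφ measurableSet_fd h
  rwa [Fintype.card_fin] at this


lemma fd_coord {τ : ℍ} (h : τ ∈ ModularGroup.fd) : 1 ≤ τ.re ^ 2 + τ.im ^ 2 ∧ -(1 / 2) ≤ τ.re ∧ τ.re ≤ 1 / 2 := by
  have h1 := h.1
  have h2 := h.2
  rw [Complex.normSq_apply] at h1
  simp only [coe_re, coe_im] at h1
  rw [abs_le] at h2
  exact ⟨by nlinarith, h2.1, h2.2⟩

/-- the maps for `2 τ` -/
noncomputable def FA : Fin 3 → Quad :=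
  ![⟨2, 0, 0, 1, by norm_num⟩, ⟨2, -1, 0, 1, by norm_num⟩, ⟨2, 1, 0, 1, by norm_num⟩]

/-- the maps for `τ / 2` -/
noncomputable def FB : Fin 4 → Quad :=
  ![⟨1, 0, 0, 2, by norm_num⟩, ⟨0, -2, 1, 0, by norm_num⟩, ⟨-1, -2, 1, 0, by norm_num⟩,
    ⟨1, -2, 1, 0, by norm_num⟩]

/-- the maps for `(τ + 1) / 2` -/
noncomputable def FC : Fin 6 → Quad :=
  ![⟨1, 1, 0, 2, by norm_num⟩, ⟨0, -2, 1, 1, by norm_num⟩, ⟨1, -1, 1, 1, by norm_num⟩,
    ⟨1, -1, 0, 2, by norm_num⟩, ⟨0, -2, 1, -1, by norm_num⟩, ⟨-1, -1, 1, -1, by norm_num⟩]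

lemma Inv.sub_one {U : ℂ → ℂ} (h : Inv U) {z : ℂ} (hz : 0 < z.im) : U (z - 1) = U z := by
  have := (h (z - 1) (by simpa using hz)).1
  rw [sub_add_cancel] at this
  exact this.symm

lemma caseA {U : ℂ → ℂ} (hI : Inv U) (τ : ℍ) (hτ : τ ∈ ModularGroup.fd) :
    ∃ i, (FA i).gl • τ ∈ ModularGroup.fd ∧ U ↑((FA i).gl • τ) = U (2 * τ) := by
  obtain ⟨hN, hx1, hx2⟩ := fd_coord hτ
  have hy := τ.im_pos
  have hz2 : 0 < (2 * (τ : ℂ)).im := by simp [hy]
  by_cases h1 : |2 * τ.re| ≤ 1 / 2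
  · refine ⟨0, ?_, ?_⟩
    · apply Quad.mem_fd
      · simp only [FA, Quad.D, Matrix.cons_val_zero]
        rw [abs_le] at h1 ⊢
        constructor <;> nlinarith [h1.1, h1.2]
      · simp only [FA, Quad.D, Matrix.cons_val_zero]
        nlinarith
    · rw [Quad.coe_smul]
      congr 1
      simp [FA]
  · rcases le_or_gt 0 τ.re with h0 | h0
    · rw [abs_of_nonneg (by linarith)] at h1
      refine ⟨1, ?_, ?_⟩
      · apply Quad.mem_fd
        · simp only [FA, Quad.D, Matrix.cons_val_one, Matrix.cons_val_zero]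
          rw [abs_le]
          constructor <;> nlinarith
        · simp only [FA, Quad.D, Matrix.cons_val_one, Matrix.cons_val_zero]
          nlinarith
      · rw [Quad.coe_smul, ← hI.sub_one hz2]
        congr 1
        simp [FA]
        ring
    · rw [abs_of_nonpos (by linarith)] at h1
      refine ⟨2, ?_, ?_⟩
      · apply Quad.mem_fd
        · simp only [FA, Quad.D, Matrix.cons_val]
          rw [abs_le]
          constructor <;> nlinarith
        · simp only [FA, Quad.D, Matrix.cons_val]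
          nlinarith
      · rw [Quad.coe_smul, ← (hI _ hz2).1]
        congr 1
        simp [FA]

lemma caseB {U : ℂ → ℂ} (hI : Inv U) (τ : ℍ) (hτ : τ ∈ ModularGroup.fd) :
    ∃ i, (FB i).gl • τ ∈ ModularGroup.fd ∧ U ↑((FB i).gl • τ) = U (τ / 2) := by
  obtain ⟨hN, hx1, hx2⟩ := fd_coord hτ
  have hy := τ.im_pos
  have hz0 : (τ : ℂ) ≠ 0 := τ.ne_zero
  have hz2 : 0 < ((τ : ℂ) / 2).im := by simp [hy]
  have hinv : U (-((τ : ℂ) / 2)⁻¹) = U (τ / 2) := (hI _ hz2).2
  have him : 0 < (-((τ : ℂ) / 2)⁻¹).im := by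
    rw [Complex.neg_im, Complex.inv_im, neg_div, neg_neg]
    exact div_pos hz2 (Complex.normSq_pos.2 (by simp [hz0]))
  set x := τ.re with hx
  set y := τ.im with hy'
  by_cases h1 : 4 ≤ x ^ 2 + y ^ 2
  · refine ⟨0, ?_, ?_⟩
    · apply Quad.mem_fd
      · simp only [FB, Quad.D, Matrix.cons_val, ← hx, ← hy']
        rw [abs_le]
        constructor <;> nlinarith
      · simp only [FB, Quad.D, Matrix.cons_val, ← hx, ← hy']
        nlinarith
    · rw [Quad.coe_smul]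
      congr 1
      simp [FB]
  push Not at h1
  by_cases h2 : |2 * x| ≤ (x ^ 2 + y ^ 2) / 2
  · rw [abs_le] at h2
    refine ⟨1, ?_, ?_⟩
    · apply Quad.mem_fd
      · simp only [FB, Quad.D, Matrix.cons_val, ← hx, ← hy']
        rw [abs_le]
        constructor <;> nlinarith
      · simp only [FB, Quad.D, Matrix.cons_val, ← hx, ← hy']
        nlinarith
    · rw [Quad.coe_smul, ← hinv]
      congr 1
      simp [FB]
      field_simp
  · rcases le_or_gt 0 x with h0 | h0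
    · rw [abs_of_nonneg (by linarith)] at h2
      refine ⟨3, ?_, ?_⟩
      · apply Quad.mem_fd
        · simp only [FB, Quad.D, Matrix.cons_val, ← hx, ← hy']
          rw [abs_le]
          constructor <;> nlinarith
        · simp only [FB, Quad.D, Matrix.cons_val, ← hx, ← hy']
          nlinarith
      · rw [Quad.coe_smul, ← hinv, ← (hI _ him).1]
        congr 1
        simp [FB]
        field_simp
        ring
    · rw [abs_of_nonpos (by linarith)] at h2
      refine ⟨2, ?_, ?_⟩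
      · apply Quad.mem_fd
        · simp only [FB, Quad.D, Matrix.cons_val, ← hx, ← hy']
          rw [abs_le]
          constructor <;> nlinarith
        · simp only [FB, Quad.D, Matrix.cons_val, ← hx, ← hy']
          nlinarith
      · rw [Quad.coe_smul, ← hinv, ← hI.sub_one him]
        congr 1
        simp [FB]
        field_simp
        ring

lemma caseC {U : ℂ → ℂ} (hI : Inv U) (τ : ℍ) (hτ : τ ∈ ModularGroup.fd) :
    ∃ i, (FC i).gl • τ ∈ ModularGroup.fd ∧ U ↑((FC i).gl • τ) = U ((τ + 1) / 2) := by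
  obtain ⟨hN, hx1, hx2⟩ := fd_coord hτ
  have hy := τ.im_pos
  have hz2 : 0 < (((τ : ℂ) + 1) / 2).im := by simp [hy]
  have hz3 : 0 < (((τ : ℂ) - 1) / 2).im := by simp [hy]
  have hz0 : (τ : ℂ) + 1 ≠ 0 := by
    intro h; rw [h] at hz2; simp at hz2
  have hz1 : (τ : ℂ) - 1 ≠ 0 := by
    intro h; rw [h] at hz3; simp at hz3
  have hz1' : (τ : ℂ) + -1 ≠ 0 := by rw [← sub_eq_add_neg]; exact hz1
  have hsh : U (((τ : ℂ) - 1) / 2) = U ((τ + 1) / 2) := by
    rw [← (hI _ hz3).1]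
    congr 1
    ring
  have hinv : U (-(((τ : ℂ) + 1) / 2)⁻¹) = U ((τ + 1) / 2) := (hI _ hz2).2
  have hinv2 : U (-(((τ : ℂ) - 1) / 2)⁻¹) = U ((τ + 1) / 2) := (hI _ hz3).2.trans hsh
  have him : 0 < (-(((τ : ℂ) + 1) / 2)⁻¹).im := by
    rw [Complex.neg_im, Complex.inv_im, neg_div, neg_neg]
    exact div_pos hz2 (Complex.normSq_pos.2 (by simp [hz0]))
  have him2 : 0 < (-(((τ : ℂ) - 1) / 2)⁻¹).im := by
    rw [Complex.neg_im, Complex.inv_im, neg_div, neg_neg]
    exact div_pos hz3 (Complex.normSq_pos.2 (by simp [hz1]))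
  set x := τ.re with hx
  set y := τ.im with hy'
  rcases le_or_gt x 0 with h0 | h0
  · by_cases h1 : 4 ≤ (x + 1) ^ 2 + y ^ 2
    · refine ⟨0, ?_, ?_⟩
      · apply Quad.mem_fd
        · simp only [FC, Quad.D, Matrix.cons_val, ← hx, ← hy']
          rw [abs_le]
          constructor <;> nlinarith
        · simp only [FC, Quad.D, Matrix.cons_val, ← hx, ← hy']
          nlinarith
      · rw [Quad.coe_smul]
        congr 1
        simp [FC]
    push Not at h1
    by_cases h2 : 2 * (x + 1) ≤ ((x + 1) ^ 2 + y ^ 2) / 2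
    · refine ⟨1, ?_, ?_⟩
      · apply Quad.mem_fd
        · simp only [FC, Quad.D, Matrix.cons_val, ← hx, ← hy']
          rw [abs_le]
          constructor <;> nlinarith
        · simp only [FC, Quad.D, Matrix.cons_val, ← hx, ← hy']
          nlinarith
      · rw [Quad.coe_smul, ← hinv]
        congr 1
        simp [FC]
        field_simp
    · push Not at h2
      refine ⟨2, ?_, ?_⟩
      · apply Quad.mem_fd
        · simp only [FC, Quad.D, Matrix.cons_val, ← hx, ← hy']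
          rw [abs_le]
          constructor <;> nlinarith
        · simp only [FC, Quad.D, Matrix.cons_val, ← hx, ← hy']
          nlinarith
      · rw [Quad.coe_smul, ← hinv, ← (hI _ him).1]
        congr 1
        simp [FC]
        field_simp
        ring
  · by_cases h1 : 4 ≤ (x - 1) ^ 2 + y ^ 2
    · refine ⟨3, ?_, ?_⟩
      · apply Quad.mem_fd
        · simp only [FC, Quad.D, Matrix.cons_val, ← hx, ← hy']
          rw [abs_le]
          constructor <;> nlinarith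
        · simp only [FC, Quad.D, Matrix.cons_val, ← hx, ← hy']
          nlinarith
      · rw [Quad.coe_smul, ← hsh]
        congr 1
        simp [FC]
        ring
    push Not at h1
    by_cases h2 : 2 * (1 - x) ≤ ((x - 1) ^ 2 + y ^ 2) / 2
    · refine ⟨4, ?_, ?_⟩
      · apply Quad.mem_fd
        · simp only [FC, Quad.D, Matrix.cons_val, ← hx, ← hy']
          rw [abs_le]
          constructor <;> nlinarith
        · simp only [FC, Quad.D, Matrix.cons_val, ← hx, ← hy']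
          nlinarith
      · rw [Quad.coe_smul, ← hinv2]
        congr 1
        simp [FC]
        field_simp
        ring
    · push Not at h2
      refine ⟨5, ?_, ?_⟩
      · apply Quad.mem_fd
        · simp only [FC, Quad.D, Matrix.cons_val, ← hx, ← hy']
          rw [abs_le]
          constructor <;> nlinarith
        · simp only [FC, Quad.D, Matrix.cons_val, ← hx, ← hy']
          nlinarith
      · rw [Quad.coe_smul, ← hinv2, ← hI.sub_one him2]
        congr 1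
        simp [FC]
        field_simp
        ring

/-- **The bound for the Hecke eigenvalue.** -/
theorem eigen_le {U : ℂ → ℂ} {c : ℂ} (hI : Inv U) (hH : HeckeTwo U c) (hcont : ContinuousOn U {z : ℂ | 0 < z.im})
    (h0 : ∫⁻ τ in ModularGroup.fd, ‖U τ‖ₑ ^ 2 ≠ 0) (h1 : ∫⁻ τ in ModularGroup.fd, ‖U τ‖ₑ ^ 2 ≠ ⊤) :
    ‖c‖ ≤ 7 := by
  have hm : Measurable fun τ : ℍ => U τ :=
    (hcont.comp_continuous (by fun_prop) fun τ : ℍ => τ.im_pos).measurable
  have hmA : Measurable fun τ : ℍ => U (2 * τ) :=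
    (hcont.comp_continuous (by fun_prop) fun τ : ℍ => (by
      show 0 < (2 * (τ : ℂ)).im
      simp [τ.im_pos])).measurable
  have hmB : Measurable fun τ : ℍ => U (τ / 2) :=
    (hcont.comp_continuous (by fun_prop) fun τ : ℍ => (by
      show 0 < ((τ : ℂ) / 2).im
      simp [τ.im_pos])).measurable
  have hφ : Measurable fun τ : ℍ => ‖U τ‖ₑ ^ 2 := hm.enorm.pow_const 2
  set I := ∫⁻ τ in ModularGroup.fd, ‖U τ‖ₑ ^ 2 with hIdef
  have hA := fam FA (χ := fun τ : ℍ => ‖U (2 * τ)‖ₑ ^ 2) hφ (fun τ hτ => by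
    obtain ⟨i, hi, hi2⟩ := caseA hI τ hτ
    exact ⟨i, hi, by rw [hi2]⟩)
  have hB := fam FB (χ := fun τ : ℍ => ‖U (τ / 2)‖ₑ ^ 2) hφ (fun τ hτ => by
    obtain ⟨i, hi, hi2⟩ := caseB hI τ hτ
    exact ⟨i, hi, by rw [hi2]⟩)
  have hC := fam FC (χ := fun τ : ℍ => ‖U ((τ + 1) / 2)‖ₑ ^ 2) hφ (fun τ hτ => by
    obtain ⟨i, hi, hi2⟩ := caseC hI τ hτ
    exact ⟨i, hi, by rw [hi2]⟩)
  rw [← hIdef] at hA hB hC
  -- the pointwise inequality
  have hpt : ∀ τ : ℍ, ‖c‖ₑ ^ 2 * ‖U τ‖ₑ ^ 2 ≤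
      3 * (‖U (2 * τ)‖ₑ ^ 2 + ‖U (τ / 2)‖ₑ ^ 2 + ‖U ((τ + 1) / 2)‖ₑ ^ 2) := by
    intro τ
    have h := hH.hecke τ τ.im_pos
    have h2 : ‖c‖ ^ 2 * ‖U τ‖ ^ 2 ≤
        3 * (‖U (2 * τ)‖ ^ 2 + ‖U (τ / 2)‖ ^ 2 + ‖U ((τ + 1) / 2)‖ ^ 2) := by
      rw [← mul_pow, ← norm_mul, ← h]
      have h3 := norm_add₃_le (a := U (2 * (τ : ℂ))) (b := U (τ / 2)) (c := U ((τ + 1) / 2))
      have h4 : ‖U (2 * (τ : ℂ)) + U (τ / 2) + U ((τ + 1) / 2)‖ ^ 2 ≤
          (‖U (2 * (τ : ℂ))‖ + ‖U (τ / 2)‖ + ‖U ((τ + 1) / 2)‖) ^ 2 := by gcongr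
      nlinarith [sq_nonneg (‖U (2 * (τ : ℂ))‖ - ‖U (τ / 2)‖), sq_nonneg (‖U (2 * (τ : ℂ))‖ - ‖U ((τ + 1) / 2)‖),
        sq_nonneg (‖U (τ / 2)‖ - ‖U ((τ + 1) / 2)‖)]
    have h3 := ENNReal.ofReal_le_ofReal h2
    rw [ENNReal.ofReal_mul (by positivity), ENNReal.ofReal_mul (by norm_num), ENNReal.ofReal_add (by positivity)
      (by positivity), ENNReal.ofReal_add (by positivity) (by positivity)] at h3
    simp only [ENNReal.ofReal_pow (norm_nonneg _), ofReal_norm] at h3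
    have e3 : ENNReal.ofReal 3 = 3 := by norm_num
    rw [e3] at h3
    exact h3
  have hsum : ‖c‖ₑ ^ 2 * I ≤ 39 * I := by
    calc ‖c‖ₑ ^ 2 * I = ∫⁻ τ in ModularGroup.fd, ‖c‖ₑ ^ 2 * ‖U τ‖ₑ ^ 2 := by
          rw [lintegral_const_mul _ hφ]
      _ ≤ ∫⁻ τ in ModularGroup.fd, 3 * (‖U (2 * τ)‖ₑ ^ 2 + ‖U (τ / 2)‖ₑ ^ 2 + ‖U ((τ + 1) / 2)‖ₑ ^ 2) :=
          lintegral_mono fun τ => hpt τ
      _ = 3 * (∫⁻ τ in ModularGroup.fd, ‖U (2 * τ)‖ₑ ^ 2 + ‖U (τ / 2)‖ₑ ^ 2 + ‖U ((τ + 1) / 2)‖ₑ ^ 2) := by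
          rw [lintegral_const_mul' _ _ (by norm_num)]
      _ ≤ 3 * (3 * I + 4 * I + 6 * I) := by
          gcongr
          have hAB : Measurable fun τ : ℍ => ‖U (2 * τ)‖ₑ ^ 2 + ‖U (τ / 2)‖ₑ ^ 2 :=
            (hmA.enorm.pow_const 2).add (hmB.enorm.pow_const 2)
          rw [lintegral_add_left hAB, lintegral_add_left (hmA.enorm.pow_const 2)]
          refine add_le_add (add_le_add ?_ ?_) ?_
          · exact_mod_cast hA
          · exact_mod_cast hB
          · exact_mod_cast hC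
      _ = 39 * I := by ring
  have h2 : ‖c‖ₑ ^ 2 ≤ 39 := by
    by_contra hlt
    push Not at hlt
    have := ENNReal.mul_lt_mul_left h0 h1 hlt
    exact absurd (lt_of_lt_of_le this hsum) (lt_irrefl _)
  have h3 : ‖c‖ ^ 2 ≤ 39 := by
    rw [← ofReal_norm, ← ENNReal.ofReal_pow (norm_nonneg _)] at h2
    have e : (39 : ℝ≥0∞) = ENNReal.ofReal 39 := by norm_num
    rw [e] at h2
    exact (ENNReal.ofReal_le_ofReal_iff (by norm_num)).1 h2
  nlinarith [norm_nonneg c]

end Pool.Agent.Q30.HP
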