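import Pool.Agent.Q30.HP.Par

/-!
# Few integral matrices of determinant a power of two carry a point into a small disc
-/

set_option autoImplicit false

open Finset

namespace Pool.Agent.Q30.HP

lemma im_key {a b c d : ℤ} {z z' : ℂ} (hm : z' * (c * z + d) = a * z + b) :
    z'.im * ‖(c : ℂ) * z + d‖ ^ 2 = ((a * d - b * c : ℤ) : ℝ) * z.im := by
  have hDre : ((c : ℂ) * z + d).re = c * z.re + d := by simp
  have hDim : ((c : ℂ) * z + d).im = c * z.im := by simp
  have hDn : ‖(c : ℂ) * z + d‖ ^ 2 = (c * z.re + d) ^ 2 + (c * z.im) ^ 2 := by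
    rw [← Complex.normSq_eq_norm_sq, Complex.normSq_apply, hDre, hDim]; ring
  have hre := congrArg Complex.re hm
  have him := congrArg Complex.im hm
  rw [Complex.mul_re, hDre, hDim] at hre
  rw [Complex.mul_im, hDre, hDim] at him
  simp only [Complex.add_re, Complex.mul_re, Complex.intCast_re, Complex.intCast_im, zero_mul, sub_zero,
    Complex.add_im, Complex.mul_im, add_zero] at hre him
  rw [hDn]; push_cast
  linear_combination (c * z.re + d) * him - c * z.im * hre

lemma denom_ne {c d : ℤ} {z : ℂ} (hz : 0 < z.im) (h : ¬ (c = 0 ∧ d = 0)) : (c : ℂ) * z + d ≠ 0 := by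
  intro h0
  have him := congrArg Complex.im h0
  have hre := congrArg Complex.re h0
  simp at him hre
  rcases him with h1 | h1
  · apply h
    refine ⟨h1, ?_⟩
    rw [h1] at hre
    simpa using hre
  · linarith

lemma inv_ratio {a b c d : ℤ} (hn : 0 < a * d - b * c) {w t w' t' : ℂ} (hw : 0 < w.im) (ht : 0 < t.im)
    (h1 : w' * (c * w + d) = a * w + b) (h2 : t' * (c * t + d) = a * t + b) :
    ‖w' - t'‖ ^ 2 * (w.im * t.im) = ‖w - t‖ ^ 2 * (w'.im * t'.im) := by
  have hcd : ¬ (c = 0 ∧ d = 0) := by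
    rintro ⟨rfl, rfl⟩
    simp at hn
  have d1 := denom_ne hw hcd
  have d2 := denom_ne ht hcd
  set D1 : ℂ := c * w + d with hD1
  set D2 : ℂ := c * t + d with hD2
  have k1 := im_key h1
  have k2 := im_key h2
  rw [← hD1] at k1
  rw [← hD2] at k2
  set n : ℝ := ((a * d - b * c : ℤ) : ℝ) with hnd
  have k3 : (w' - t') * (D1 * D2) = (n : ℂ) * (w - t) := by
    have : (w' - t') * (D1 * D2) = (w' * D1) * D2 - (t' * D2) * D1 := by ring
    rw [this, h1, h2, hD1, hD2, hnd]
    push_cast; ring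
  have k4 : ‖w' - t'‖ ^ 2 * (‖D1‖ ^ 2 * ‖D2‖ ^ 2) = n ^ 2 * ‖w - t‖ ^ 2 := by
    have := congrArg (fun x => ‖x‖ ^ 2) k3
    simp only [norm_mul, mul_pow, Complex.norm_real, Real.norm_eq_abs, sq_abs] at this
    exact this
  have p1 : 0 < ‖D1‖ ^ 2 := by positivity
  have p2 : 0 < ‖D2‖ ^ 2 := by positivity
  have : (‖w' - t'‖ ^ 2 * (w.im * t.im)) * (‖D1‖ ^ 2 * ‖D2‖ ^ 2) =
      (‖w - t‖ ^ 2 * (w'.im * t'.im)) * (‖D1‖ ^ 2 * ‖D2‖ ^ 2) := by
    linear_combination (w.im * t.im) * k4 - ‖w - t‖ ^ 2 * (w'.im * ‖D1‖ ^ 2) * k2 -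
      ‖w - t‖ ^ 2 * (n * t.im) * k1
  exact mul_right_cancel₀ (by positivity) this

/-- the cluster bound -/
theorem cluster {ι : Type*} (k : ι → ℕ) (A B C D : ι → ℤ) (Z : ι → ℂ) (z : ℂ) (hz : 0 < z.im)
    (J : ℕ) (S : Finset ι) (hk : ∀ v ∈ S, k v ≤ 2 * J)
    (hdet : ∀ v ∈ S, A v * D v - B v * C v = 2 ^ k v)
    (hmob : ∀ v ∈ S, Z v * (C v * z + D v) = A v * z + B v)
    (hZ : ∀ v ∈ S, 3 / 4 ≤ (Z v).im)
    (hinj : ∀ v ∈ S, ∀ v' ∈ S, A v = A v' → B v = B v' → C v = C v' → D v = D v' → v = v')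
    {M ε : ℝ} (hM : 1 ≤ M) (hy : 1 / M ≤ z.im) (hy2 : z.im ≤ M) (hx : |z.re| ≤ M) (hε0 : 0 ≤ ε)
    (hε : 16 * M ^ 3 * (4 ^ J * (4 ^ J * ε)) ≤ 1)
    (i : ι) (hi : i ∈ S) (A' : Finset ι) (hA' : A' ⊆ S) (hnear : ∀ j ∈ A', ‖Z i - Z j‖ < ε / 2) :
    A'.card ≤ 256 * (J + 1) ^ 2 := by
  classical
  set R : ℝ := 4 ^ J with hR
  have hR1 : 1 ≤ R := one_le_pow₀ (by norm_num)
  have hM3 : 1 ≤ M ^ 3 := one_le_pow₀ hM
  have hεh : ε ≤ 1 / 2 := by
    have h1 : ε ≤ R * ε := by nlinarith
    have h2 : R * ε ≤ R * (R * ε) := by nlinarith [mul_nonneg (by linarith : (0:ℝ) ≤ R) hε0]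
    have h3 : R * (R * ε) ≤ M ^ 3 * (R * (R * ε)) := by
      have : 0 ≤ R * (R * ε) := by positivity
      nlinarith
    nlinarith
  -- the entries of `h`
  set ha : ι → ℤ := fun j => D j * A i - B j * C i with hha
  set hb : ι → ℤ := fun j => D j * B i - B j * D i with hhb
  set hc : ι → ℤ := fun j => A j * C i - C j * A i with hhc
  set hd : ι → ℤ := fun j => A j * D i - C j * B i with hhd
  have hdeth : ∀ j ∈ A', ha j * hd j - hb j * hc j = 2 ^ (k i + k j) := by
    intro j hj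
    have h1 := hdet i hi
    have h2 := hdet j (hA' hj)
    rw [hha, hhb, hhc, hhd, pow_add, ← h1, ← h2]; ring
  have hnr : ∀ j ∈ A', Near z.re z.im R (ε * R) (hc j) (hd j - ha j) (-(hb j)) := by
    intro j hj
    have hjS := hA' hj
    have hdetj := hdet j hjS
    have hdeti := hdet i hi
    have pj : (0 : ℤ) < 2 ^ k j := by positivity
    have pi' : (0 : ℤ) < 2 ^ k i := by positivity
    have hZi : 0 < (Z i).im := by linarith [hZ i hi]
    have hZj : 0 < (Z j).im := by linarith [hZ j hjS]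
    have hden : ((-C j : ℤ) : ℂ) * Z i + (A j : ℤ) ≠ 0 := by
      apply denom_ne hZi
      rintro ⟨h1, h2⟩
      have : C j = 0 := by omega
      rw [h2, this] at hdetj
      simp at hdetj
      linarith
    set z' : ℂ := (D j * Z i + (-B j : ℤ)) / (((-C j : ℤ) : ℂ) * Z i + (A j : ℤ)) with hz'
    have hm1 : z' * (((-C j : ℤ) : ℂ) * Z i + (A j : ℤ)) = D j * Z i + (-B j : ℤ) := by
      rw [hz', div_mul_cancel₀ _ hden]
    have him1 := im_key hm1
    have e1 : D j * A j - -B j * -C j = 2 ^ k j := by rw [← hdetj]; ring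
    rw [e1] at him1
    have hz'pos : 0 < z'.im := by
      have h1 : 0 < ‖((-C j : ℤ) : ℂ) * Z i + (A j : ℤ)‖ ^ 2 := by positivity
      by_contra hcon
      push Not at hcon
      have h2 := mul_nonpos_of_nonpos_of_nonneg hcon h1.le
      rw [him1] at h2
      have h3 : (0 : ℝ) < ((2 ^ k j : ℤ) : ℝ) * (Z i).im := by
        apply mul_pos _ hZi
        exact_mod_cast pj
      linarith
    -- `m_j z' = Z i`
    have hdetC : ((A j : ℂ) * D j - B j * C j) = 2 ^ k j := by exact_mod_cast congrArg (Int.cast : ℤ → ℂ) hdetj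
    have hm2 : Z i * (C j * z' + D j) = A j * z' + B j := by
      push_cast at hm1
      linear_combination -hm1
    have hrat := inv_ratio (by rw [hdetj]; exact pj) hz'pos hz hm2 (hmob j hjS)
    have hdist : ‖z' - z‖ ^ 2 ≤ ε ^ 2 * (z.im * z'.im) := by
      have h1 : ‖Z i - Z j‖ ^ 2 ≤ (ε / 2) ^ 2 := by
        have := (hnear j hj).le
        gcongr
      have h2 : (3 / 4) * (3 / 4) ≤ (Z i).im * (Z j).im := by
        apply mul_le_mul (hZ i hi) (hZ j hjS) (by norm_num) hZi.le
      have hzz : 0 < z.im * z'.im := mul_pos hz hz'pos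
      have h3 : ‖z' - z‖ ^ 2 * (9 / 16) ≤ ε ^ 2 / 4 * (z.im * z'.im) := by
        calc ‖z' - z‖ ^ 2 * (9 / 16) ≤ ‖z' - z‖ ^ 2 * ((Z i).im * (Z j).im) := by
              apply mul_le_mul_of_nonneg_left _ (sq_nonneg _)
              linarith
          _ = ‖Z i - Z j‖ ^ 2 * (z'.im * z.im) := hrat.symm
          _ ≤ (ε / 2) ^ 2 * (z'.im * z.im) := by gcongr
          _ = _ := by ring
      have h4 : 0 ≤ ε ^ 2 * (z.im * z'.im) := by positivity
      nlinarith
    apply Near.of_mobius (by linarith) _ _ hz hz'pos _ hε0 hεh hdist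
    · rw [hdeth j hj]; positivity
    · rw [hdeth j hj, hR]
      push_cast
      calc (2 : ℝ) ^ (k i + k j) ≤ 2 ^ (2 * J + 2 * J) := by
            apply pow_le_pow_right₀ (by norm_num)
            have := hk i hi
            have := hk j hjS
            omega
        _ = (4 ^ J) ^ 2 := by
            rw [← pow_mul, show (4 : ℝ) = 2 ^ 2 by norm_num, ← pow_mul]
            congr 1
            ring
    · -- `h z = z'`
      have hci : (C i : ℂ) * z + D i ≠ 0 := by
        apply denom_ne hz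
        rintro ⟨h1, h2⟩
        rw [h1, h2] at hdeti
        simp at hdeti
        linarith
      have hmi := hmob i hi
      have e2 : ((hc j : ℤ) : ℂ) * z + hd j = (((-C j : ℤ) : ℂ) * Z i + (A j : ℤ)) * (C i * z + D i) := by
        rw [hhc, hhd]; push_cast
        linear_combination (C j : ℂ) * hmi
      have e3 : ((ha j : ℤ) : ℂ) * z + hb j = (D j * Z i + (-B j : ℤ)) * (C i * z + D i) := by
        rw [hha, hhb]; push_cast
        linear_combination -(D j : ℂ) * hmi
      rw [e2, e3, ← mul_assoc, hm1]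
  -- a common direction
  have hsize : 16 * R * M ^ 3 * (ε * R) ≤ 1 := by
    calc 16 * R * M ^ 3 * (ε * R) = 16 * M ^ 3 * (R * (R * ε)) := by ring
      _ ≤ 1 := hε
  have hη : 0 ≤ ε * R := by positivity
  obtain ⟨c0, e0, f0, hN, hdir⟩ : ∃ c0 e0 f0 : ℤ, 1 ≤ 4 * c0 * f0 - e0 ^ 2 ∧ ∀ j ∈ A', ∃ t : ℤ,
      hc j = t * c0 ∧ hd j - ha j = t * e0 ∧ -(hb j) = t * f0 := by
    by_cases hall : ∀ j ∈ A', hc j = 0
    · refine ⟨1, 0, 1, by norm_num, fun j hj => ⟨0, ?_⟩⟩
      have h1 := hnr j hj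
      rw [hall j hj] at h1
      obtain ⟨h2, h3⟩ := h1.zero hM hR1 hη hy2 hx hsize
      rw [hall j hj, h2, h3]; simp
    · push Not at hall
      obtain ⟨j0, hj0, hcj0⟩ := hall
      have hpos := (hnr j0 hj0).disc hcj0 hM hR1 hη hy hy2 hx hsize
      obtain ⟨c0, e0, f0, h1, h2⟩ := common_direction hcj0 hpos
      refine ⟨c0, e0, f0, h1, fun j hj => ?_⟩
      obtain ⟨p1, p2⟩ := (hnr j0 hj0).par (hnr j hj) hM hR1 hη hy hy2 hx hsize
      exact h2 _ _ _ p1 p2
  choose! y hy' using hdir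
  set N := 4 * c0 * f0 - e0 ^ 2 with hNdef
  -- the counting map
  have hcard : A'.card ≤ ((range (2 * J + 1)).sigma (fun m => sol N (k i + m + 2))).card := by
    apply card_le_card_of_injOn (fun j => (⟨k j, (ha j + hd j, y j)⟩ : Σ _ : ℕ, ℤ × ℤ))
    · intro j hj
      rw [mem_coe] at hj
      rw [mem_coe, mem_sigma]
      have hkj := hk j (hA' hj)
      refine ⟨mem_range.2 (show k j < 2 * J + 1 by omega), ?_⟩
      rw [mem_sol hN]
      simp only
      obtain ⟨h1, h2, h3⟩ := hy' j hj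
      have h4 := hdeth j hj
      have h5 : (2 : ℤ) ^ (k i + k j + 2) = 4 * 2 ^ (k i + k j) := by ring
      rw [h5, ← h4, hNdef]
      linear_combination (-(4 * f0 * y j)) * h1 + (y j * e0 + (hd j - ha j)) * h2 - 4 * hc j * h3
    · intro j hj j' hj' he
      rw [mem_coe] at hj hj'
      simp only [Sigma.mk.injEq, heq_eq_eq, Prod.mk.injEq] at he
      obtain ⟨he1, he2, he3⟩ := he
      obtain ⟨h1, h2, h3⟩ := hy' j hj
      obtain ⟨h1', h2', h3'⟩ := hy' j' hj'
      rw [← he3] at h1' h2' h3'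
      have q1 : hc j = hc j' := by rw [h1, h1']
      have q2 : hb j = hb j' := by linarith
      have q3 : hd j = hd j' := by linarith
      have q4 : ha j = ha j' := by linarith
      have hdeti := hdet i hi
      have pi' : (A i * D i - B i * C i) ≠ 0 := by rw [hdeti]; positivity
      have q1' : A j * C i - C j * A i = A j' * C i - C j' * A i := q1
      have q2' : D j * B i - B j * D i = D j' * B i - B j' * D i := q2
      have q3' : A j * D i - C j * B i = A j' * D i - C j' * B i := q3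
      have q4' : D j * A i - B j * C i = D j' * A i - B j' * C i := q4
      apply hinj j (hA' hj) j' (hA' hj')
      · apply mul_right_cancel₀ pi'
        linear_combination A i * q3' - B i * q1'
      · apply mul_right_cancel₀ pi'
        linear_combination B i * q4' - A i * q2'
      · apply mul_right_cancel₀ pi'
        linear_combination C i * q3' - D i * q1'
      · apply mul_right_cancel₀ pi'
        linear_combination D i * q4' - C i * q2'
  refine hcard.trans ?_
  rw [card_sigma]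
  calc ∑ m ∈ range (2 * J + 1), (sol N (k i + m + 2)).card
      ≤ ∑ m ∈ range (2 * J + 1), 32 * (4 * J + 3) := by
        apply sum_le_sum
        intro m hm
        refine (sol_card hN _).trans ?_
        have := mem_range.1 hm
        have := hk i hi
        apply Nat.mul_le_mul_left
        omega
    _ = (2 * J + 1) * (32 * (4 * J + 3)) := by rw [sum_const, card_range, smul_eq_mul]
    _ ≤ (2 * (J + 1)) * (32 * (4 * (J + 1))) := by
        apply Nat.mul_le_mul (by omega)
        apply Nat.mul_le_mul_left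
        omega
    _ = 256 * (J + 1) ^ 2 := by ring

end Pool.Agent.Q30.HP
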