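import Mathlib

/-!
# The cyclotomic polynomial is a combination of the polynomials `(X ^ N - 1) / (X ^ (N / p) - 1)`
-/

set_option autoImplicit false

open Polynomial Finset

namespace Pool.Agent.Q30.HP

/-- `∑_{b < p} X ^ ((N / p) b)` -/
noncomputable def psi (N p : ℕ) : ℚ[X] := ∑ b ∈ range p, (X ^ (N / p)) ^ b

lemma psi_mul {N p : ℕ} (hp : p ∣ N) : psi N p * (X ^ (N / p) - 1) = X ^ N - 1 := by
  unfold psi
  rw [geom_sum_mul, ← pow_mul, Nat.div_mul_cancel hp]

lemma cyc_mem {N : ℕ} (hN : 2 ≤ N) :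
    ∃ A : ℕ → ℚ[X], cyclotomic N ℚ = ∑ p ∈ N.primeFactors, A p * psi N p := by
  have hN0 : 0 < N := by omega
  set I : Ideal ℚ[X] := Ideal.span (psi N '' (N.primeFactors : Set ℕ)) with hI
  obtain ⟨D, hD⟩ : ∃ D, I = Ideal.span {D} := by
    obtain ⟨D, hD⟩ := (IsPrincipalIdealRing.principal I).principal
    exact ⟨D, hD⟩
  have hDp : ∀ p ∈ N.primeFactors, D ∣ psi N p := by
    intro p hp
    rw [← Ideal.mem_span_singleton, ← hD]
    exact Ideal.subset_span ⟨p, hp, rfl⟩
  have hsq : Squarefree (X ^ N - 1 : ℚ[X]) := by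
    apply Separable.squarefree
    rw [X_pow_sub_one_separable_iff]
    exact_mod_cast hN0.ne'
  have hcop : ∀ d ∈ N.properDivisors, IsCoprime D (cyclotomic d ℚ) := by
    intro d hd
    rw [Nat.mem_properDivisors] at hd
    have hd0 : 0 < d := Nat.pos_of_dvd_of_pos hd.1 hN0
    have hirr := cyclotomic.irreducible_rat hd0
    rw [isCoprime_comm, hirr.coprime_iff_not_dvd]
    intro hdvd
    obtain ⟨e, he⟩ := hd.1
    have he1 : e ≠ 1 := by rintro rfl; omega
    obtain ⟨p, hp, hpe⟩ := Nat.exists_prime_and_dvd he1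
    have hpN : p ∣ N := he ▸ (hpe.mul_left d)
    have hpm : p ∈ N.primeFactors := Nat.mem_primeFactors.2 ⟨hp, hpN, hN0.ne'⟩
    have hdp : d ∣ N / p := by
      obtain ⟨e', he'⟩ := hpe
      refine ⟨e', ?_⟩
      rw [he, he']
      rw [Nat.div_eq_iff_eq_mul_left hp.pos (Dvd.intro_left (d * e') (by ring))]
      ring
    have h1 : cyclotomic d ℚ ∣ X ^ (N / p) - 1 :=
      (cyclotomic.dvd_X_pow_sub_one d ℚ).trans (by
        obtain ⟨f, hf⟩ := hdp
        rw [hf, pow_mul]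
        have := sub_dvd_pow_sub_pow ((X : ℚ[X]) ^ d) 1 f
        rwa [one_pow] at this)
    have h2 : cyclotomic d ℚ ∣ psi N p := hdvd.trans (hDp p hpm)
    have h3 : cyclotomic d ℚ * cyclotomic d ℚ ∣ X ^ N - 1 := by
      rw [← psi_mul hpN]
      exact mul_dvd_mul h2 h1
    exact hirr.not_isUnit (hsq _ h3)
  obtain ⟨p, hp, hpN⟩ := Nat.exists_prime_and_dvd (show N ≠ 1 by omega)
  have hpm : p ∈ N.primeFactors := Nat.mem_primeFactors.2 ⟨hp, hpN, hN0.ne'⟩
  have hDN : D ∣ cyclotomic N ℚ * ∏ d ∈ N.properDivisors, cyclotomic d ℚ := by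
    have h1 : D ∣ X ^ N - 1 := by
      rw [← psi_mul hpN]
      exact (hDp p hpm).mul_right _
    rw [← prod_cyclotomic_eq_X_pow_sub_one hN0, ← Nat.insert_self_properDivisors hN0.ne',
      prod_insert Nat.self_notMem_properDivisors] at h1
    exact h1
  have hDc : D ∣ cyclotomic N ℚ := (IsCoprime.prod_right hcop).dvd_of_dvd_mul_right hDN
  have hmem : cyclotomic N ℚ ∈ I := by
    rw [hD, Ideal.mem_span_singleton]
    exact hDc
  rw [hI] at hmem
  obtain ⟨c, hc⟩ := (Submodule.mem_span_image_finset_iff_exists_fun ℚ[X]).1 hmem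
  refine ⟨fun p => if h : p ∈ N.primeFactors then c ⟨p, h⟩ else 0, ?_⟩
  rw [← hc, ← Finset.sum_coe_sort N.primeFactors]
  refine sum_congr rfl fun i _ => ?_
  simp

/-- the shift of sequences -/
def shiftL : (ℤ → ℂ) →ₗ[ℚ] (ℤ → ℂ) where
  toFun g := fun k => g (k + 1)
  map_add' _ _ := rfl
  map_smul' _ _ := rfl

lemma shiftL_pow (i : ℕ) (g : ℤ → ℂ) (k : ℤ) : (shiftL ^ i) g k = g (k + i) := by
  induction i generalizing k with
  | zero => simp
  | succ i ih =>
    rw [pow_succ', Module.End.mul_apply]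
    show (shiftL ^ i) g (k + 1) = _
    rw [ih]
    congr 1
    push_cast
    ring

lemma aeval_shift (P : ℚ[X]) (g : ℤ → ℂ) (k : ℤ) :
    aeval shiftL P g k = ∑ i ∈ range (P.natDegree + 1), ((P.coeff i : ℚ) : ℂ) * g (k + i) := by
  rw [aeval_eq_sum_range]
  simp only [LinearMap.sum_apply, LinearMap.smul_apply, Finset.sum_apply, Pi.smul_apply, shiftL_pow]
  refine sum_congr rfl fun i _ => ?_
  rw [Rat.smul_def]

/-- the sum of the absolute values of the coefficients -/
noncomputable def wt (P : ℚ[X]) : ℝ := ∑ i ∈ range (P.natDegree + 1), |((P.coeff i : ℚ) : ℝ)|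

lemma wt_nonneg (P : ℚ[X]) : 0 ≤ wt P := sum_nonneg fun _ _ => abs_nonneg _

lemma norm_aeval_le (P : ℚ[X]) (g : ℤ → ℂ) {R : ℝ} (h : ∀ k, ‖g k‖ ≤ R) (k : ℤ) :
    ‖aeval shiftL P g k‖ ≤ wt P * R := by
  rw [aeval_shift, wt, sum_mul]
  refine (norm_sum_le _ _).trans (sum_le_sum fun i _ => ?_)
  rw [norm_mul]
  have : ‖(((P.coeff i : ℚ) : ℂ))‖ = |((P.coeff i : ℚ) : ℝ)| := by
    rw [← Complex.ofReal_ratCast, Complex.norm_real, Real.norm_eq_abs]
  rw [this]
  gcongr
  exact h _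

lemma aeval_psi (N p : ℕ) (g : ℤ → ℂ) (k : ℤ) :
    aeval shiftL (psi N p) g k = ∑ b ∈ range p, g (k + ((N / p : ℕ) : ℤ) * b) := by
  unfold psi
  simp only [map_sum, map_pow, aeval_X, ← pow_mul, LinearMap.sum_apply, Finset.sum_apply, shiftL_pow]
  refine sum_congr rfl fun b _ => ?_
  push_cast
  rfl

/-- the recursion -/
lemma recur {P : ℚ[X]} (hP : P.Monic) (g : ℤ → ℂ) {R B : ℝ} (hR0 : 0 ≤ R) (hB0 : 0 ≤ B)
    (hR : ∀ k, ‖aeval shiftL P g k‖ ≤ R) (k0 : ℤ) (hB : ∀ j : ℕ, j < P.natDegree → ‖g (k0 + j)‖ ≤ B) (m : ℕ) :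
    ‖g (k0 + m)‖ ≤ (1 + wt P) ^ (m + 1) * (B + R) := by
  have hw := wt_nonneg P
  induction m using Nat.strong_induction_on with
  | _ m ih =>
    have hpow : ∀ n : ℕ, 1 ≤ (1 + wt P) ^ n := fun n => one_le_pow₀ (by linarith)
    rcases lt_or_ge m P.natDegree with hm | hm
    · have h1 := hB m hm
      have h2 := hpow (m + 1)
      nlinarith
    · obtain ⟨r, rfl⟩ := Nat.exists_eq_add_of_le hm
      have h1 := hR (k0 + r)
      rw [aeval_shift, sum_range_succ] at h1
      have h2 : P.coeff P.natDegree = 1 := hP.coeff_natDegree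
      rw [h2] at h1
      have e1 : (k0 + (r : ℤ) + (P.natDegree : ℤ)) = k0 + ((P.natDegree + r : ℕ) : ℤ) := by push_cast; ring
      rw [e1, Rat.cast_one, one_mul] at h1
      set s : ℂ := ∑ i ∈ range P.natDegree, ((P.coeff i : ℚ) : ℂ) * g (k0 + r + i) with hs
      have h3 : ‖s‖ ≤ wt P * ((1 + wt P) ^ (P.natDegree + r) * (B + R)) := by
        have h4 : ‖s‖ ≤ ∑ i ∈ range P.natDegree, |((P.coeff i : ℚ) : ℝ)| * ((1 + wt P) ^ (P.natDegree + r) * (B + R)) := by
          rw [hs]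
          refine (norm_sum_le _ _).trans (sum_le_sum fun i hi => ?_)
          rw [mem_range] at hi
          rw [norm_mul]
          have : ‖(((P.coeff i : ℚ) : ℂ))‖ = |((P.coeff i : ℚ) : ℝ)| := by
            rw [← Complex.ofReal_ratCast, Complex.norm_real, Real.norm_eq_abs]
          rw [this]
          gcongr
          have e2 : k0 + (r : ℤ) + (i : ℤ) = k0 + ((r + i : ℕ) : ℤ) := by push_cast; ring
          rw [e2]
          refine (ih (r + i) (by omega)).trans ?_
          apply mul_le_mul_of_nonneg_right _ (by positivity)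
          exact pow_le_pow_right₀ (by linarith) (by omega)
        refine h4.trans ?_
        rw [← sum_mul]
        gcongr
        rw [wt, sum_range_succ]
        linarith [abs_nonneg ((P.coeff P.natDegree : ℚ) : ℝ)]
      have h5 : ‖g (k0 + ((P.natDegree + r : ℕ) : ℤ))‖ ≤ R + ‖s‖ := by
        have : g (k0 + ((P.natDegree + r : ℕ) : ℤ)) = (s + g (k0 + ((P.natDegree + r : ℕ) : ℤ))) - s := by ring
        rw [this]
        exact (norm_sub_le _ _).trans (by linarith)
      have h6 := hpow (P.natDegree + r)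
      rw [pow_succ]
      nlinarith

end Pool.Agent.Q30.HP
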