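import Pool.Agent.Q30.HP.Loc
import Pool.Agent.Q30.HP.Cyc

/-!
# Values of a Hecke eigenfunction are controlled by its values on thin sets
-/

set_option autoImplicit false

open MeasureTheory UpperHalfPlane Metric Filter Topology
open scoped MatrixGroups ENNReal

namespace Pool.Agent.Q30.HP

/-- the Hecke relation for a prime -/
def HeckeP (U : ℂ → ℂ) (p : ℕ) (c : ℂ) : Prop :=
  ∀ z : ℂ, 0 < z.im → U (p * z) + ∑ b ∈ Finset.range p, U ((z + b) / p) = c * U z

/-- the properties of Hecke-Maass forms that are used -/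
structure Form (U : ℂ → ℂ) (T : ℝ) : Prop where
  one_le : 1 ≤ T
  smooth : ContDiffOn ℝ 2 U {z : ℂ | 0 < z.im}
  inv : Inv U
  eigen : ∀ z : ℂ, 0 < z.im → -((z.im : ℂ)) ^ 2 * LL U z = (1 / 4 + (T : ℂ) ^ 2) * U z
  mass : (∫ z in {z : ℂ | 0 < z.im ∧ |z.re| ≤ 1 / 2 ∧ 1 ≤ ‖z‖}, ‖U z‖ ^ 2 / z.im ^ 2) = 1
  hecke : ∀ n : ℕ, 1 ≤ n → ∃ c : ℂ, ∀ z : ℂ, 0 < z.im →
    ∑ d ∈ n.divisors, ∑ b ∈ Finset.range d,
      U ((((n / d : ℕ) : ℂ) * z + (b : ℂ)) / (d : ℂ)) = c * U z

variable {U : ℂ → ℂ} {T : ℝ}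

lemma Form.heckeP (h : Form U T) {p : ℕ} (hp : p.Prime) : ∃ c : ℂ, HeckeP U p c := by
  obtain ⟨c, hc⟩ := h.hecke p hp.one_lt.le
  refine ⟨c, fun z hz => ?_⟩
  have h1 := hc z hz
  rw [hp.divisors, Finset.sum_pair hp.one_lt.ne] at h1
  rw [← h1]
  congr 1
  · simp
  · refine Finset.sum_congr rfl fun b _ => ?_
    rw [Nat.div_self hp.pos, Nat.cast_one, one_mul]

lemma Inv.shift_nat (hI : Inv U) (n : ℕ) {z : ℂ} (hz : 0 < z.im) : U (z + n) = U z := by
  induction n with
  | zero => simp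
  | succ n ih =>
    have h1 : 0 < (z + n).im := by simpa using hz
    have := (hI (z + n) h1).1
    rw [← ih, ← this]
    congr 1
    push_cast
    ring

lemma Inv.shift_int (hI : Inv U) (n : ℤ) {z : ℂ} (hz : 0 < z.im) : U (z + n) = U z := by
  obtain ⟨k, rfl | rfl⟩ := n.eq_nat_or_neg
  · exact_mod_cast hI.shift_nat k hz
  · have h1 : 0 < (z + ((-(k : ℤ) : ℤ) : ℂ)).im := by simpa using hz
    have := hI.shift_nat k h1
    rw [← this]
    congr 1
    push_cast
    ring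

lemma Form.two (h : Form U T) : ∃ c : ℂ, HeckeTwo U c ∧ ‖c‖ ≤ 7 :=
  two_le h.inv h.smooth.continuousOn h.mass (h.hecke 2 (by norm_num))

/-- a representative in the fundamental domain -/
lemma Form.rep (h : Form U T) {M : ℝ} (hM : 1 ≤ M) {z : ℂ} (h1 : 1 / M ≤ z.im) (h2 : z.im ≤ M) :
    ∃ p : ℂ, p ∈ FF ∧ p.im ≤ M ∧ ‖U z‖ ≤ ‖U p‖ := by
  obtain ⟨c, hc, hc7⟩ := h.two
  have hz : 0 < z.im := lt_of_lt_of_le (by positivity) h1
  set w : ℂ := z + ((-(round z.re) : ℤ) : ℂ) with hw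
  have hwim : w.im = z.im := by rw [hw]; simp
  have hwre : |w.re| ≤ M := by
    have e : w.re = z.re - round z.re := by
      rw [hw, Complex.add_re, Complex.intCast_re]; push_cast; ring
    rw [e]
    have := abs_sub_round z.re
    linarith
  have hUw : U w = U z := h.inv.shift_int _ hz
  obtain ⟨P, hP1, hP2, -⟩ := peaks h.inv hc (by norm_num : (2 : ℝ) ≤ 7) hc7 (z := w) (by rw [hwim]; exact hz) hM
    (by rw [hwim]; exact h1) (by rw [hwim]; exact h2) hwre 0
  have hne : P.Nonempty := by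
    rw [Finset.nonempty_iff_ne_empty]
    rintro rfl
    simp at hP1
  obtain ⟨p, hp⟩ := hne
  obtain ⟨q1, q2, q3, q4, q5⟩ := hP2 p hp
  simp only [pow_zero, mul_one, div_one] at q4 q5
  exact ⟨p, ⟨q3, q1, q2⟩, q4, by rw [← hUw]; exact q5⟩

lemma Form.le (h : Form U T) {z : ℂ} (hz : 0 < z.im) :
    ‖U z‖ ≤ 600 * T * max 1 (max z.im (1 / z.im)) := by
  set M : ℝ := max 1 (max z.im (1 / z.im)) with hM
  have hM1 : 1 ≤ M := le_max_left _ _
  have hM2 : z.im ≤ M := (le_max_left _ _).trans (le_max_right _ _)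
  have hM3 : 1 / z.im ≤ M := (le_max_right _ _).trans (le_max_right _ _)
  obtain ⟨p, hp, hp1, hp2⟩ := h.rep hM1 (z := z) (by
    rw [div_le_iff₀ (by linarith)]
    rw [div_le_iff₀ hz] at hM3
    linarith) hM2
  have hmass := mass_eq h.smooth.continuousOn h.mass
  have hloc := local_bound h.one_le h.inv h.smooth h.eigen hmass hp
  have hT := h.one_le
  calc ‖U z‖ ≤ ‖U p‖ := hp2
    _ ≤ 600 * T * p.im := hloc
    _ ≤ 600 * T * M := by gcongr

lemma Form.exists_ne (h : Form U T) : ∃ z : ℂ, 0 < z.im ∧ U z ≠ 0 := by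
  by_contra hcon
  push Not at hcon
  have hm := h.mass
  have : (∫ z in {z : ℂ | 0 < z.im ∧ |z.re| ≤ 1 / 2 ∧ 1 ≤ ‖z‖}, ‖U z‖ ^ 2 / z.im ^ 2) = 0 := by
    have hms : MeasurableSet {z : ℂ | 0 < z.im ∧ |z.re| ≤ 1 / 2 ∧ 1 ≤ ‖z‖} := by
      apply MeasurableSet.inter
      · exact measurableSet_lt measurable_const Complex.measurable_im
      · apply MeasurableSet.inter
        · exact measurableSet_le (Complex.measurable_re.norm) measurable_const
        · exact measurableSet_le measurable_const measurable_norm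
    rw [setIntegral_congr_fun hms (g := fun _ => 0)]
    · simp
    · rintro z ⟨hz, -⟩
      simp [hcon z hz]
  rw [this] at hm
  norm_num at hm

/-- the bound for the Hecke eigenvalues -/
lemma Form.eig_le (h : Form U T) {p : ℕ} (hp : p.Prime) {c : ℂ} (hc : HeckeP U p c) :
    ‖c‖ ≤ p * (p + 1) := by
  by_contra hcon
  push Not at hcon
  obtain ⟨z0, hz0, hU0⟩ := h.exists_ne
  have hp1 : (1 : ℝ) < p := by exact_mod_cast hp.one_lt
  have hp0 : (0 : ℝ) < p := by linarith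
  set q : ℝ := ‖c‖ / (p + 1) with hq
  have hqp : (p : ℝ) < q := by rw [hq, lt_div_iff₀ (by linarith)]; exact hcon
  have hq0 : 0 < q := by linarith
  have hstep : ∀ n : ℕ, ∃ z : ℂ, 0 < z.im ∧ z0.im / p ^ n ≤ z.im ∧ z.im ≤ p ^ n * z0.im ∧
      q ^ n * ‖U z0‖ ≤ ‖U z‖ := by
    intro n
    induction n with
    | zero => exact ⟨z0, hz0, by simp, by simp, by simp⟩
    | succ n ih =>
      obtain ⟨z, hz, h1, h2, h3⟩ := ih
      have hrel := hc z hz
      have hn : ‖c‖ * ‖U z‖ ≤ ‖U (p * z)‖ + ∑ b ∈ Finset.range p, ‖U ((z + b) / p)‖ := by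
        rw [← norm_mul, ← hrel]
        exact (norm_add_le _ _).trans (by gcongr; exact norm_sum_le _ _)
      have hqc : ‖c‖ = q * (p + 1) := by rw [hq]; field_simp
      by_cases hA : q * ‖U z‖ ≤ ‖U (p * z)‖
      · refine ⟨p * z, ?_, ?_, ?_, ?_⟩
        · simp; positivity
        · simp
          rw [pow_succ]
          calc z0.im / (p ^ n * p) ≤ z0.im / p ^ n := by
                apply div_le_div_of_nonneg_left hz0.le (by positivity)
                nlinarith [pow_pos hp0 n]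
            _ ≤ z.im := h1
            _ ≤ p * z.im := by nlinarith
        · simp
          rw [pow_succ]
          nlinarith
        · rw [pow_succ]
          nlinarith
      · have hB : ∃ b ∈ Finset.range p, q * ‖U z‖ ≤ ‖U ((z + b) / p)‖ := by
          by_contra hcon2
          push Not at hcon2 hA
          have h4 : ∑ b ∈ Finset.range p, ‖U ((z + b) / p)‖ ≤ ∑ _b ∈ Finset.range p, q * ‖U z‖ :=
            Finset.sum_le_sum fun b hb => (hcon2 b hb).le
          rw [Finset.sum_const, Finset.card_range, nsmul_eq_mul] at h4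
          rw [hqc] at hn
          nlinarith
        obtain ⟨b, _, hb⟩ := hB
        have him : ((z + b) / p).im = z.im / p := by
          have : ((p : ℂ)) = ((p : ℝ) : ℂ) := by push_cast; rfl
          rw [this, Complex.div_ofReal_im]
          simp
        refine ⟨(z + b) / p, ?_, ?_, ?_, ?_⟩
        · rw [him]; positivity
        · rw [him, pow_succ, ← div_div]
          gcongr
        · rw [him]
          calc z.im / p ≤ z.im := div_le_self hz.le hp1.le
            _ ≤ p ^ n * z0.im := h2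
            _ ≤ p ^ (n + 1) * z0.im := by
              rw [pow_succ]
              nlinarith [mul_pos (pow_pos hp0 n) hz0]
        · rw [pow_succ]
          nlinarith
  have hU0' : 0 < ‖U z0‖ := norm_pos_iff.2 hU0
  set K : ℝ := 600 * T * (1 + z0.im + 1 / z0.im) / ‖U z0‖ with hK
  have hT := h.one_le
  have hlim := tendsto_pow_atTop_atTop_of_one_lt ((one_lt_div hp0).2 hqp)
  obtain ⟨n, hn⟩ := (hlim.eventually_gt_atTop K).exists
  obtain ⟨z, hz, h1, h2, h3⟩ := hstep n
  have hpn : (1 : ℝ) ≤ p ^ n := one_le_pow₀ hp1.le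
  have h4 : max 1 (max z.im (1 / z.im)) ≤ p ^ n * (1 + z0.im + 1 / z0.im) := by
    have e0 : 0 < 1 / z0.im := by positivity
    apply max_le
    · nlinarith
    · apply max_le
      · nlinarith
      · have e1 : 1 / z.im ≤ p ^ n / z0.im := by
          rw [div_le_div_iff₀ hz hz0]
          rw [div_le_iff₀ (by positivity)] at h1
          linarith
        have e2 : p ^ n / z0.im = p ^ n * (1 / z0.im) := by ring
        rw [e2] at e1
        nlinarith
  have h5 := h.le hz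
  have h6 : q ^ n * ‖U z0‖ ≤ 600 * T * (p ^ n * (1 + z0.im + 1 / z0.im)) :=
    h3.trans (h5.trans (by gcongr))
  rw [div_pow, hK, lt_div_iff₀ (by positivity), mul_comm, ← mul_div_assoc] at hn
  rw [div_lt_iff₀ hU0'] at hn
  have e : 600 * T * ((p : ℝ) ^ n * (1 + z0.im + 1 / z0.im)) = p ^ n * (600 * T * (1 + z0.im + 1 / z0.im)) := by ring
  linarith

/-- the constant of the horocycle inequality -/
noncomputable def hcst (N : ℕ) (A : ℕ → Polynomial ℚ) : ℝ :=
  (1 + wt (Polynomial.cyclotomic N ℚ)) ^ (N + 1) *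
    (1 + ∑ p ∈ N.primeFactors, wt (A p) * ((p : ℝ) * (p + 1) + 1))

lemma hcst_one_le (N : ℕ) (A : ℕ → Polynomial ℚ) : 1 ≤ hcst N A := by
  unfold hcst
  have h1 : 1 ≤ (1 + wt (Polynomial.cyclotomic N ℚ)) ^ (N + 1) :=
    one_le_pow₀ (by linarith [wt_nonneg (Polynomial.cyclotomic N ℚ)])
  have h2 : 0 ≤ ∑ p ∈ N.primeFactors, wt (A p) * ((p : ℝ) * (p + 1) + 1) :=
    Finset.sum_nonneg fun p _ => mul_nonneg (wt_nonneg _) (by positivity)
  nlinarith

/-- **The horocycle inequality.** -/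
theorem horo {N : ℕ} (hN : 2 ≤ N) {A : ℕ → Polynomial ℚ}
    (hA : Polynomial.cyclotomic N ℚ = ∑ p ∈ N.primeFactors, A p * psi N p) (h : Form U T)
    {y B : ℝ} (hy : 0 < y) (hB0 : 0 ≤ B)
    (hup : ∀ z : ℂ, 2 * y ≤ z.im → z.im ≤ (N : ℝ) ^ 2 * y → ‖U z‖ ≤ B) {x0 : ℝ}
    (hst : ∀ x : ℝ, x0 ≤ x → x ≤ x0 + (N.totient : ℝ) / N → ‖U (x + y * Complex.I)‖ ≤ B) (x : ℝ) :
    ‖U (x + y * Complex.I)‖ ≤ hcst N A * B := by
  have hN0 : (0 : ℝ) < N := by exact_mod_cast (by omega : 0 < N)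
  have hNc : (N : ℂ) ≠ 0 := by exact_mod_cast hN0.ne'
  set g : ℤ → ℂ := fun k => U (x + y * Complex.I + k / N) with hg
  have him : ∀ r : ℂ, r.im = 0 → (x + y * Complex.I + r).im = y := by
    intro r hr
    simp [hr]
  have hkim : ∀ k : ℤ, ((k : ℂ) / N).im = 0 := by
    intro k
    have : ((k : ℂ) / N) = (((k : ℝ) / N : ℝ) : ℂ) := by push_cast; rfl
    rw [this, Complex.ofReal_im]
  -- the relations
  have hpsi : ∀ p ∈ N.primeFactors, ∀ k : ℤ, ‖Polynomial.aeval shiftL (psi N p) g k‖ ≤ ((p : ℝ) * (p + 1) + 1) * B := by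
    intro p hp k
    rw [Nat.mem_primeFactors] at hp
    obtain ⟨hpp, hpN, _⟩ := hp
    obtain ⟨c, hc⟩ := h.heckeP hpp
    have hc1 := h.eig_le hpp hc
    have hp2 : (2 : ℝ) ≤ p := by exact_mod_cast hpp.two_le
    have hpN' : (p : ℝ) ≤ N := by exact_mod_cast Nat.le_of_dvd (by omega) hpN
    have hpc : (p : ℂ) ≠ 0 := by exact_mod_cast hpp.ne_zero
    set w : ℂ := x + y * Complex.I + k / N with hw
    have hwim : w.im = y := him _ (hkim k)
    have hpw : (p * w).im = p * y := by simp [hwim]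
    have hppw : (p * (p * w)).im = p * (p * y) := by simp [hwim]
    have hrel := hc (p * w) (by rw [hpw]; positivity)
    rw [aeval_psi]
    have e1 : ∑ b ∈ Finset.range p, g (k + ((N / p : ℕ) : ℤ) * b) = ∑ b ∈ Finset.range p, U ((p * w + b) / p) := by
      refine Finset.sum_congr rfl fun b _ => ?_
      simp only [hg]
      congr 1
      have e2 : ((((N / p : ℕ) : ℤ)) : ℂ) = (N : ℂ) / p := by
        rw [Int.cast_natCast]; exact Nat.cast_div hpN hpc
      rw [Int.cast_add, Int.cast_mul, e2, Int.cast_natCast, hw]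
      field_simp
      ring
    rw [e1]
    have e3 : ∑ b ∈ Finset.range p, U ((p * w + b) / p) = c * U (p * w) - U (p * (p * w)) := by rw [← hrel]; ring
    rw [e3]
    have hN1 : (1 : ℝ) ≤ N := by linarith
    have i1 : 2 * y ≤ p * y := mul_le_mul_of_nonneg_right hp2 hy.le
    have i2 : (p : ℝ) * y ≤ N ^ 2 * y := mul_le_mul_of_nonneg_right (by nlinarith) hy.le
    have i3 : 2 * y ≤ p * (p * y) := by nlinarith
    have b1 : ‖U (p * w)‖ ≤ B := hup _ (by rw [hpw]; exact i1) (by rw [hpw]; exact i2)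
    have b2 : ‖U (p * (p * w))‖ ≤ B := by
      apply hup
      · rw [hppw]; exact i3
      · rw [hppw]
        have : (p : ℝ) * (p * y) = p ^ 2 * y := by ring
        rw [this]
        gcongr
    calc ‖c * U (p * w) - U (p * (p * w))‖ ≤ ‖c‖ * ‖U (p * w)‖ + ‖U (p * (p * w))‖ := by
          rw [← norm_mul]; exact norm_sub_le _ _
      _ ≤ (p * (p + 1)) * B + B := by gcongr
      _ = _ := by ring
  set R : ℝ := (∑ p ∈ N.primeFactors, wt (A p) * ((p : ℝ) * (p + 1) + 1)) * B with hR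
  have hR0 : 0 ≤ R := mul_nonneg (Finset.sum_nonneg fun p _ => mul_nonneg (wt_nonneg _) (by positivity)) hB0
  have hcyc : ∀ k : ℤ, ‖Polynomial.aeval shiftL (Polynomial.cyclotomic N ℚ) g k‖ ≤ R := by
    intro k
    rw [hA, map_sum, LinearMap.sum_apply, Finset.sum_apply, hR, Finset.sum_mul]
    refine (norm_sum_le _ _).trans (Finset.sum_le_sum fun p hp => ?_)
    rw [map_mul, Module.End.mul_apply, mul_assoc]
    exact norm_aeval_le _ _ (hpsi p hp) k
  -- the strip
  set k0 : ℤ := ⌈(x0 - x) * N⌉ with hk0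
  have hk1 : (x0 - x) * N ≤ k0 := Int.le_ceil _
  have hk2 : (k0 : ℝ) < (x0 - x) * N + 1 := Int.ceil_lt_add_one _
  have hstrip : ∀ j : ℕ, j < (Polynomial.cyclotomic N ℚ).natDegree → ‖g (k0 + j)‖ ≤ B := by
    intro j hj
    rw [Polynomial.natDegree_cyclotomic] at hj
    have hj' : (j : ℝ) + 1 ≤ N.totient := by exact_mod_cast hj
    have e1 : g (k0 + j) = U (((x + (k0 + j) / N : ℝ) : ℂ) + y * Complex.I) := by
      simp only [hg]
      congr 1
      push_cast
      ring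
    rw [e1]
    apply hst
    · have : x0 - x ≤ (k0 + j) / N := by
        rw [le_div_iff₀ hN0]
        have : (0 : ℝ) ≤ j := Nat.cast_nonneg j
        linarith
      linarith
    · have : (k0 + j) / N ≤ x0 - x + (N.totient : ℝ) / N := by
        rw [div_le_iff₀ hN0, add_mul, div_mul_cancel₀ _ hN0.ne']
        linarith
      linarith
  have hmono := Polynomial.cyclotomic.monic N ℚ
  -- the representative of zero
  set m : ℕ := ((-k0) % (N : ℤ)).toNat with hm
  have hNz : (0 : ℤ) < N := by omega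
  have hm0 : ((m : ℕ) : ℤ) = (-k0) % (N : ℤ) := by
    rw [hm, Int.toNat_of_nonneg (Int.emod_nonneg _ hNz.ne')]
  have hmN : m < N := by
    have := Int.emod_lt_of_pos (-k0) hNz
    omega
  obtain ⟨t, ht⟩ : ∃ t : ℤ, k0 + m = N * t := by
    refine ⟨-((-k0) / N), ?_⟩
    have := Int.emod_add_mul_ediv (-k0) N
    rw [hm0]
    linarith
  have hfin := recur hmono g hR0 hB0 hcyc k0 hstrip m
  rw [ht] at hfin
  have e2 : g (N * t) = U (x + y * Complex.I) := by
    simp only [hg]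
    push_cast
    rw [mul_div_assoc, mul_div_cancel₀ _ hNc]
    exact h.inv.shift_int t (by simpa using hy)
  rw [e2] at hfin
  refine hfin.trans ?_
  unfold hcst
  have h1 : (1 + wt (Polynomial.cyclotomic N ℚ)) ^ (m + 1) ≤ (1 + wt (Polynomial.cyclotomic N ℚ)) ^ (N + 1) :=
    pow_le_pow_right₀ (by linarith [wt_nonneg (Polynomial.cyclotomic N ℚ)]) (by omega)
  have h2 : B + R = (1 + ∑ p ∈ N.primeFactors, wt (A p) * ((p : ℝ) * (p + 1) + 1)) * B := by rw [hR]; ring
  rw [h2, ← mul_assoc]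
  have h3 : 0 ≤ 1 + ∑ p ∈ N.primeFactors, wt (A p) * ((p : ℝ) * (p + 1) + 1) :=
    add_nonneg zero_le_one (Finset.sum_nonneg fun p _ => mul_nonneg (wt_nonneg _) (by positivity))
  gcongr

/-- going down from the height `H` to the height `h0` -/
lemma down {N : ℕ} (hN : 2 ≤ N) {A : ℕ → Polynomial ℚ}
    (hA : Polynomial.cyclotomic N ℚ = ∑ p ∈ N.primeFactors, A p * psi N p) (h : Form U T)
    {h0 H B : ℝ} (hh0 : 0 < h0) (hB0 : 0 ≤ B)
    (hst : ∀ y : ℝ, h0 ≤ y → y ≤ H → ∃ x0 : ℝ, ∀ x : ℝ, x0 ≤ x → x ≤ x0 + (N.totient : ℝ) / N →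
      ‖U (x + y * Complex.I)‖ ≤ B)
    (htop : ∀ z : ℂ, H ≤ z.im → z.im ≤ (N : ℝ) ^ 2 * H → ‖U z‖ ≤ B) (j : ℕ) :
    ∀ z : ℂ, h0 ≤ z.im → H / 2 ^ j ≤ z.im → z.im ≤ (N : ℝ) ^ 2 * H → ‖U z‖ ≤ hcst N A ^ j * B := by
  have hc1 := hcst_one_le N A
  induction j with
  | zero =>
    intro z h1 h2 h3
    simpa using htop z (by simpa using h2) h3
  | succ j ih =>
    intro z h1 h2 h3
    have hp1 : 1 ≤ hcst N A ^ j := one_le_pow₀ hc1
    rcases le_or_gt (H / 2 ^ j) z.im with h4 | h4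
    · refine (ih z h1 h4 h3).trans ?_
      rw [pow_succ]
      have : hcst N A ^ j * B ≤ hcst N A ^ j * hcst N A * B := by
        have : 0 ≤ hcst N A ^ j * B := by positivity
        nlinarith
      exact this
    · have hz : 0 < z.im := by linarith
      have hH : 0 < H := by
        by_contra hcon
        push Not at hcon
        have : H / 2 ^ j ≤ 0 := div_nonpos_of_nonpos_of_nonneg hcon (by positivity)
        linarith
      have hjH : H / 2 ^ j ≤ H := div_le_self hH.le (one_le_pow₀ (by norm_num))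
      obtain ⟨x0, hx0⟩ := hst z.im h1 (by linarith)
      have hB' : B ≤ hcst N A ^ j * B := by nlinarith
      have key := horo hN hA h hz (by positivity : 0 ≤ hcst N A ^ j * B) (fun w hw1 hw2 => by
        apply ih w (by linarith)
        · rw [pow_succ, ← div_div, div_le_iff₀ (by norm_num)] at h2
          linarith
        · refine hw2.trans ?_
          have : z.im ≤ H := by linarith
          gcongr) (fun x hx1 hx2 => (hx0 x hx1 hx2).trans hB') z.re
      rw [Complex.re_add_im] at key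
      rw [pow_succ']
      rw [← mul_assoc] at key
      exact key

lemma exists_totient {η : ℝ} (hη : 0 < η) : ∃ N : ℕ, 2 ≤ N ∧ (N.totient : ℝ) / N ≤ η := by
  have hns := not_summable_one_div_on_primes
  rw [not_summable_iff_tendsto_nat_atTop_of_nonneg (by
    intro n
    apply Set.indicator_nonneg
    intro m _
    positivity)] at hns
  obtain ⟨n, hn, hn2⟩ := ((hns.eventually_ge_atTop (Real.log (1 / η))).and (eventually_ge_atTop 3)).exists
  refine ⟨(n - 1).factorial, ?_, ?_⟩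
  · have : 2 ≤ n - 1 := by omega
    calc 2 = (2 : ℕ).factorial := rfl
      _ ≤ (n - 1).factorial := Nat.factorial_le this
  · have hN0 : (0 : ℝ) < ((n - 1).factorial : ℝ) := by exact_mod_cast Nat.factorial_pos _
    have h1 := Nat.totient_eq_mul_prod_factors (n - 1).factorial
    have h2 : (((n - 1).factorial.totient : ℝ)) / (n - 1).factorial =
        ∏ p ∈ (n - 1).factorial.primeFactors, (1 - (p : ℝ)⁻¹) := by
      have h3 : (((n - 1).factorial.totient : ℝ)) = ((n - 1).factorial : ℝ) *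
          ∏ p ∈ (n - 1).factorial.primeFactors, (1 - (p : ℝ)⁻¹) := by
        have h1' := congrArg (fun q : ℚ => (q : ℝ)) h1
        push_cast at h1'
        exact h1'
      rw [h3]
      field_simp
    rw [h2]
    have h4 : ∏ p ∈ (n - 1).factorial.primeFactors, (1 - (p : ℝ)⁻¹) ≤
        ∏ p ∈ (n - 1).factorial.primeFactors, Real.exp (-(p : ℝ)⁻¹) := by
      apply Finset.prod_le_prod
      · intro p hp
        have hp1 : (1 : ℝ) ≤ p := by exact_mod_cast (Nat.prime_of_mem_primeFactors hp).one_lt.le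
        have := inv_le_one_of_one_le₀ hp1
        linarith
      · intro p _
        have := Real.add_one_le_exp (-(p : ℝ)⁻¹)
        linarith
    refine h4.trans ?_
    rw [← Real.exp_sum, Finset.sum_neg_distrib]
    have h5 : Real.log (1 / η) ≤ ∑ p ∈ (n - 1).factorial.primeFactors, (p : ℝ)⁻¹ := by
      refine hn.trans (le_of_eq ?_)
      rw [Finset.sum_indicator_eq_sum_filter]
      have e : (n - 1).factorial.primeFactors = (Finset.range n).filter (fun i => i ∈ {p : ℕ | p.Prime}) := by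
        ext p
        rw [Nat.mem_primeFactors, Finset.mem_filter, Finset.mem_range]
        constructor
        · rintro ⟨h6, h7, _⟩
          have := (Nat.Prime.dvd_factorial h6).1 h7
          exact ⟨by omega, h6⟩
        · rintro ⟨h6, h7⟩
          exact ⟨h7, (Nat.Prime.dvd_factorial h7).2 (by omega), (Nat.factorial_pos _).ne'⟩
      rw [e]
      refine Finset.sum_congr ?_ fun p _ => by rw [one_div]
      ext p
      simp
    calc Real.exp (-∑ p ∈ (n - 1).factorial.primeFactors, (p : ℝ)⁻¹) ≤ Real.exp (-Real.log (1 / η)) :=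
          Real.exp_le_exp.2 (by linarith)
      _ = η := by
          rw [one_div, Real.log_inv, neg_neg, Real.exp_log hη]

/-- **Domination.** -/
theorem dom {η H : ℝ} (hη : 0 < η) (hH : 8 ≤ H) : ∃ H' : ℝ, H ≤ H' ∧ ∀ M : ℝ, 1 ≤ M → ∃ C : ℝ, 0 < C ∧
    ∀ (U : ℂ → ℂ) (T : ℝ), Form U T → ∀ B : ℝ, 0 ≤ B →
    (∀ y : ℝ, Real.sqrt 3 / 2 ≤ y → y ≤ H → ∃ x0 : ℝ, ∀ x : ℝ, x0 ≤ x → x ≤ x0 + η →
      ‖U (x + y * Complex.I)‖ ≤ B) →
    (∀ z : ℂ, |z.re| ≤ 1 / 2 → H ≤ z.im → z.im ≤ H' → ‖U z‖ ≤ B) →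
    ∀ z : ℂ, 1 / M ≤ z.im → z.im ≤ M → ‖U z‖ ≤ C * B := by
  obtain ⟨N, hN, hNη⟩ := exists_totient hη
  obtain ⟨A, hA⟩ := cyc_mem hN
  have hN2 : (2 : ℝ) ≤ N := by exact_mod_cast hN
  have hN4 : (1 : ℝ) ≤ (N : ℝ) ^ 2 := by nlinarith
  refine ⟨(N : ℝ) ^ 2 * H, by nlinarith, fun M hM => ?_⟩
  obtain ⟨j, hj⟩ : ∃ j : ℕ, H / 2 ^ j ≤ Real.sqrt 3 / 2 := by
    have h3 : 0 < Real.sqrt 3 / 2 := by positivity
    obtain ⟨j, hj⟩ := pow_unbounded_of_one_lt (H / (Real.sqrt 3 / 2)) (by norm_num : (1 : ℝ) < 2)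
    refine ⟨j, ?_⟩
    rw [div_lt_iff₀ h3] at hj
    rw [div_le_iff₀ (by positivity)]
    linarith
  obtain ⟨k, hk⟩ := pow_unbounded_of_one_lt M (by norm_num : (1 : ℝ) < 2)
  have hc1 := hcst_one_le N A
  refine ⟨9 ^ k * hcst N A ^ j, by positivity, fun U T h B hB0 hst htop z hz1 hz2 => ?_⟩
  have hper : ∀ z : ℂ, H ≤ z.im → z.im ≤ (N : ℝ) ^ 2 * H → ‖U z‖ ≤ B := by
    intro z h1 h2
    have hz : 0 < z.im := by linarith
    rw [← h.inv.shift_int (-round z.re) hz]
    apply htop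
    · have e : (z + ((-round z.re : ℤ) : ℂ)).re = z.re - round z.re := by
        rw [Complex.add_re, Complex.intCast_re]; push_cast; ring
      rw [e]
      exact abs_sub_round z.re
    · simpa using h1
    · simpa using h2
  have hdown := down hN hA h (by positivity : 0 < Real.sqrt 3 / 2) hB0 (fun y hy1 hy2 => by
    obtain ⟨x0, hx0⟩ := hst y hy1 hy2
    exact ⟨x0, fun x hx1 hx2 => hx0 x hx1 (by linarith)⟩) hper j
  have hFF : ∀ p : ℂ, p ∈ FF → Real.sqrt 3 / 2 ≤ p.im := by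
    rintro p ⟨h1, h2, h3⟩
    have h4 : 1 ≤ ‖p‖ ^ 2 := by nlinarith
    rw [← Complex.normSq_eq_norm_sq, Complex.normSq_apply] at h4
    rw [abs_le] at h2
    have h5 : 3 / 4 ≤ p.im ^ 2 := by nlinarith
    have h6 : (Real.sqrt 3 / 2) ^ 2 ≤ p.im ^ 2 := by
      rw [div_pow, Real.sq_sqrt (by norm_num)]
      linarith
    exact (sq_le_sq₀ (by positivity) h1.le).1 h6
  have hlow : ∀ w : ℂ, |w.re| ≤ 1 → 1 / 8 ≤ w.im → w.im ≤ 1 → ‖U w‖ ≤ hcst N A ^ j * B := by
    intro w _ hw1 hw2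
    obtain ⟨p, hp, hp1, hp2⟩ := h.rep (by norm_num : (1 : ℝ) ≤ 8) (z := w) hw1 (by linarith)
    refine hp2.trans (hdown p (hFF p hp) (hj.trans (hFF p hp)) ?_)
    nlinarith
  obtain ⟨p, hp, hp1, hp2⟩ := h.rep hM hz1 hz2
  obtain ⟨c, hc, hc7⟩ := h.two
  have h3 : (1 : ℝ) < Real.sqrt 3 := by
    rw [show (1 : ℝ) = Real.sqrt 1 by simp]
    exact Real.sqrt_lt_sqrt (by norm_num) (by norm_num)
  have hg := grow hc hc7 (by positivity) hlow k p (by linarith [hp.2.1]) (by linarith [hFF p hp]) (by linarith)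
  calc ‖U z‖ ≤ ‖U p‖ := hp2
    _ ≤ 9 ^ k * (hcst N A ^ j * B) := hg
    _ = _ := by ring

end Pool.Agent.Q30.HP
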