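import Pool.Agent.Q30.HP.Bd

/-!
# From the normalisation over the fundamental domain to the bound for the Hecke eigenvalue
-/

set_option autoImplicit false

open MeasureTheory UpperHalfPlane
open scoped MatrixGroups ENNReal

namespace Pool.Agent.Q30.HP

/-- the fundamental domain as a subset of `ℂ` -/
def FF : Set ℂ := {z : ℂ | 0 < z.im ∧ |z.re| ≤ 1 / 2 ∧ 1 ≤ ‖z‖}

lemma image_fd : (UpperHalfPlane.coe '' ModularGroup.fd) = FF := by
  ext z
  constructor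
  · rintro ⟨τ, hτ, rfl⟩
    refine ⟨τ.im_pos, hτ.2, ?_⟩
    have h1 := hτ.1
    rw [Complex.normSq_eq_norm_sq] at h1
    nlinarith [norm_nonneg (τ : ℂ)]
  · rintro ⟨h1, h2, h3⟩
    refine ⟨⟨z, h1⟩, ⟨?_, h2⟩, rfl⟩
    show 1 ≤ Complex.normSq z
    rw [Complex.normSq_eq_norm_sq]
    nlinarith

lemma lint_gen {f : ℂ → ℝ≥0∞} (hf : Measurable fun τ : ℍ => f τ) {A : Set ℍ} (hA : MeasurableSet A) :
    ∫⁻ τ in A, f τ = ∫⁻ z in (UpperHalfPlane.coe '' A), f z * ENNReal.ofReal (1 / z.im ^ 2) := by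
  have hpres : MeasurePreserving UpperHalfPlane.coe (volume.comap UpperHalfPlane.coe)
      (volume.restrict (.range UpperHalfPlane.coe)) :=
    ⟨measurable_coe, by rw [measurableEmbedding_coe.map_comap]⟩
  have hdens : Measurable fun z : ℍ => (((1 / NNReal.mk z.im z.im_pos.le : NNReal) ^ 2 : NNReal) : ℝ≥0∞) := by
    apply Measurable.coe_nnreal_ennreal
    apply Measurable.pow_const
    apply Measurable.const_div
    exact (UpperHalfPlane.continuous_im.measurable).subtype_mk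
  rw [volume_def, restrict_withDensity hA, lintegral_withDensity_eq_lintegral_mul _ hdens hf]
  have h1 : ∀ τ : ℍ, ((fun z : ℍ => (((1 / NNReal.mk z.im z.im_pos.le : NNReal) ^ 2 : NNReal) : ℝ≥0∞)) *
      fun τ : ℍ => f τ) τ = (fun z : ℂ => f z * ENNReal.ofReal (1 / z.im ^ 2)) (τ : ℂ) := by
    intro τ
    show (((1 / NNReal.mk τ.im τ.im_pos.le : NNReal) ^ 2 : NNReal) : ℝ≥0∞) * f τ =
      f τ * ENNReal.ofReal (1 / (τ : ℂ).im ^ 2)
    rw [mul_comm]
    congr 1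
    rw [ENNReal.ofReal, ENNReal.coe_inj]
    ext
    rw [Real.coe_toNNReal _ (by positivity)]
    push_cast
    rw [div_pow, one_pow]
    rfl
  simp_rw [h1]
  have h2 := hpres.setLIntegral_comp_emb measurableEmbedding_coe
    (fun z : ℂ => f z * ENNReal.ofReal (1 / z.im ^ 2)) A
  rw [h2, Measure.restrict_restrict_of_subset]
  exact Set.image_subset_range _ _

lemma lint_eq {f : ℂ → ℝ≥0∞} (hf : Measurable fun τ : ℍ => f τ) :
    ∫⁻ τ in ModularGroup.fd, f τ = ∫⁻ z in FF, f z * ENNReal.ofReal (1 / z.im ^ 2) := by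
  rw [lint_gen hf measurableSet_fd, image_fd]

/-- the mass in `ℍ` -/
lemma mass_eq {U : ℂ → ℂ} (hcont : ContinuousOn U {z : ℂ | 0 < z.im})
    (h : (∫ z in {z : ℂ | 0 < z.im ∧ |z.re| ≤ 1 / 2 ∧ 1 ≤ ‖z‖}, ‖U z‖ ^ 2 / z.im ^ 2) = 1) :
    ∫⁻ τ in ModularGroup.fd, ‖U τ‖ₑ ^ 2 = 1 := by
  have hm : Measurable fun τ : ℍ => U τ :=
    (hcont.comp_continuous (by fun_prop) fun τ : ℍ => τ.im_pos).measurable
  rw [lint_eq (f := fun z => ‖U z‖ₑ ^ 2) (hm.enorm.pow_const 2)]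
  have hint : IntegrableOn (fun z : ℂ => ‖U z‖ ^ 2 / z.im ^ 2) FF := by
    by_contra hn
    have := integral_undef hn
    unfold FF at this
    rw [this] at h
    norm_num at h
  have h2 := ofReal_integral_eq_lintegral_ofReal hint (Filter.Eventually.of_forall fun z => by positivity)
  have h3 : (∫ z in FF, ‖U z‖ ^ 2 / z.im ^ 2) = 1 := h
  rw [h3, ENNReal.ofReal_one] at h2
  rw [h2]
  refine lintegral_congr fun z => ?_
  rw [div_eq_mul_one_div (‖U z‖ ^ 2) (z.im ^ 2), ENNReal.ofReal_mul (by positivity), ENNReal.ofReal_pow (norm_nonneg _), ofReal_norm]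

/-- the Hecke relation at two -/
lemma hecke_two {U : ℂ → ℂ} (hI : Inv U)
    (h : ∃ c : ℂ, ∀ z : ℂ, 0 < z.im → ∑ d ∈ (2 : ℕ).divisors, ∑ b ∈ Finset.range d,
      U ((((2 / d : ℕ) : ℂ) * z + (b : ℂ)) / (d : ℂ)) = c * U z) :
    ∃ c : ℂ, HeckeTwo U c := by
  obtain ⟨c, hc⟩ := h
  refine ⟨c, ⟨fun z hz => (hI z hz).1, fun z hz => ?_⟩⟩
  have h1 := hc z hz
  have e : (2 : ℕ).divisors = {1, 2} := by decide
  rw [e] at h1
  simp [Finset.sum_range_succ] at h1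
  rw [← h1]
  ring

theorem two_le {U : ℂ → ℂ} (hI : Inv U) (hcont : ContinuousOn U {z : ℂ | 0 < z.im})
    (hn : (∫ z in {z : ℂ | 0 < z.im ∧ |z.re| ≤ 1 / 2 ∧ 1 ≤ ‖z‖}, ‖U z‖ ^ 2 / z.im ^ 2) = 1)
    (h : ∃ c : ℂ, ∀ z : ℂ, 0 < z.im → ∑ d ∈ (2 : ℕ).divisors, ∑ b ∈ Finset.range d,
      U ((((2 / d : ℕ) : ℂ) * z + (b : ℂ)) / (d : ℂ)) = c * U z) :
    ∃ c : ℂ, HeckeTwo U c ∧ ‖c‖ ≤ 7 := by
  obtain ⟨c, hc⟩ := hecke_two hI h
  have hmass := mass_eq hcont hn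
  exact ⟨c, hc, eigen_le hI hc hcont (by rw [hmass]; norm_num) (by rw [hmass]; norm_num)⟩

/-- growth towards the cusp -/
lemma grow {U : ℂ → ℂ} {c : ℂ} (hH : HeckeTwo U c) (hc : ‖c‖ ≤ 7) {A : ℝ} (hA0 : 0 ≤ A)
    (hA : ∀ w : ℂ, |w.re| ≤ 1 → 1 / 8 ≤ w.im → w.im ≤ 1 → ‖U w‖ ≤ A) (k : ℕ) :
    ∀ w : ℂ, |w.re| ≤ 1 → 1 / 8 ≤ w.im → w.im ≤ 2 ^ k → ‖U w‖ ≤ 9 ^ k * A := by
  induction k with
  | zero => intro w h1 h2 h3; simpa using hA w h1 h2 (by simpa using h3)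
  | succ k ih =>
    intro w h1 h2 h3
    have hk1 : (1 : ℝ) ≤ 2 ^ k := one_le_pow₀ (by norm_num)
    have h9 : (0 : ℝ) ≤ 9 ^ k * A := by positivity
    rcases le_or_gt w.im (2 ^ k) with h4 | h4
    · have := ih w h1 h2 h4
      rw [pow_succ]
      nlinarith
    · have hw2 : 0 < (w / 2).im := by simp; linarith
      have hrel := hH.hecke (w / 2) hw2
      have e1 : 2 * (w / 2) = w := by ring
      rw [e1] at hrel
      rw [abs_le] at h1
      have b1 := ih (w / 2) (by simp [abs_le]; constructor <;> linarith) (by simp; linarith)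
        (by simp; rw [pow_succ] at h3; linarith)
      have b2 := ih (w / 2 / 2) (by simp [abs_le]; constructor <;> linarith) (by simp; linarith)
        (by simp; rw [pow_succ] at h3; linarith)
      have b3 := ih ((w / 2 + 1) / 2) (by simp [abs_le]; constructor <;> linarith) (by simp; linarith)
        (by simp; rw [pow_succ] at h3; linarith)
      have e2 : U w = c * U (w / 2) - U (w / 2 / 2) - U ((w / 2 + 1) / 2) := by rw [← hrel]; ring
      rw [e2]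
      calc ‖c * U (w / 2) - U (w / 2 / 2) - U ((w / 2 + 1) / 2)‖
          ≤ ‖c * U (w / 2)‖ + ‖U (w / 2 / 2)‖ + ‖U ((w / 2 + 1) / 2)‖ :=
            (norm_sub_le _ _).trans (by gcongr; exact norm_sub_le _ _)
        _ ≤ 7 * (9 ^ k * A) + 9 ^ k * A + 9 ^ k * A := by
            rw [norm_mul]
            gcongr
        _ = 9 ^ (k + 1) * A := by rw [pow_succ]; ring

end Pool.Agent.Q30.HP
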