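import Mathlib
import Pool.Agent.Q176.MA.Bas

/-!
# The Levi form of a real part plus a quadratic function
-/

set_option autoImplicit false

open Filter Topology Metric MeasureTheory

namespace Pool.Agent.Q30.HP

open Pool.Agent.Q176.MA (lev)

lemma line_deriv' {F : Type*} [NormedAddCommGroup F] [NormedSpace ℝ F] {f : ℂ → F} {z : ℂ}
    (hf : ContDiffAt ℝ 2 f z) (v : ℂ) :
    (∀ᶠ s in 𝓝 (0 : ℝ), HasDerivAt (fun s : ℝ => f (z + s • v)) (fderiv ℝ f (z + s • v) v) s) ∧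
    HasDerivAt (fun s : ℝ => fderiv ℝ f (z + s • v) v) (fderiv ℝ (fderiv ℝ f) z v v) 0 := by
  have hline : ∀ s : ℝ, HasDerivAt (fun s : ℝ => z + s • v) v s := by
    intro s
    have := ((hasDerivAt_id s).smul_const v).const_add z
    simpa using this
  constructor
  · have h1 : ∀ᶠ w in 𝓝 z, DifferentiableAt ℝ f w := by
      have := hf.eventually (by simp)
      exact this.mono fun w hw => hw.differentiableAt (by norm_num)
    have h2 : Tendsto (fun s : ℝ => z + s • v) (𝓝 0) (𝓝 z) := by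
      have := (hline 0).continuousAt.tendsto
      simpa using this
    filter_upwards [h2.eventually h1] with s hs
    exact hs.hasFDerivAt.comp_hasDerivAt s (hline s)
  · have h1 : DifferentiableAt ℝ (fderiv ℝ f) z :=
      (hf.fderiv_right (m := 1) (by norm_num)).differentiableAt (by norm_num)
    have h2 : HasFDerivAt (fderiv ℝ f) (fderiv ℝ (fderiv ℝ f) z) (z + (0 : ℝ) • v) := by
      simpa using h1.hasFDerivAt
    have h3 := h2.comp_hasDerivAt (0 : ℝ) (hline 0)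
    have h4 : HasDerivAt (fun s : ℝ => fderiv ℝ f (z + s • v)) (fderiv ℝ (fderiv ℝ f) z v) 0 := h3
    have h5 := h4.clm_apply (hasDerivAt_const (0 : ℝ) v)
    simpa using h5

lemma deriv_line {F : Type*} [NormedAddCommGroup F] [NormedSpace ℝ F] {f : ℂ → F} {z : ℂ}
    (hf : ContDiffAt ℝ 2 f z) (v : ℂ) :
    deriv (deriv (fun s : ℝ => f (z + s • v))) 0 = fderiv ℝ (fderiv ℝ f) z v v := by
  obtain ⟨h1, h2⟩ := line_deriv' hf v
  have e : deriv (fun s : ℝ => f (z + s • v)) =ᶠ[𝓝 0] fun s : ℝ => fderiv ℝ f (z + s • v) v :=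
    h1.mono fun s hs => hs.deriv
  rw [e.deriv_eq, h2.deriv]

/-- second derivatives of `ℓ (U w) + K ‖w - z1‖ ^ 2` along lines -/
lemma second_line {U : ℂ → ℂ} {w : ℂ} (hU : ContDiffAt ℝ 2 U w) (ℓ : ℂ →L[ℝ] ℝ) (z1 : ℂ) (K : ℝ) (v : ℂ) :
    fderiv ℝ (fderiv ℝ (fun w => ℓ (U w) + K * ‖w - z1‖ ^ 2)) w v v =
      ℓ (fderiv ℝ (fderiv ℝ U) w v v) + 2 * K * ‖v‖ ^ 2 := by
  set f : ℂ → ℝ := fun w => ℓ (U w) + K * ‖w - z1‖ ^ 2 with hf
  have hfc : ContDiffAt ℝ 2 f w := by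
    apply ContDiffAt.add
    · exact ℓ.contDiff.contDiffAt.comp w hU
    · apply ContDiffAt.mul contDiffAt_const
      exact (contDiff_norm_sq ℝ).contDiffAt.comp w (contDiffAt_id.sub contDiffAt_const)
  obtain ⟨h1, h2⟩ := line_deriv' hfc v
  obtain ⟨g1, g2⟩ := line_deriv' hU v
  set B : ℝ := 2 * ((w - z1).re * v.re + (w - z1).im * v.im) with hB
  have hq : ∀ s : ℝ, ‖w + s • v - z1‖ ^ 2 = ‖w - z1‖ ^ 2 + B * s + ‖v‖ ^ 2 * s ^ 2 := by
    intro s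
    rw [← Complex.normSq_eq_norm_sq, ← Complex.normSq_eq_norm_sq, ← Complex.normSq_eq_norm_sq,
      Complex.normSq_apply, Complex.normSq_apply, Complex.normSq_apply, hB]
    simp
    ring
  have hqd : ∀ s : ℝ, HasDerivAt (fun s : ℝ => K * ‖w + s • v - z1‖ ^ 2) (K * (B + 2 * ‖v‖ ^ 2 * s)) s := by
    intro s
    simp_rw [hq]
    have e1 : HasDerivAt (fun s : ℝ => ‖w - z1‖ ^ 2 + B * s + ‖v‖ ^ 2 * s ^ 2) (0 + B * 1 + ‖v‖ ^ 2 * (2 * s ^ 1 * 1)) s := by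
      apply HasDerivAt.add
      · apply HasDerivAt.add
        · exact hasDerivAt_const _ _
        · exact (hasDerivAt_id s).const_mul B
      · exact ((hasDerivAt_id s).pow 2).const_mul _
    exact (e1.const_mul K).congr_deriv (by ring)
  have h3 : ∀ᶠ s in 𝓝 (0 : ℝ), fderiv ℝ f (w + s • v) v =
      ℓ (fderiv ℝ U (w + s • v) v) + K * (B + 2 * ‖v‖ ^ 2 * s) := by
    filter_upwards [h1, g1] with s hs1 hs2
    have h4 : HasDerivAt (fun s : ℝ => ℓ (U (w + s • v)) + K * ‖w + s • v - z1‖ ^ 2)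
        (ℓ (fderiv ℝ U (w + s • v) v) + K * (B + 2 * ‖v‖ ^ 2 * s)) s :=
      (ℓ.hasFDerivAt.comp_hasDerivAt s hs2).add (hqd s)
    exact hs1.unique h4
  have h5 : HasDerivAt (fun s : ℝ => ℓ (fderiv ℝ U (w + s • v) v) + K * (B + 2 * ‖v‖ ^ 2 * s))
      (ℓ (fderiv ℝ (fderiv ℝ U) w v v) + 2 * K * ‖v‖ ^ 2) 0 := by
    have e1 : HasDerivAt (fun s : ℝ => K * (B + 2 * ‖v‖ ^ 2 * s)) (2 * K * ‖v‖ ^ 2) 0 := by
      exact ((((hasDerivAt_id (0 : ℝ)).const_mul (2 * ‖v‖ ^ 2)).const_add B).const_mul K).congr_deriv (by ring)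
    exact (ℓ.hasFDerivAt.comp_hasDerivAt (0 : ℝ) g2).add e1
  have h6 := h5.congr_of_eventuallyEq h3
  exact h2.unique h6

lemma bilin {G : ℂ →L[ℝ] (ℂ →L[ℝ] ℂ)} (v : ℂ) :
    G v v + G (Complex.I • v) (Complex.I • v) = ((‖v‖ ^ 2 : ℝ) : ℂ) * (G 1 1 + G Complex.I Complex.I) := by
  have hv : v = v.re • (1 : ℂ) + v.im • Complex.I := by
    apply Complex.ext <;> simp
  have hv2 : Complex.I • v = (-v.im) • (1 : ℂ) + v.re • Complex.I := by
    apply Complex.ext <;> simp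
  have hn : ‖v‖ ^ 2 = v.re ^ 2 + v.im ^ 2 := by
    rw [← Complex.normSq_eq_norm_sq, Complex.normSq_apply]; ring
  have key : ∀ a b : ℝ, G (a • (1 : ℂ) + b • Complex.I) (a • (1 : ℂ) + b • Complex.I) +
      G ((-b) • (1 : ℂ) + a • Complex.I) ((-b) • (1 : ℂ) + a • Complex.I) =
      ((a ^ 2 + b ^ 2 : ℝ) : ℂ) * (G 1 1 + G Complex.I Complex.I) := by
    intro a b
    simp only [map_add, map_smul, add_apply, smul_apply]
    simp only [Complex.real_smul]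
    push_cast
    ring
  rw [hv2, hn, ← key]
  rw [← hv]

/-- the Levi form of `ℓ (U w) + K ‖w - z1‖ ^ 2` is nonnegative if the Laplacian of `U` is at most `4 K` -/
lemma lev_nonneg {U : ℂ → ℂ} {w : ℂ} (hU : ContDiffAt ℝ 2 U w) (ℓ : ℂ →L[ℝ] ℝ) (hℓ : ∀ x, |ℓ x| ≤ ‖x‖)
    (z1 : ℂ) {K : ℝ}
    (hK : ‖deriv (deriv (fun t : ℝ => U (w + (t : ℂ)))) 0 +
      deriv (deriv (fun t : ℝ => U (w + (t : ℂ) * Complex.I))) 0‖ ≤ 4 * K) (v : ℂ) :
    0 ≤ lev (fun w => ℓ (U w) + K * ‖w - z1‖ ^ 2) w v := by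
  have e1 := deriv_line hU 1
  have e2 := deriv_line hU Complex.I
  simp only [Complex.real_smul, mul_one] at e1 e2
  rw [e1, e2] at hK
  unfold lev
  rw [second_line hU, second_line hU]
  have e3 : ℓ (fderiv ℝ (fderiv ℝ U) w v v) + ℓ (fderiv ℝ (fderiv ℝ U) w (Complex.I • v) (Complex.I • v)) =
      ‖v‖ ^ 2 * ℓ (fderiv ℝ (fderiv ℝ U) w 1 1 + fderiv ℝ (fderiv ℝ U) w Complex.I Complex.I) := by
    rw [← map_add, bilin, ← Complex.real_smul, map_smul, smul_eq_mul]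
  have e4 : ‖Complex.I • v‖ = ‖v‖ := by simp
  rw [e4]
  have e5 := (abs_le.1 ((hℓ (fderiv ℝ (fderiv ℝ U) w 1 1 + fderiv ℝ (fderiv ℝ U) w Complex.I Complex.I)).trans hK)).1
  have e6 : 0 ≤ ‖v‖ ^ 2 := by positivity
  nlinarith [mul_le_mul_of_nonneg_left e5 e6]

end Pool.Agent.Q30.HP
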