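import Pool.Agent.Q30.HP.Polar
import Pool.Agent.Q30.HP.Lev

/-!
# The mean value inequality for functions with a small Laplacian
-/

set_option autoImplicit false

open Filter Topology MeasureTheory Metric Real
open scoped ENNReal ComplexConjugate

namespace Pool.Agent.Q30.HP

open Pool.Agent.Q176.MA (lev sub_mean)

/-- the Laplacian along the coordinate directions -/
noncomputable def LL (U : ℂ → ℂ) (w : ℂ) : ℂ :=
  deriv (deriv (fun t : ℝ => U (w + (t : ℂ)))) 0 + deriv (deriv (fun t : ℝ => U (w + (t : ℂ) * Complex.I))) 0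

/-- the real part after rotation -/
noncomputable def rot (a : ℂ) : ℂ →L[ℝ] ℝ :=
  Complex.reCLM.comp ((ContinuousLinearMap.mul ℂ ℂ (conj a / (‖a‖ : ℂ))).restrictScalars ℝ)

lemma rot_apply (a x : ℂ) : rot a x = (conj a / (‖a‖ : ℂ) * x).re := rfl

lemma rot_le (a x : ℂ) : |rot a x| ≤ ‖x‖ := by
  rw [rot_apply]
  refine (Complex.abs_re_le_norm _).trans ?_
  rw [norm_mul, norm_div, RCLike.norm_conj, Complex.norm_real, norm_norm]
  have : ‖a‖ / ‖a‖ ≤ 1 := div_self_le_one _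
  nlinarith [norm_nonneg x]

lemma rot_self {a : ℂ} (ha : a ≠ 0) : rot a a = ‖a‖ := by
  rw [rot_apply, div_mul_eq_mul_div, Complex.conj_mul']
  have h : (‖a‖ : ℂ) ≠ 0 := by simpa using ha
  rw [sq, mul_div_assoc, div_self h, mul_one, Complex.ofReal_re]

lemma step {U : ℂ → ℂ} {z1 : ℂ} {r1 κ : ℝ} (hr1 : 0 < r1) (hκ0 : 0 ≤ κ) (hκ : κ * (r1 / 4) ^ 2 ≤ 1 / 2)
    (hU : ContDiffOn ℝ 2 U (ball z1 (r1 / 2))) (hz1 : U z1 ≠ 0)
    (hsup : ∀ w ∈ ball z1 (r1 / 2), ‖U w‖ ≤ 4 * ‖U z1‖)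
    (hL : ∀ w ∈ ball z1 (r1 / 2), ‖LL U w‖ ≤ κ * ‖U w‖) :
    ENNReal.ofReal (π * (‖U z1‖ / 2) * (r1 / 4) ^ 2) ≤ ∫⁻ z in ball z1 (r1 / 4), ENNReal.ofReal ‖U z‖ := by
  have hsub : ball z1 (r1 / 4) ⊆ ball z1 (r1 / 2) := ball_subset_ball (by linarith)
  apply polar_ge (by positivity) ((hU.continuousOn.mono hsub).norm) (fun z => norm_nonneg _) (by positivity)
  intro r hr0 hr
  set K : ℝ := κ * ‖U z1‖ with hK
  set f : ℂ → ℝ := fun w => rot (U z1) (U w) + K * ‖w - z1‖ ^ 2 with hf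
  have hfc : ContDiffOn ℝ 2 f (ball z1 (r1 / 2)) := by
    apply ContDiffOn.add
    · exact (rot (U z1)).contDiff.comp_contDiffOn hU
    · apply ContDiffOn.mul contDiffOn_const
      exact ((contDiff_norm_sq ℝ).comp (contDiff_id.sub contDiff_const)).contDiffOn
  have hlev : ∀ w ∈ ball z1 (r1 / 2), ∀ v, 0 ≤ lev f w v := by
    intro w hw v
    apply lev_nonneg (hU.contDiffAt (isOpen_ball.mem_nhds hw)) _ (rot_le _)
    have h1 := hL w hw
    have h2 := hsup w hw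
    unfold LL at h1
    calc _ ≤ κ * ‖U w‖ := h1
      _ ≤ κ * (4 * ‖U z1‖) := by gcongr
      _ = 4 * K := by rw [hK]; ring
  have hmean := sub_mean (f := f) isOpen_ball hfc hlev (z := z1) (ξ := (r : ℂ)) (by
    intro l hl
    rw [mem_ball, dist_eq_norm, add_sub_cancel_left, norm_smul, Complex.norm_real, norm_of_nonneg hr0.le]
    nlinarith)
  have hf1 : f z1 = ‖U z1‖ := by
    simp only [hf, rot_self hz1, sub_self, norm_zero]
    ring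
  rw [hf1] at hmean
  have hmem : ∀ θ : ℝ, circleMap z1 r θ ∈ ball z1 (r1 / 2) := by
    intro θ
    rw [mem_ball, dist_eq_norm, circleMap_sub_center, norm_circleMap_zero, abs_of_pos hr0]
    linarith
  have hcU : Continuous fun θ => U (circleMap z1 r θ) :=
    hU.continuousOn.comp_continuous (continuous_circleMap z1 r) hmem
  have hle : circleAverage (fun l : ℂ => f (z1 + l • (r : ℂ))) 0 1 ≤ circleAverage (fun z => ‖U z‖) z1 r + K * r ^ 2 := by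
    unfold circleAverage
    have e1 : ∀ θ : ℝ, f (z1 + circleMap 0 1 θ • (r : ℂ)) = rot (U z1) (U (circleMap z1 r θ)) + K * r ^ 2 := by
      intro θ
      have e : z1 + circleMap 0 1 θ • (r : ℂ) = circleMap z1 r θ := by
        unfold circleMap
        simp
        ring
      simp only [hf, e]
      congr 2
      rw [circleMap_sub_center, norm_circleMap_zero, sq_abs]
    simp_rw [e1]
    have h3 : ∫ θ in (0 : ℝ)..2 * π, (rot (U z1) (U (circleMap z1 r θ)) + K * r ^ 2) ≤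
        ∫ θ in (0 : ℝ)..2 * π, (‖U (circleMap z1 r θ)‖ + K * r ^ 2) := by
      apply intervalIntegral.integral_mono_on (by positivity)
      · apply Continuous.intervalIntegrable
        exact ((rot (U z1)).continuous.comp hcU).add continuous_const
      · apply Continuous.intervalIntegrable
        exact hcU.norm.add continuous_const
      · intro θ _
        have := (abs_le.1 (rot_le (U z1) (U (circleMap z1 r θ)))).2
        linarith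
    rw [intervalIntegral.integral_add (hcU.norm.intervalIntegrable _ _) (continuous_const.intervalIntegrable _ _),
      intervalIntegral.integral_const] at h3
    simp only [smul_eq_mul, sub_zero] at h3 ⊢
    have hp : 0 < 2 * π := by positivity
    calc _ ≤ (2 * π)⁻¹ * ((∫ θ in (0 : ℝ)..2 * π, ‖U (circleMap z1 r θ)‖) + 2 * π * (K * r ^ 2)) := by gcongr
      _ = _ := by field_simp
  have h4 : K * r ^ 2 ≤ ‖U z1‖ / 2 := by
    have h5 : r ^ 2 ≤ (r1 / 4) ^ 2 := by gcongr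
    calc K * r ^ 2 = ‖U z1‖ * (κ * r ^ 2) := by rw [hK]; ring
      _ ≤ ‖U z1‖ * (1 / 2) := by
          gcongr
          exact (mul_le_mul_of_nonneg_left h5 hκ0).trans hκ
      _ = ‖U z1‖ / 2 := by ring
  linarith

/-- the maximum of `(ρ - |z - z0|) ^ 2 |U z|` -/
theorem core {U : ℂ → ℂ} {z0 : ℂ} {ρ κ : ℝ} (hρ : 0 < ρ) (hκ0 : 0 ≤ κ) (hκ : κ * ρ ^ 2 ≤ 8)
    (hU : ContDiffOn ℝ 2 U (ball z0 ρ)) (hUc : ContinuousOn U (closedBall z0 ρ))
    (hL : ∀ w ∈ ball z0 ρ, ‖LL U w‖ ≤ κ * ‖U w‖) (hz0 : U z0 ≠ 0) :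
    ∃ (z1 : ℂ) (r1 : ℝ), 0 < r1 ∧ ball z1 r1 ⊆ ball z0 ρ ∧ ρ ^ 2 * ‖U z0‖ ≤ r1 ^ 2 * ‖U z1‖ ∧
      ‖U z0‖ ≤ ‖U z1‖ ∧ (∀ w ∈ ball z1 (r1 / 2), ‖U w‖ ≤ 4 * ‖U z1‖) ∧
      ENNReal.ofReal (π * (‖U z1‖ / 2) * (r1 / 4) ^ 2) ≤ ∫⁻ z in ball z1 (r1 / 4), ENNReal.ofReal ‖U z‖ := by
  have hcomp : IsCompact (closedBall z0 ρ) := isCompact_closedBall z0 ρ
  have hg : ContinuousOn (fun z => (ρ - ‖z - z0‖) ^ 2 * ‖U z‖) (closedBall z0 ρ) := by
    apply ContinuousOn.mul _ hUc.norm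
    fun_prop
  obtain ⟨z1, hz1, hmax⟩ := hcomp.exists_isMaxOn ⟨z0, mem_closedBall_self hρ.le⟩ hg
  have h0 := hmax (mem_closedBall_self hρ.le)
  simp only [Set.mem_ofPred_eq, sub_self, norm_zero, sub_zero] at h0
  set r1 : ℝ := ρ - ‖z1 - z0‖ with hr1
  have hz1' : ‖z1 - z0‖ ≤ ρ := by rwa [mem_closedBall, dist_eq_norm] at hz1
  have hU0 : 0 < ‖U z0‖ := norm_pos_iff.2 hz0
  have hr1pos : 0 < r1 := by
    rcases (sub_nonneg.2 hz1').lt_or_eq with h | h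
    · exact h
    · exfalso
      have : r1 = 0 := h.symm
      rw [this] at h0
      have : 0 < ρ ^ 2 * ‖U z0‖ := by positivity
      nlinarith
  have hr1le : r1 ≤ ρ := by rw [hr1]; linarith [norm_nonneg (z1 - z0)]
  have hsub : ball z1 r1 ⊆ ball z0 ρ := by
    intro w hw
    rw [mem_ball, dist_eq_norm] at hw ⊢
    calc ‖w - z0‖ = ‖(w - z1) + (z1 - z0)‖ := by ring_nf
      _ ≤ ‖w - z1‖ + ‖z1 - z0‖ := norm_add_le _ _
      _ < ρ := by rw [hr1] at hw; linarith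
  have hsub2 : ball z1 (r1 / 2) ⊆ ball z0 ρ := (ball_subset_ball (by linarith)).trans hsub
  have hU1 : ‖U z0‖ ≤ ‖U z1‖ := by
    have h1 : r1 ^ 2 ≤ ρ ^ 2 := by gcongr
    have h2 : r1 ^ 2 * ‖U z1‖ ≤ ρ ^ 2 * ‖U z1‖ := by gcongr
    have h3 : ρ ^ 2 * ‖U z0‖ ≤ ρ ^ 2 * ‖U z1‖ := h0.trans h2
    exact le_of_mul_le_mul_left h3 (by positivity)
  have hz1ne : U z1 ≠ 0 := norm_pos_iff.1 (lt_of_lt_of_le hU0 hU1)
  have hsup : ∀ w ∈ ball z1 (r1 / 2), ‖U w‖ ≤ 4 * ‖U z1‖ := by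
    intro w hw
    have hw2 := hsub2 hw
    have h1 := hmax (ball_subset_closedBall hw2)
    simp only [Set.mem_ofPred_eq] at h1
    rw [mem_ball, dist_eq_norm] at hw
    have h2 : r1 / 2 ≤ ρ - ‖w - z0‖ := by
      have : ‖w - z0‖ ≤ ‖w - z1‖ + ‖z1 - z0‖ := by
        calc ‖w - z0‖ = ‖(w - z1) + (z1 - z0)‖ := by ring_nf
          _ ≤ _ := norm_add_le _ _
      rw [hr1] at hw ⊢
      linarith
    have h3 : (r1 / 2) ^ 2 * ‖U w‖ ≤ (ρ - ‖w - z0‖) ^ 2 * ‖U w‖ := by gcongr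
    have h4 : (r1 / 2) ^ 2 * ‖U w‖ ≤ (r1 / 2) ^ 2 * (4 * ‖U z1‖) := by
      calc _ ≤ _ := h3
        _ ≤ r1 ^ 2 * ‖U z1‖ := h1
        _ = _ := by ring
    exact le_of_mul_le_mul_left h4 (by positivity)
  refine ⟨z1, r1, hr1pos, hsub, h0, hU1, hsup, ?_⟩
  apply step hr1pos hκ0 _ (hU.mono hsub2) hz1ne hsup (fun w hw => hL w (hsub2 hw))
  have h5 : (r1 / 4) ^ 2 ≤ (ρ / 4) ^ 2 := by gcongr
  calc κ * (r1 / 4) ^ 2 ≤ κ * (ρ / 4) ^ 2 := by gcongr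
    _ = κ * ρ ^ 2 / 16 := by ring
    _ ≤ 1 / 2 := by linarith

/-- **The mean value inequality.** -/
theorem mvi {U : ℂ → ℂ} {z0 : ℂ} {ρ κ : ℝ} (hρ : 0 < ρ) (hκ0 : 0 ≤ κ) (hκ : κ * ρ ^ 2 ≤ 8)
    (hU : ContDiffOn ℝ 2 U (ball z0 ρ)) (hUc : ContinuousOn U (closedBall z0 ρ))
    (hL : ∀ w ∈ ball z0 ρ, ‖LL U w‖ ≤ κ * ‖U w‖) :
    ENNReal.ofReal (π / 32 * ρ ^ 2 * ‖U z0‖) ≤ ∫⁻ z in ball z0 ρ, ENNReal.ofReal ‖U z‖ := by
  by_cases hz0 : U z0 = 0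
  · rw [hz0, norm_zero, mul_zero, ENNReal.ofReal_zero]
    exact zero_le
  obtain ⟨z1, r1, h1, h2, h3, -, -, h4⟩ := core hρ hκ0 hκ hU hUc hL hz0
  calc ENNReal.ofReal (π / 32 * ρ ^ 2 * ‖U z0‖) ≤ ENNReal.ofReal (π * (‖U z1‖ / 2) * (r1 / 4) ^ 2) := by
        apply ENNReal.ofReal_le_ofReal
        calc π / 32 * ρ ^ 2 * ‖U z0‖ = π / 32 * (ρ ^ 2 * ‖U z0‖) := by ring
          _ ≤ π / 32 * (r1 ^ 2 * ‖U z1‖) := by gcongr
          _ = _ := by ring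
    _ ≤ ∫⁻ z in ball z1 (r1 / 4), ENNReal.ofReal ‖U z‖ := h4
    _ ≤ ∫⁻ z in ball z0 ρ, ENNReal.ofReal ‖U z‖ :=
        lintegral_mono_set ((ball_subset_ball (by linarith)).trans h2)

end Pool.Agent.Q30.HP
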