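import Pool.Agent.Q30.HP.Form
import Pool.Agent.Q30.HP.Mvi

/-!
# The local bound for Maass forms in the fundamental domain
-/

set_option autoImplicit false

open MeasureTheory UpperHalfPlane Metric
open scoped MatrixGroups ENNReal

namespace Pool.Agent.Q30.HP

/-- the shifts -/
def sh : Fin 3 → ℤ := ![0, 1, -1]

/-- the maps for a neighbourhood of the fundamental domain -/
noncomputable def FD : Fin 3 × Fin 4 → Quad := fun i =>
  (![⟨1, -(sh i.1 : ℝ), 0, 1, by norm_num⟩, ⟨0, -1, 1, -(sh i.1 : ℝ), by norm_num⟩,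
    ⟨-1, (sh i.1 : ℝ) - 1, 1, -(sh i.1 : ℝ), by ring_nf; norm_num⟩,
    ⟨1, -(sh i.1 : ℝ) - 1, 1, -(sh i.1 : ℝ), by ring_nf; norm_num⟩] : Fin 4 → Quad) i.2

lemma caseS {U : ℂ → ℂ} (hI : Inv U) (τ : ℍ) (k : Fin 3) (hk : |τ.re - sh k| ≤ 1 / 2)
    (hU : U ((τ : ℂ) - (sh k : ℤ)) = U τ) (hy : 3 / 5 ≤ τ.im) :
    ∃ i, (FD i).gl • τ ∈ ModularGroup.fd ∧ U ↑((FD i).gl • τ) = U τ := by
  obtain ⟨s, hs⟩ : ∃ s : ℤ, s = sh k := ⟨_, rfl⟩
  rw [← hs] at hk hU
  set x := τ.re with hx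
  set y := τ.im with hy'
  obtain ⟨v, hv⟩ : ∃ v : ℝ, v = x - s := ⟨_, rfl⟩
  rw [← hv, abs_le] at hk
  obtain ⟨hv1, hv2⟩ := hk
  have him : 0 < ((τ : ℂ) - (s : ℤ)).im := by
    simp [τ.im_pos]
  have hne : (τ : ℂ) - (s : ℤ) ≠ 0 := by
    intro h; rw [h] at him; simp at him
  have hinv : U (-((τ : ℂ) - (s : ℤ))⁻¹) = U τ := (hI _ him).2.trans hU
  have him2 : 0 < (-((τ : ℂ) - (s : ℤ))⁻¹).im := by
    rw [Complex.neg_im, Complex.inv_im, neg_div, neg_neg]
    exact div_pos him (Complex.normSq_pos.2 hne)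
  have hxs : x = v + s := by rw [hv]; ring
  by_cases h1 : 1 ≤ v ^ 2 + y ^ 2
  · refine ⟨(k, 0), ?_, ?_⟩
    · apply Quad.mem_fd
      · simp only [FD, Quad.D, Matrix.cons_val, ← hx, ← hy', ← hs]
        rw [abs_le, hxs]
        constructor <;> nlinarith
      · simp only [FD, Quad.D, Matrix.cons_val, ← hx, ← hy', ← hs]
        rw [hxs]
        nlinarith
    · rw [Quad.coe_smul, ← hU]
      congr 1
      simp [FD, ← hs]
      ring
  push Not at h1
  by_cases h2 : |v| ≤ (v ^ 2 + y ^ 2) / 2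
  · rw [abs_le] at h2
    refine ⟨(k, 1), ?_, ?_⟩
    · apply Quad.mem_fd
      · simp only [FD, Quad.D, Matrix.cons_val, ← hx, ← hy', ← hs]
        rw [abs_le, hxs]
        constructor <;> nlinarith
      · simp only [FD, Quad.D, Matrix.cons_val, ← hx, ← hy', ← hs]
        rw [hxs]
        nlinarith
    · rw [Quad.coe_smul, ← hinv]
      congr 1
      simp [FD, ← hs]
      have : (τ : ℂ) + -(s : ℂ) ≠ 0 := by rw [← sub_eq_add_neg]; exact hne
      field_simp
      ring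
  · rcases le_or_gt 0 v with h0 | h0
    · rw [abs_of_nonneg h0] at h2
      refine ⟨(k, 3), ?_, ?_⟩
      · apply Quad.mem_fd
        · simp only [FD, Quad.D, Matrix.cons_val, ← hx, ← hy', ← hs]
          rw [abs_le, hxs]
          constructor <;> nlinarith [sq_nonneg (v - 1 / 3)]
        · simp only [FD, Quad.D, Matrix.cons_val, ← hx, ← hy', ← hs]
          rw [hxs]
          nlinarith
      · rw [Quad.coe_smul, ← hinv, ← (hI _ him2).1]
        congr 1
        simp [FD, ← hs]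
        have : (τ : ℂ) + -(s : ℂ) ≠ 0 := by rw [← sub_eq_add_neg]; exact hne
        field_simp
        ring
    · rw [abs_of_neg h0] at h2
      refine ⟨(k, 2), ?_, ?_⟩
      · apply Quad.mem_fd
        · simp only [FD, Quad.D, Matrix.cons_val, ← hx, ← hy', ← hs]
          rw [abs_le, hxs]
          constructor <;> nlinarith [sq_nonneg (v + 1 / 3)]
        · simp only [FD, Quad.D, Matrix.cons_val, ← hx, ← hy', ← hs]
          rw [hxs]
          nlinarith
      · rw [Quad.coe_smul, ← hinv, ← hI.sub_one him2]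
        congr 1
        simp [FD, ← hs]
        have : (τ : ℂ) + -(s : ℂ) ≠ 0 := by rw [← sub_eq_add_neg]; exact hne
        field_simp
        ring

lemma caseD {U : ℂ → ℂ} (hI : Inv U) (τ : ℍ) (hx : |τ.re| ≤ 3 / 4) (hy : 3 / 5 ≤ τ.im) :
    ∃ i, (FD i).gl • τ ∈ ModularGroup.fd ∧ U ↑((FD i).gl • τ) = U τ := by
  rw [abs_le] at hx
  rcases le_or_gt τ.re (-(1 / 2)) with h1 | h1
  · apply caseS hI τ 2 _ _ hy
    · simp [sh, abs_le]; constructor <;> linarith
    · simp [sh]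
      exact (hI _ τ.im_pos).1
  · rcases le_or_gt τ.re (1 / 2) with h2 | h2
    · apply caseS hI τ 0 _ _ hy
      · simp [sh, abs_le]; constructor <;> linarith
      · simp [sh]
    · apply caseS hI τ 1 _ _ hy
      · simp [sh, abs_le]; constructor <;> linarith
      · simp [sh]
        exact hI.sub_one τ.im_pos

/-- **The local bound.** -/
theorem local_bound {U : ℂ → ℂ} {T : ℝ} (hT : 1 ≤ T) (hI : Inv U) (hU : ContDiffOn ℝ 2 U {z : ℂ | 0 < z.im})
    (hE : ∀ z : ℂ, 0 < z.im → -((z.im : ℂ)) ^ 2 * LL U z = (1 / 4 + (T : ℂ) ^ 2) * U z)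
    (hn : ∫⁻ τ in ModularGroup.fd, ‖U τ‖ₑ ^ 2 = 1) {z : ℂ} (hz : z ∈ FF) : ‖U z‖ ≤ 600 * T * z.im := by
  obtain ⟨h1, h2, h3⟩ := hz
  set y := z.im with hy
  have hT0 : 0 < T := by linarith
  have hy1 : 17 / 20 ≤ y := by
    have h4 : 1 ≤ ‖z‖ ^ 2 := by nlinarith
    rw [← Complex.normSq_eq_norm_sq, Complex.normSq_apply] at h4
    rw [abs_le] at h2
    nlinarith
  set ρ : ℝ := 1 / (4 * T) with hρ
  have hρ0 : 0 < ρ := by positivity
  have hρ1 : ρ ≤ 1 / 4 := by
    rw [hρ, div_le_div_iff₀ (by positivity) (by norm_num)]; linarith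
  have hw : ∀ w ∈ closedBall z ρ, 3 / 5 ≤ w.im ∧ |w.re| ≤ 3 / 4 ∧ w.im ≤ 13 / 10 * y := by
    intro w hw
    rw [mem_closedBall, dist_eq_norm] at hw
    have e1 := (Complex.abs_re_le_norm (w - z)).trans (hw.trans hρ1)
    have e2 := (Complex.abs_im_le_norm (w - z)).trans (hw.trans hρ1)
    rw [Complex.sub_re, abs_le] at e1
    rw [Complex.sub_im, abs_le] at e2
    rw [abs_le] at h2 ⊢
    refine ⟨by linarith, ⟨by linarith, by linarith⟩, by linarith⟩
  have hsub : ball z ρ ⊆ {z : ℂ | 0 < z.im} := by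
    intro w hw'
    have := (hw w (ball_subset_closedBall hw')).1
    show 0 < w.im
    linarith
  have hsub2 : closedBall z ρ ⊆ {z : ℂ | 0 < z.im} := by
    intro w hw'
    have := (hw w hw').1
    show 0 < w.im
    linarith
  set lam : ℝ := 1 / 4 + T ^ 2 with hlam
  have hL : ∀ w ∈ ball z ρ, ‖LL U w‖ ≤ (25 / 9 * lam) * ‖U w‖ := by
    intro w hw'
    have e1 := (hw w (ball_subset_closedBall hw')).1
    have e2 := congrArg norm (hE w (hsub hw'))
    rw [norm_mul, norm_mul, norm_neg, norm_pow, Complex.norm_real] at e2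
    have e3 : ‖(1 / 4 + (T : ℂ) ^ 2)‖ = lam := by
      have : (1 / 4 + (T : ℂ) ^ 2) = ((lam : ℝ) : ℂ) := by rw [hlam]; push_cast; ring
      rw [this, Complex.norm_real, Real.norm_of_nonneg (by positivity)]
    rw [e3, Real.norm_of_nonneg (by linarith)] at e2
    have e4 : 9 / 25 ≤ w.im ^ 2 := by nlinarith
    nlinarith [norm_nonneg (LL U w), mul_le_mul_of_nonneg_right e4 (norm_nonneg (LL U w))]
  have hκ : 25 / 9 * lam * ρ ^ 2 ≤ 8 := by
    have e1 : ρ ^ 2 = 1 / (16 * T ^ 2) := by rw [hρ]; field_simp; norm_num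
    rw [e1, mul_one_div, div_le_iff₀ (by positivity), hlam]
    nlinarith
  have hm := mvi hρ0 (by positivity) hκ (hU.mono hsub) (hU.continuousOn.mono hsub2) hL
  -- the mass of the ball
  have hcont := hU.continuousOn
  have hmeas : Measurable fun τ : ℍ => U τ :=
    (hcont.comp_continuous (by fun_prop) fun τ : ℍ => τ.im_pos).measurable
  have hφ : Measurable fun τ : ℍ => ‖U τ‖ₑ ^ 2 := hmeas.enorm.pow_const 2
  set A : Set ℍ := UpperHalfPlane.coe ⁻¹' ball z ρ with hA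
  have hAm : MeasurableSet A := measurable_coe measurableSet_ball
  have himg : UpperHalfPlane.coe '' A = ball z ρ := by
    ext w
    constructor
    · rintro ⟨τ, hτ, rfl⟩; exact hτ
    · intro hw'
      exact ⟨⟨w, hsub hw'⟩, hw', rfl⟩
  have hmass : ∫⁻ τ in A, ‖U τ‖ₑ ^ 2 ≤ 12 := by
    have := fam_gen FD (χ := fun τ : ℍ => ‖U τ‖ₑ ^ 2) hφ hAm (fun τ hτ => by
      obtain ⟨e1, e2, _⟩ := hw τ (ball_subset_closedBall hτ)
      obtain ⟨i, hi, hi2⟩ := caseD hI τ e2 e1
      exact ⟨i, hi, by rw [hi2]⟩)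
    rw [hn, mul_one] at this
    refine this.trans (le_of_eq ?_)
    simp
  rw [lint_gen (f := fun z => ‖U z‖ₑ ^ 2) hφ hAm, himg] at hmass
  have hmass2 : ∫⁻ w in ball z ρ, ‖U w‖ₑ ^ 2 ≤ ENNReal.ofReal (24 * y ^ 2) := by
    calc ∫⁻ w in ball z ρ, ‖U w‖ₑ ^ 2
        ≤ ∫⁻ w in ball z ρ, ENNReal.ofReal (2 * y ^ 2) * (‖U w‖ₑ ^ 2 * ENNReal.ofReal (1 / w.im ^ 2)) := by
          apply setLIntegral_mono' measurableSet_ball
          intro w hw'
          obtain ⟨e1, _, e2⟩ := hw w (ball_subset_closedBall hw')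
          have e3 : (1 : ℝ≥0∞) ≤ ENNReal.ofReal (2 * y ^ 2) * ENNReal.ofReal (1 / w.im ^ 2) := by
            rw [← ENNReal.ofReal_mul (by positivity), ← ENNReal.ofReal_one]
            apply ENNReal.ofReal_le_ofReal
            have hpos : 0 < w.im ^ 2 := by positivity
            rw [mul_one_div, le_div_iff₀ hpos]
            nlinarith
          calc ‖U w‖ₑ ^ 2 = ‖U w‖ₑ ^ 2 * 1 := by rw [mul_one]
            _ ≤ ‖U w‖ₑ ^ 2 * (ENNReal.ofReal (2 * y ^ 2) * ENNReal.ofReal (1 / w.im ^ 2)) := by gcongr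
            _ = _ := by ring
      _ = ENNReal.ofReal (2 * y ^ 2) * ∫⁻ w in ball z ρ, (‖U w‖ₑ ^ 2 * ENNReal.ofReal (1 / w.im ^ 2)) := by
          rw [lintegral_const_mul' _ _ ENNReal.ofReal_ne_top]
      _ ≤ ENNReal.ofReal (2 * y ^ 2) * 12 := by gcongr
      _ = ENNReal.ofReal (24 * y ^ 2) := by
          have : (12 : ℝ≥0∞) = ENNReal.ofReal 12 := by norm_num
          rw [this, ← ENNReal.ofReal_mul (by positivity)]
          congr 1
          ring
  set t : ℝ := ρ / y with ht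
  have hy0 : 0 < y := by linarith
  have ht0 : 0 < t := by positivity
  have hfin : ∫⁻ w in ball z ρ, ENNReal.ofReal ‖U w‖ ≤ ENNReal.ofReal (12 * ρ * y + Real.pi / 2 * ρ * y) := by
    calc ∫⁻ w in ball z ρ, ENNReal.ofReal ‖U w‖
        ≤ ∫⁻ w in ball z ρ, (ENNReal.ofReal (t / 2) * ‖U w‖ₑ ^ 2 + ENNReal.ofReal (1 / (2 * t))) := by
          apply lintegral_mono
          intro w
          show ENNReal.ofReal ‖U w‖ ≤ ENNReal.ofReal (t / 2) * ‖U w‖ₑ ^ 2 + ENNReal.ofReal (1 / (2 * t))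
          rw [← ofReal_norm (U w), ← ENNReal.ofReal_pow (norm_nonneg _), ← ENNReal.ofReal_mul (by positivity),
            ← ENNReal.ofReal_add (by positivity) (by positivity)]
          apply ENNReal.ofReal_le_ofReal
          have e1 : 0 ≤ (t * ‖U w‖ - 1) ^ 2 / (2 * t) := by positivity
          have e2 : (t * ‖U w‖ - 1) ^ 2 / (2 * t) = t / 2 * ‖U w‖ ^ 2 + 1 / (2 * t) - ‖U w‖ := by
            field_simp
            ring
          linarith
      _ = ENNReal.ofReal (t / 2) * (∫⁻ w in ball z ρ, ‖U w‖ₑ ^ 2) + ENNReal.ofReal (1 / (2 * t)) * volume (ball z ρ) := by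
          rw [lintegral_add_right _ measurable_const, lintegral_const_mul' _ _ ENNReal.ofReal_ne_top,
            lintegral_const, Measure.restrict_apply_univ]
      _ ≤ ENNReal.ofReal (t / 2) * ENNReal.ofReal (24 * y ^ 2) +
          ENNReal.ofReal (1 / (2 * t)) * ENNReal.ofReal (Real.pi * ρ ^ 2) := by
          gcongr
          rw [Complex.volume_ball]
          apply le_of_eq
          rw [ENNReal.ofReal_mul Real.pi_pos.le, ENNReal.ofReal_pow hρ0.le, mul_comm]
          congr 1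
          rw [ENNReal.ofReal, ENNReal.coe_inj]
          ext
          rw [Real.coe_toNNReal _ Real.pi_pos.le]
          rfl
      _ = _ := by
          rw [← ENNReal.ofReal_mul (by positivity), ← ENNReal.ofReal_mul (by positivity),
            ← ENNReal.ofReal_add (by positivity) (by positivity)]
          congr 1
          rw [ht]
          field_simp
          ring
  have hreal := (ENNReal.ofReal_le_ofReal_iff (by positivity)).1 (hm.trans hfin)
  have hpi : 3 < Real.pi := Real.pi_gt_three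
  have hpi2 : Real.pi < 3.1416 := Real.pi_lt_d4
  -- `π / 32 * ρ ^ 2 * ‖U z‖ ≤ (12 + π / 2) ρ y`
  have e1 : Real.pi / 32 * ρ * ‖U z‖ ≤ (12 + Real.pi / 2) * y := by
    have : ρ * (Real.pi / 32 * ρ * ‖U z‖) ≤ ρ * ((12 + Real.pi / 2) * y) := by nlinarith
    exact le_of_mul_le_mul_left this hρ0
  have e2 : ‖U z‖ = (4 * T) * (ρ * ‖U z‖) := by rw [hρ]; field_simp
  rw [e2]
  have e3 : 3 / 32 * (ρ * ‖U z‖) ≤ (12 + 3.1416 / 2) * y := by
    have : 0 ≤ ρ * ‖U z‖ := by positivity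
    nlinarith
  nlinarith

end Pool.Agent.Q30.HP
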