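import Pool.Agent.Q30.HP.Rep

/-!
# Integral matrices which nearly fix a point of the upper half-plane
-/

set_option autoImplicit false

open Finset

namespace Pool.Agent.Q30.HP

/-- the numerical form of near stabilisation for the polynomial `c X ^ 2 + e X + f` -/
structure Near (x y R η : ℝ) (c e f : ℤ) : Prop where
  h1 : |2 * (c : ℝ) * x + e| ≤ η
  h2 : |(f : ℝ) - c * (x ^ 2 + y ^ 2)| ≤ η * (y + |x|)
  h3 : |(c : ℝ)| * y ≤ 2 * R

lemma Near.of_mobius {a b c d : ℤ} {R ε : ℝ} (hR : 0 ≤ R) (hn : 0 < a * d - b * c)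
    (hnR : ((a * d - b * c : ℤ) : ℝ) ≤ R ^ 2) {z z' : ℂ} (hz : 0 < z.im) (hz' : 0 < z'.im)
    (hm : z' * (c * z + d) = a * z + b) (hε0 : 0 ≤ ε) (hε : ε ≤ 1 / 2)
    (hd : ‖z' - z‖ ^ 2 ≤ ε ^ 2 * (z.im * z'.im)) : Near z.re z.im R (ε * R) c (d - a) (-b) := by
  set n : ℝ := ((a * d - b * c : ℤ) : ℝ) with hndef
  have hn0 : 0 < n := by rw [hndef]; exact_mod_cast hn
  set x := z.re with hx
  set y := z.im with hy
  set D : ℂ := c * z + d with hD
  have hDre : D.re = c * x + d := by rw [hD]; simp [hx]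
  have hDim : D.im = c * y := by rw [hD]; simp [hy]
  have hDn : ‖D‖ ^ 2 = (c * x + d) ^ 2 + (c * y) ^ 2 := by
    rw [← Complex.normSq_eq_norm_sq, Complex.normSq_apply, hDre, hDim]; ring
  -- the imaginary part
  have hre := congrArg Complex.re hm
  have him := congrArg Complex.im hm
  rw [Complex.mul_re, hDre, hDim] at hre
  rw [Complex.mul_im, hDre, hDim] at him
  simp only [Complex.add_re, Complex.mul_re, Complex.intCast_re, Complex.intCast_im, zero_mul, sub_zero,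
    Complex.add_im, Complex.mul_im, add_zero] at hre him
  rw [← hx] at hre
  rw [← hy] at him
  have hkey : z'.im * ‖D‖ ^ 2 = n * y := by
    rw [hDn, hndef]; push_cast
    linear_combination (c * x + d) * him - c * y * hre
  have hDpos : 0 < ‖D‖ ^ 2 := by
    by_contra hc
    have h0 : ‖D‖ ^ 2 = 0 := le_antisymm (not_lt.1 hc) (sq_nonneg _)
    rw [h0, mul_zero] at hkey
    have := mul_pos hn0 hz
    linarith
  -- the polynomial
  set P : ℂ := (z - z') * D with hP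
  have hP2 : ‖P‖ ^ 2 ≤ (ε * R * y) ^ 2 := by
    rw [hP, norm_mul, mul_pow]
    have e1 : ‖z - z'‖ ^ 2 = ‖z' - z‖ ^ 2 := by rw [norm_sub_rev]
    rw [e1]
    calc ‖z' - z‖ ^ 2 * ‖D‖ ^ 2 ≤ ε ^ 2 * (y * z'.im) * ‖D‖ ^ 2 := by gcongr
      _ = ε ^ 2 * y * (z'.im * ‖D‖ ^ 2) := by ring
      _ = ε ^ 2 * y * (n * y) := by rw [hkey]
      _ ≤ ε ^ 2 * y * (R ^ 2 * y) := by gcongr
      _ = (ε * R * y) ^ 2 := by ring
  have hPn : ‖P‖ ≤ ε * R * y := by
    apply le_of_sq_le_sq hP2 (by positivity) |>.trans le_rfl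
  have hPe : P = c * z ^ 2 + (d - a) * z - b := by
    rw [hP, sub_mul, hm, hD]; ring
  have hPim : P.im = y * (2 * c * x + (d - a)) := by
    rw [hPe]
    simp only [Complex.sub_im, Complex.add_im, Complex.mul_im, Complex.intCast_re, Complex.intCast_im, pow_two,
      Complex.sub_re, zero_mul, sub_zero, add_zero, ← hx, ← hy]
    try ring
  have hPre : P.re = c * (x ^ 2 - y ^ 2) + (d - a) * x - b := by
    rw [hPe]
    simp only [Complex.sub_re, Complex.add_re, Complex.mul_re, Complex.intCast_re, Complex.intCast_im, pow_two,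
      Complex.sub_im, zero_mul, sub_zero, ← hx, ← hy]
    try ring
  have k1 : |2 * (c : ℝ) * x + ((d : ℝ) - a)| ≤ ε * R := by
    have h1 := (Complex.abs_im_le_norm P).trans hPn
    rw [hPim, abs_mul, abs_of_pos hz, mul_comm] at h1
    exact le_of_mul_le_mul_right h1 hz
  refine ⟨?_, ?_, ?_⟩
  · push_cast; exact k1
  · have h1 := (Complex.abs_re_le_norm P).trans hPn
    have e1 : ((-b : ℤ) : ℝ) - c * (x ^ 2 + y ^ 2) = P.re - x * (2 * c * x + (d - a)) := by
      rw [hPre]; push_cast; ring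
    rw [e1]
    calc |P.re - x * (2 * c * x + (d - a))| ≤ |P.re| + |x * (2 * c * x + (d - a))| := abs_sub _ _
      _ ≤ ε * R * y + |x| * (ε * R) := by
          rw [abs_mul]
          gcongr
      _ = ε * R * (y + |x|) := by ring
  · -- the bound for `c`
    have hy' : y / 2 ≤ z'.im := by
      by_contra hc
      push Not at hc
      have h1 : (z'.im - y) ^ 2 ≤ ‖z' - z‖ ^ 2 := by
        have := Complex.abs_im_le_norm (z' - z)
        rw [Complex.sub_im] at this
        rw [← sq_abs]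
        gcongr
      have h2 : ε ^ 2 * (y * z'.im) ≤ (1 / 2) ^ 2 * (y * z'.im) := by gcongr
      nlinarith [mul_pos hz hz']
    have h2 : ‖D‖ ^ 2 ≤ 2 * R ^ 2 := by
      have : y / 2 * ‖D‖ ^ 2 ≤ n * y := by rw [← hkey]; gcongr
      have h3 : y * ‖D‖ ^ 2 ≤ y * (2 * R ^ 2) := by nlinarith
      exact le_of_mul_le_mul_left h3 hz
    have h3 : (|(c : ℝ)| * y) ^ 2 ≤ (2 * R) ^ 2 := by
      rw [mul_pow, sq_abs]
      nlinarith [sq_nonneg ((c : ℝ) * x + d), sq_nonneg R]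
    exact abs_le_of_sq_le_sq' h3 (by positivity) |>.2

lemma Near.par {x y R η B : ℝ} {c e f c' e' f' : ℤ} (h : Near x y R η c e f) (h' : Near x y R η c' e' f')
    (hB : 1 ≤ B) (hR : 1 ≤ R) (hη : 0 ≤ η) (hy : 1 / B ≤ y) (hy2 : y ≤ B) (hx : |x| ≤ B) (hs : 16 * R * B ^ 3 * η ≤ 1) :
    c * e' = c' * e ∧ c * f' = c' * f := by
  have hB0 : 0 < B := by linarith
  have hy0 : 0 < y := lt_of_lt_of_le (by positivity) hy
  have hc : |(c : ℝ)| ≤ 2 * R * B := by
    have := h.h3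
    have h2 : |(c : ℝ)| * (1 / B) ≤ 2 * R := le_trans (by gcongr) this
    rw [mul_one_div, div_le_iff₀ hB0] at h2
    exact h2
  have hc' : |(c' : ℝ)| ≤ 2 * R * B := by
    have := h'.h3
    have h2 : |(c' : ℝ)| * (1 / B) ≤ 2 * R := le_trans (by gcongr) this
    rw [mul_one_div, div_le_iff₀ hB0] at h2
    exact h2
  have hB3 : B ^ 2 ≤ B ^ 3 := pow_le_pow_right₀ hB (by norm_num)
  have hB1 : B ≤ B ^ 3 := by
    calc B = B ^ 1 := (pow_one B).symm
      _ ≤ B ^ 3 := pow_le_pow_right₀ hB (by norm_num)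
  have hRη : 0 ≤ R * η := by positivity
  constructor
  · have h1 : |((c * e' - c' * e : ℤ) : ℝ)| < 1 := by
      have e1 : ((c * e' - c' * e : ℤ) : ℝ) = c * (2 * c' * x + e') - c' * (2 * c * x + e) := by
        push_cast; ring
      rw [e1]
      calc |(c : ℝ) * (2 * c' * x + e') - c' * (2 * c * x + e)| ≤
          |(c : ℝ) * (2 * c' * x + e')| + |(c' : ℝ) * (2 * c * x + e)| := abs_sub _ _
        _ ≤ 2 * R * B * η + 2 * R * B * η := by
            rw [abs_mul, abs_mul]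
            gcongr
            · exact h'.h1
            · exact h.h1
        _ < 1 := by nlinarith [mul_le_mul_of_nonneg_left hB1 hRη]
    have h2 : |(c * e' - c' * e)| < 1 := by exact_mod_cast h1
    have := Int.abs_lt_one_iff.1 h2
    linarith
  · have h1 : |((c * f' - c' * f : ℤ) : ℝ)| < 1 := by
      have e1 : ((c * f' - c' * f : ℤ) : ℝ) = c * (f' - c' * (x ^ 2 + y ^ 2)) - c' * (f - c * (x ^ 2 + y ^ 2)) := by
        push_cast; ring
      rw [e1]
      have hyx : η * (y + |x|) ≤ η * (2 * B) := by gcongr; linarith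
      calc |(c : ℝ) * (f' - c' * (x ^ 2 + y ^ 2)) - c' * (f - c * (x ^ 2 + y ^ 2))| ≤
          |(c : ℝ) * (f' - c' * (x ^ 2 + y ^ 2))| + |(c' : ℝ) * (f - c * (x ^ 2 + y ^ 2))| := abs_sub _ _
        _ ≤ 2 * R * B * (η * (2 * B)) + 2 * R * B * (η * (2 * B)) := by
            rw [abs_mul, abs_mul]
            gcongr
            · exact h'.h2.trans hyx
            · exact h.h2.trans hyx
        _ < 1 := by nlinarith [mul_le_mul_of_nonneg_left hB3 hRη]
    have h2 : |(c * f' - c' * f)| < 1 := by exact_mod_cast h1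
    have := Int.abs_lt_one_iff.1 h2
    linarith

lemma Near.zero {x y R η B : ℝ} {e f : ℤ} (h : Near x y R η 0 e f)
    (hB : 1 ≤ B) (hR : 1 ≤ R) (hη : 0 ≤ η) (hy2 : y ≤ B) (hx : |x| ≤ B) (hs : 16 * R * B ^ 3 * η ≤ 1) :
    e = 0 ∧ f = 0 := by
  have hB3 : 1 ≤ B ^ 3 := one_le_pow₀ hB
  have hB1 : B ≤ B ^ 3 := by
    calc B = B ^ 1 := (pow_one B).symm
      _ ≤ B ^ 3 := pow_le_pow_right₀ hB (by norm_num)
  have hRη : 0 ≤ R * η := by positivity
  have hη1 : η ≤ R * η := by nlinarith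
  have h1 := h.h1
  have h2 := h.h2
  simp only [Int.cast_zero, mul_zero, zero_mul, zero_add, sub_zero] at h1 h2
  have hyx : η * (y + |x|) ≤ η * (2 * B) := by gcongr; linarith
  have k1 : |(e : ℝ)| < 1 := by nlinarith [mul_le_mul_of_nonneg_left hB3 hRη]
  have k2 : |(f : ℝ)| < 1 := by
    have : η * (2 * B) ≤ 2 * (R * η * B ^ 3) := by
      calc η * (2 * B) = 2 * (η * B) := by ring
        _ ≤ 2 * (R * η * B ^ 3) := by gcongr
    nlinarith
  have k1' : |e| < 1 := by exact_mod_cast k1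
  have k2' : |f| < 1 := by exact_mod_cast k2
  exact ⟨Int.abs_lt_one_iff.1 k1', Int.abs_lt_one_iff.1 k2'⟩

lemma Near.disc {x y R η B : ℝ} {c e f : ℤ} (h : Near x y R η c e f) (hc : c ≠ 0)
    (hB : 1 ≤ B) (hR : 1 ≤ R) (hη : 0 ≤ η) (hy : 1 / B ≤ y) (hy2 : y ≤ B) (hx : |x| ≤ B)
    (hs : 16 * R * B ^ 3 * η ≤ 1) : 0 < 4 * c * f - e ^ 2 := by
  have hB0 : 0 < B := by linarith
  have hy0 : 0 < y := lt_of_lt_of_le (by positivity) hy
  have hc1 : (1 : ℝ) ≤ |(c : ℝ)| := by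
    have : (1 : ℤ) ≤ |c| := Int.one_le_abs hc
    exact_mod_cast this
  set θ := 2 * (c : ℝ) * x + e with hθ
  set φ := (f : ℝ) - c * (x ^ 2 + y ^ 2) with hφ
  have e1 : (((4 * c * f - e ^ 2 : ℤ)) : ℝ) = 4 * c ^ 2 * y ^ 2 + 4 * c * φ + 4 * c * x * θ - θ ^ 2 := by
    rw [hφ, hθ]; push_cast; ring
  have hη' : η ≤ 1 / (16 * B ^ 3) := by
    rw [le_div_iff₀ (by positivity)]
    have : η * (16 * B ^ 3) ≤ 16 * R * B ^ 3 * η := by nlinarith [mul_nonneg hη (by positivity : (0:ℝ) ≤ B ^ 3)]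
    linarith
  have hφ' : |φ| ≤ η * (2 * B) := h.h2.trans (by gcongr; linarith)
  have hθ' : |θ| ≤ η := h.h1
  have hyB : 1 / B ^ 2 ≤ y ^ 2 := by
    calc 1 / B ^ 2 = (1 / B) ^ 2 := by ring
      _ ≤ y ^ 2 := by gcongr
  -- estimate from below
  have k1 : |4 * c * φ| ≤ 4 * |(c : ℝ)| * (η * (2 * B)) := by
    rw [abs_mul, abs_mul]
    have : |(4 : ℝ)| = 4 := by norm_num
    rw [this]; gcongr
  have k2 : |4 * c * x * θ| ≤ 4 * |(c : ℝ)| * B * η := by
    rw [abs_mul, abs_mul, abs_mul]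
    have : |(4 : ℝ)| = 4 := by norm_num
    rw [this]; gcongr
  have k3 : θ ^ 2 ≤ η ^ 2 := by
    rw [← sq_abs]; gcongr
  have k4 : (c : ℝ) ^ 2 = |(c : ℝ)| ^ 2 := (sq_abs _).symm
  have hηB : η * B ≤ 1 / (16 * B ^ 2) := by
    calc η * B ≤ 1 / (16 * B ^ 3) * B := by gcongr
      _ = 1 / (16 * B ^ 2) := by field_simp
  have hη2 : η ^ 2 ≤ 1 / (16 * B ^ 2) := by
    have h1 : η ≤ 1 := by
      refine hη'.trans ?_
      rw [div_le_one (by positivity)]
      have := one_le_pow₀ hB (n := 3)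
      linarith
    calc η ^ 2 = η * η := by ring
      _ ≤ η * B := by gcongr; linarith
      _ ≤ _ := hηB
  have hw : (0 : ℝ) < 1 / B ^ 2 := by positivity
  have hw2 : 1 / (16 * B ^ 2) = 1 / B ^ 2 / 16 := by field_simp
  rw [hw2] at hηB hη2
  set W := 1 / B ^ 2 with hW
  set C := |(c : ℝ)| with hC
  have k5 : C * W ≤ C ^ 2 * y ^ 2 := by
    calc C * W ≤ C ^ 2 * W := by
          apply mul_le_mul_of_nonneg_right _ hw.le
          nlinarith
      _ ≤ C ^ 2 * y ^ 2 := by gcongr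
  have k6 : 4 * C * (η * (2 * B)) ≤ 8 * C * (W / 16) := by
    calc 4 * C * (η * (2 * B)) = 8 * C * (η * B) := by ring
      _ ≤ _ := by gcongr
  have k7 : 4 * C * B * η ≤ 4 * C * (W / 16) := by
    calc 4 * C * B * η = 4 * C * (η * B) := by ring
      _ ≤ _ := by gcongr
  have k8 := abs_le.1 k1
  have k9 := abs_le.1 k2
  have k10 : W ≤ C * W := by nlinarith
  have hfin : (0 : ℝ) < ((4 * c * f - e ^ 2 : ℤ) : ℝ) := by
    rw [e1, k4]
    nlinarith
  exact_mod_cast hfin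

/-- a common direction of pairwise parallel integral vectors -/
lemma common_direction {c e f : ℤ} (hc : c ≠ 0) (hpos : 0 < 4 * c * f - e ^ 2) :
    ∃ c0 e0 f0 : ℤ, 1 ≤ 4 * c0 * f0 - e0 ^ 2 ∧ ∀ c' e' f' : ℤ, c * e' = c' * e → c * f' = c' * f →
      ∃ t : ℤ, c' = t * c0 ∧ e' = t * e0 ∧ f' = t * f0 := by
  set g1 : ℤ := (Int.gcd c e : ℤ) with hg1
  set g : ℤ := (Int.gcd g1 f : ℤ) with hg
  have hb1 : g1 = c * Int.gcdA c e + e * Int.gcdB c e := Int.gcd_eq_gcd_ab c e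
  have hb : g = g1 * Int.gcdA g1 f + f * Int.gcdB g1 f := Int.gcd_eq_gcd_ab g1 f
  have hg1c : g1 ∣ c := Int.gcd_dvd_left ..
  have hg1e : g1 ∣ e := Int.gcd_dvd_right ..
  have hgg1 : g ∣ g1 := Int.gcd_dvd_left ..
  have hgf : g ∣ f := Int.gcd_dvd_right ..
  obtain ⟨c0, hc0⟩ := hgg1.trans hg1c
  obtain ⟨e0, he0⟩ := hgg1.trans hg1e
  obtain ⟨f0, hf0⟩ := hgf
  have hgne : g ≠ 0 := by
    intro h0
    rw [h0, zero_mul] at hc0
    exact hc hc0
  have hc0ne : c0 ≠ 0 := by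
    intro h0
    rw [h0, mul_zero] at hc0
    exact hc hc0
  refine ⟨c0, e0, f0, ?_, ?_⟩
  · have h1 : g ^ 2 * (4 * c0 * f0 - e0 ^ 2) = 4 * c * f - e ^ 2 := by rw [hc0, he0, hf0]; ring
    have h2 : 0 < g ^ 2 := by positivity
    have h3 : 0 < 4 * c0 * f0 - e0 ^ 2 := by
      by_contra hcon
      push Not at hcon
      have := mul_nonpos_of_nonneg_of_nonpos h2.le hcon
      linarith
    omega
  · intro c' e' f' h1 h2
    set u := Int.gcdA c e * Int.gcdA g1 f with hu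
    set v := Int.gcdB c e * Int.gcdA g1 f with hv
    set w := Int.gcdB g1 f with hw
    have hbez : g = c * u + e * v + f * w := by
      rw [hu, hv, hw]
      linear_combination hb + Int.gcdA g1 f * hb1
    have hone : 1 = c0 * u + e0 * v + f0 * w := by
      have : g * 1 = g * (c0 * u + e0 * v + f0 * w) := by
        linear_combination hbez + u * hc0 + v * he0 + w * hf0
      exact mul_left_cancel₀ hgne this
    have h1' : c0 * e' = c' * e0 := by
      have : g * (c0 * e') = g * (c' * e0) := by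
        linear_combination h1 - e' * hc0 + c' * he0
      exact mul_left_cancel₀ hgne this
    have h2' : c0 * f' = c' * f0 := by
      have : g * (c0 * f') = g * (c' * f0) := by
        linear_combination h2 - f' * hc0 + c' * hf0
      exact mul_left_cancel₀ hgne this
    refine ⟨c' * u + e' * v + f' * w, ?_, ?_, ?_⟩
    · linear_combination c' * hone - v * h1' - w * h2'
    · apply mul_left_cancel₀ hc0ne
      linear_combination h1' + c' * e0 * hone - e0 * v * h1' - e0 * w * h2'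
    · apply mul_left_cancel₀ hc0ne
      linear_combination h2' + c' * f0 * hone - f0 * v * h1' - f0 * w * h2'

end Pool.Agent.Q30.HP
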