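import Mathlib

/-!
# A separated subset
-/

set_option autoImplicit false

open Finset

namespace Pool.Agent.Q30.HP

/-- if every element is near at most `R` elements, there is a large pairwise separated subset -/
theorem separated {α : Type*} (near : α → α → Prop) (hrefl : ∀ a, near a a) (hsymm : ∀ a b, near a b → near b a)
    (R : ℕ) : ∀ (n : ℕ) (S : Finset α), S.card ≤ n →
    (∀ a ∈ S, ∀ A : Finset α, A ⊆ S → (∀ b ∈ A, near a b) → A.card ≤ R) →
    ∃ P ⊆ S, S.card ≤ R * P.card ∧ ∀ a ∈ P, ∀ b ∈ P, a ≠ b → ¬ near a b := by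
  classical
  intro n
  induction n with
  | zero =>
    intro S hS _
    refine ⟨∅, empty_subset _, ?_, by simp⟩
    simpa using hS
  | succ n ih =>
    intro S hS h
    rcases S.eq_empty_or_nonempty with he | ⟨a, ha⟩
    · exact ⟨∅, empty_subset _, by simp [he], by simp⟩
    set A := S.filter (fun b => near a b) with hA
    have hAR : A.card ≤ R := h a ha A (filter_subset _ _) (fun b hb => (mem_filter.1 hb).2)
    have haA : a ∈ A := mem_filter.2 ⟨ha, hrefl a⟩
    set S' := S.filter (fun b => ¬ near a b) with hS'
    have hcard : A.card + S'.card = S.card := card_filter_add_card_filter_not _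
    have hA1 : 1 ≤ A.card := card_pos.2 ⟨a, haA⟩
    obtain ⟨P, hP, hP1, hP2⟩ := ih S' (by omega) (fun b hb B hB hBn =>
      h b (filter_subset _ _ hb) B (hB.trans (filter_subset _ _)) hBn)
    have haP : a ∉ P := fun h' => (mem_filter.1 (hP h')).2 (hrefl a)
    refine ⟨insert a P, ?_, ?_, ?_⟩
    · intro b hb
      rcases mem_insert.1 hb with h' | h'
      · rw [h']; exact ha
      · exact filter_subset _ _ (hP h')
    · rw [card_insert_of_notMem haP]
      nlinarith
    · intro b hb c hc hbc
      rcases mem_insert.1 hb with h1 | h1 <;> rcases mem_insert.1 hc with h2 | h2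
      · exact absurd (h1.trans h2.symm) hbc
      · rw [h1]; exact (mem_filter.1 (hP h2)).2
      · rw [h2]; exact fun h' => (mem_filter.1 (hP h1)).2 (hsymm _ _ h')
      · exact hP2 b h1 c h2 hbc

end Pool.Agent.Q30.HP
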