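import Mathlib

/-!
# The tree of the Hecke translates `(z + b) / 2 ^ k`: large values proliferate
-/

set_option autoImplicit false

open Finset

namespace Pool.Agent.Q30.HP

/-- the point `(z + b) / 2 ^ k` -/
noncomputable def pt (z : ℂ) (k b : ℕ) : ℂ := (z + b) / 2 ^ k

lemma pt_im (z : ℂ) (k b : ℕ) : (pt z k b).im = z.im / 2 ^ k := by
  unfold pt
  have h : ((2 : ℂ) ^ k) = ((2 ^ k : ℝ) : ℂ) := by push_cast; rfl
  rw [h, Complex.div_ofReal_im]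
  simp

/-- periodicity and the Hecke relation for the prime two -/
structure HeckeTwo (U : ℂ → ℂ) (c : ℂ) : Prop where
  per : ∀ z : ℂ, 0 < z.im → U (z + 1) = U z
  hecke : ∀ z : ℂ, 0 < z.im → U (2 * z) + U (z / 2) + U ((z + 1) / 2) = c * U z

lemma HeckeTwo.child {U : ℂ → ℂ} {c : ℂ} (h : HeckeTwo U c) {Q : ℝ} (hQ : 2 ≤ Q) (hc : ‖c‖ ≤ Q)
    {z : ℂ} (hz : 0 < z.im) {k b b1 : ℕ} {A : ℝ} (hA : 0 ≤ A) (hU : A ≤ ‖U (pt z k b)‖)
    (hb1 : b1 = b ∨ b1 = b + 2 ^ k) :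
    ∃ k' b' : ℕ, k + 1 ≤ k' ∧ k' ≤ k + 2 ∧ b' % 2 ^ (k + 1) = b1 % 2 ^ (k + 1) ∧ b' ≤ b1 + 2 ^ (k + 1) ∧
      (k' = k + 1 → b' = b1) ∧ A / (2 * Q) ≤ ‖U (pt z k' b')‖ := by
  set w := pt z (k + 1) b1 with hw
  have hwim : 0 < w.im := by rw [hw, pt_im]; positivity
  have hrel := h.hecke w hwim
  have e0 : U (2 * w) = U (pt z k b) := by
    have e : 2 * w = pt z k b1 := by
      rw [hw]; unfold pt; rw [pow_succ]; field_simp
    rw [e]
    rcases hb1 with h1 | h1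
    · rw [h1]
    · have e' : pt z k b1 = pt z k b + 1 := by
        rw [h1]; unfold pt; push_cast; field_simp
        ring
      rw [e']
      apply h.per
      rw [pt_im]; positivity
  have e1 : w / 2 = pt z (k + 2) b1 := by
    rw [hw]; unfold pt; rw [pow_succ (2:ℂ) (k+1)]; field_simp
  have e2 : (w + 1) / 2 = pt z (k + 2) (b1 + 2 ^ (k + 1)) := by
    rw [hw]; unfold pt; push_cast; rw [pow_succ (2:ℂ) (k+1)]; field_simp
    ring
  rw [e0, e1, e2] at hrel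
  have hQ0 : 0 < 2 * Q := by linarith
  by_cases hlarge : A / (2 * Q) ≤ ‖U w‖
  · exact ⟨k + 1, b1, le_refl _, by omega, rfl, Nat.le_add_right _ _, fun _ => rfl, hlarge⟩
  push Not at hlarge
  -- one of the two grandchildren is large
  have h1 : ‖c * U w‖ ≤ A / 2 := by
    rw [norm_mul]
    calc ‖c‖ * ‖U w‖ ≤ Q * (A / (2 * Q)) := by
          apply mul_le_mul hc hlarge.le (norm_nonneg _) (by linarith)
      _ = A / 2 := by field_simp
  have h2 : ‖U (pt z k b)‖ ≤ ‖c * U w‖ + (‖U (pt z (k + 2) b1)‖ + ‖U (pt z (k + 2) (b1 + 2 ^ (k + 1)))‖) := by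
    have e : U (pt z k b) = c * U w - (U (pt z (k + 2) b1) + U (pt z (k + 2) (b1 + 2 ^ (k + 1)))) := by
      rw [← hrel]; ring
    rw [e]
    calc _ ≤ ‖c * U w‖ + ‖U (pt z (k + 2) b1) + U (pt z (k + 2) (b1 + 2 ^ (k + 1)))‖ := norm_sub_le _ _
      _ ≤ _ := by gcongr; exact norm_add_le _ _
  have h3 : A / (2 * Q) ≤ A / 4 := by
    apply div_le_div_of_nonneg_left hA (by norm_num) (by linarith)
  rcases le_or_gt (A / 4) ‖U (pt z (k + 2) b1)‖ with h4 | h4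
  · exact ⟨k + 2, b1, by omega, le_refl _, rfl, Nat.le_add_right _ _, by omega, h3.trans h4⟩
  · refine ⟨k + 2, b1 + 2 ^ (k + 1), by omega, le_refl _, by simp, le_refl _, by omega, h3.trans ?_⟩
    linarith

/-- the set of large descendants -/
theorem HeckeTwo.tree {U : ℂ → ℂ} {c : ℂ} (h : HeckeTwo U c) {Q : ℝ} (hQ : 2 ≤ Q) (hc : ‖c‖ ≤ Q)
    {z : ℂ} (hz : 0 < z.im) (J : ℕ) : ∀ (k b : ℕ) (A : ℝ), 0 ≤ A → b < 2 ^ k → A ≤ ‖U (pt z k b)‖ →
    ∃ S : Finset (ℕ × ℕ), S.card = 2 ^ J ∧ ∀ v ∈ S, k ≤ v.1 ∧ v.1 ≤ k + 2 * J ∧ v.2 < 2 ^ v.1 ∧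
      v.2 % 2 ^ k = b ∧ A / (2 * Q) ^ J ≤ ‖U (pt z v.1 v.2)‖ := by
  classical
  induction J with
  | zero =>
    intro k b A hA hb hU
    refine ⟨{(k, b)}, by simp, ?_⟩
    intro v hv
    rw [mem_singleton] at hv
    rw [hv]
    simp only [pow_zero, div_one]
    exact ⟨le_refl _, by omega, hb, Nat.mod_eq_of_lt hb, hU⟩
  | succ J ih =>
    intro k b A hA hb hU
    have hQ0 : 0 < 2 * Q := by linarith
    have hstep : ∀ b1 : ℕ, (b1 = b ∨ b1 = b + 2 ^ k) → ∃ S : Finset (ℕ × ℕ), S.card = 2 ^ J ∧ ∀ v ∈ S,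
        k ≤ v.1 ∧ v.1 ≤ k + 2 * (J + 1) ∧ v.2 < 2 ^ v.1 ∧ v.2 % 2 ^ (k + 1) = b1 ∧
        A / (2 * Q) ^ (J + 1) ≤ ‖U (pt z v.1 v.2)‖ := by
      intro b1 hb1
      have hb1' : b1 < 2 ^ (k + 1) := by rw [pow_succ]; omega
      obtain ⟨k', b', h1, h2, h3, h4, h5, h6⟩ := h.child hQ hc hz hA hU hb1
      have hb'lt : b' < 2 ^ k' := by
        rcases Nat.lt_or_ge k' (k + 2) with hh | hh
        · have : k' = k + 1 := by omega
          rw [h5 this, this]; exact hb1'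
        · have : k' = k + 2 := by omega
          rw [this, pow_succ 2 (k + 1)]
          omega
      obtain ⟨S, hS, hS'⟩ := ih k' b' (A / (2 * Q)) (by positivity) hb'lt h6
      refine ⟨S, hS, fun v hv => ?_⟩
      obtain ⟨g1, g2, g3, g4, g5⟩ := hS' v hv
      refine ⟨by omega, by omega, g3, ?_, ?_⟩
      · have e1 : v.2 % 2 ^ (k + 1) = (v.2 % 2 ^ k') % 2 ^ (k + 1) :=
          (Nat.mod_mod_of_dvd _ (pow_dvd_pow 2 h1)).symm
        rw [e1, g4, h3, Nat.mod_eq_of_lt hb1']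
      · rw [pow_succ, mul_comm, ← div_div]
        exact g5
    obtain ⟨S1, c1, p1⟩ := hstep b (Or.inl rfl)
    obtain ⟨S2, c2, p2⟩ := hstep (b + 2 ^ k) (Or.inr rfl)
    have hdisj : Disjoint S1 S2 := by
      rw [Finset.disjoint_left]
      intro v hv1 hv2
      have h1 := (p1 v hv1).2.2.2.1
      have h2 := (p2 v hv2).2.2.2.1
      have : 0 < 2 ^ k := by positivity
      omega
    refine ⟨S1 ∪ S2, ?_, ?_⟩
    · rw [card_union_of_disjoint hdisj, c1, c2, pow_succ]; ring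
    · intro v hv
      have hb2 : ∀ b1 : ℕ, (b1 = b ∨ b1 = b + 2 ^ k) → v.2 % 2 ^ (k + 1) = b1 → v.2 % 2 ^ k = b := by
        intro b1 hb1 h1
        have e1 : v.2 % 2 ^ k = (v.2 % 2 ^ (k + 1)) % 2 ^ k :=
          (Nat.mod_mod_of_dvd _ (pow_dvd_pow 2 (Nat.le_succ k))).symm
        rw [e1, h1]
        rcases hb1 with h' | h'
        · rw [h', Nat.mod_eq_of_lt hb]
        · rw [h', Nat.add_mod_right, Nat.mod_eq_of_lt hb]
      rcases mem_union.1 hv with h' | h'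
      · obtain ⟨g1, g2, g3, g4, g5⟩ := p1 v h'
        exact ⟨g1, g2, g3, hb2 _ (Or.inl rfl) g4, g5⟩
      · obtain ⟨g1, g2, g3, g4, g5⟩ := p2 v h'
        exact ⟨g1, g2, g3, hb2 _ (Or.inr rfl) g4, g5⟩

end Pool.Agent.Q30.HP
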