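import Pool.Agent.Q30.HP.Cluster
import Pool.Agent.Q30.HP.Tree
import Pool.Agent.Q30.HP.Sep

/-!
# Large values of functions with a Hecke relation are accompanied by far apart large values
-/

set_option autoImplicit false

open Finset UpperHalfPlane
open scoped MatrixGroups

namespace Pool.Agent.Q30.HP

/-- invariance under the two generators -/
def Inv (U : ℂ → ℂ) : Prop := ∀ z : ℂ, 0 < z.im → U (z + 1) = U z ∧ U (-z⁻¹) = U z

lemma Inv.sl {U : ℂ → ℂ} (h : Inv U) (g : SL(2, ℤ)) : ∀ τ : ℍ, U ↑(g • τ) = U ↑τ := by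
  have hg : g ∈ Subgroup.closure ({ModularGroup.S, ModularGroup.T} : Set SL(2, ℤ)) := by
    rw [_root_.SpecialLinearGroup.SL2Z_generators]; trivial
  induction hg using Subgroup.closure_induction with
  | mem x hx =>
    intro τ
    rcases hx with rfl | hx
    · rw [modular_S_smul]
      have := (h τ τ.im_pos).2
      rw [← this]
      congr 1
      rw [UpperHalfPlane.coe_mk, neg_inv]
    · rw [Set.mem_singleton_iff] at hx
      rw [hx, modular_T_smul]
      have := (h τ τ.im_pos).1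
      rw [← this]
      congr 1
      rw [UpperHalfPlane.coe_vadd]; push_cast; ring
  | one => intro τ; rw [one_smul]
  | mul x y _ _ hx hy => intro τ; rw [mul_smul, hx, hy]
  | inv x _ hx => intro τ; rw [← hx (x⁻¹ • τ), smul_inv_smul]

lemma Inv.reduce {U : ℂ → ℂ} (h : Inv U) {z : ℂ} (hz : 0 < z.im) :
    ∃ (p q r s : ℤ) (Z : ℂ), p * s - q * r = 1 ∧ Z * (r * z + s) = p * z + q ∧ |Z.re| ≤ 1 / 2 ∧ 1 ≤ ‖Z‖ ∧
      3 / 4 ≤ Z.im ∧ U Z = U z := by
  obtain ⟨g, hg⟩ := ModularGroup.exists_smul_mem_fd ⟨z, hz⟩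
  set τ : ℍ := ⟨z, hz⟩ with hτ
  have hdet : g 0 0 * g 1 1 - g 0 1 * g 1 0 = 1 := by
    have := g.det_coe
    rw [Matrix.det_fin_two] at this
    exact this
  have hcoe := coe_specialLinearGroup_apply g τ
  simp only [eq_intCast, Complex.ofReal_intCast] at hcoe
  have hden : ((g 1 0 : ℤ) : ℂ) * z + (g 1 1 : ℤ) ≠ 0 := by
    apply denom_ne hz
    rintro ⟨h1, h2⟩
    rw [h1, h2] at hdet
    simp at hdet
  have hcz : (τ : ℂ) = z := rfl
  rw [hcz] at hcoe
  have h1 : (1 : ℝ) ≤ ‖((g • τ : ℍ) : ℂ)‖ := by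
    have := hg.1
    rw [Complex.normSq_eq_norm_sq] at this
    nlinarith [norm_nonneg ((g • τ : ℍ) : ℂ)]
  have h2 : |((g • τ : ℍ) : ℂ).re| ≤ 1 / 2 := hg.2
  refine ⟨g 0 0, g 0 1, g 1 0, g 1 1, ((g • τ : ℍ) : ℂ), hdet, ?_, h2, h1, ?_, ?_⟩
  · rw [hcoe, div_mul_cancel₀ _ hden]
  · have h3 := ModularGroup.three_le_four_mul_im_sq_of_mem_fd hg
    have h4 : 0 < ((g • τ : ℍ) : ℂ).im := (g • τ).im_pos
    have h5 : (g • τ : ℍ).im = ((g • τ : ℍ) : ℂ).im := rfl
    rw [h5] at h3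
    nlinarith
  · rw [h.sl g τ]

/-- The main statement about large values. -/
theorem peaks {U : ℂ → ℂ} {c : ℂ} (hI : Inv U) (hH : HeckeTwo U c) {Q : ℝ} (hQ : 2 ≤ Q) (hc : ‖c‖ ≤ Q)
    {z : ℂ} (hz : 0 < z.im) {M : ℝ} (hM : 1 ≤ M) (hy : 1 / M ≤ z.im) (hy2 : z.im ≤ M) (hx : |z.re| ≤ M) (J : ℕ) :
    ∃ P : Finset ℂ, 2 ^ J ≤ 256 * (J + 1) ^ 2 * P.card ∧
      (∀ p ∈ P, |p.re| ≤ 1 / 2 ∧ 1 ≤ ‖p‖ ∧ 0 < p.im ∧ p.im ≤ M * 4 ^ J ∧ ‖U z‖ / (2 * Q) ^ J ≤ ‖U p‖) ∧
      ∀ p ∈ P, ∀ q ∈ P, p ≠ q → 1 / (32 * M ^ 3 * 16 ^ J) ≤ ‖p - q‖ := by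
  classical
  obtain ⟨S, hScard, hS⟩ := hH.tree hQ hc hz J 0 0 ‖U z‖ (norm_nonneg _) (by norm_num)
    (by unfold pt; simp)
  have hpt : ∀ v : ℕ × ℕ, 0 < (pt z v.1 v.2).im := by
    intro v; rw [pt_im]; positivity
  choose p q r s Z h1 h2 h3 h4 h5 h6 using fun v : ℕ × ℕ => hI.reduce (hpt v)
  obtain ⟨A, hA⟩ : ∃ A : ℕ × ℕ → ℤ, A = p := ⟨_, rfl⟩
  obtain ⟨B, hB⟩ : ∃ B : ℕ × ℕ → ℤ, B = fun v => p v * v.2 + q v * 2 ^ v.1 := ⟨_, rfl⟩
  obtain ⟨C, hC⟩ : ∃ C : ℕ × ℕ → ℤ, C = r := ⟨_, rfl⟩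
  obtain ⟨D, hD⟩ : ∃ D : ℕ × ℕ → ℤ, D = fun v => r v * v.2 + s v * 2 ^ v.1 := ⟨_, rfl⟩
  have hdet : ∀ v : ℕ × ℕ, A v * D v - B v * C v = 2 ^ v.1 := by
    intro v
    rw [hA, hB, hC, hD]
    linear_combination (2 ^ v.1) * h1 v
  have hmob : ∀ v : ℕ × ℕ, Z v * (C v * z + D v) = A v * z + B v := by
    intro v
    have e := h2 v
    have hp : (2 : ℂ) ^ v.1 ≠ 0 := pow_ne_zero _ (by norm_num)
    unfold pt at e
    have e' : Z v * (r v * (z + v.2) + s v * 2 ^ v.1) = p v * (z + v.2) + q v * 2 ^ v.1 := by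
      field_simp at e
      linear_combination e
    rw [hA, hB, hC, hD]
    push_cast
    linear_combination e'
  set ε : ℝ := 1 / (16 * M ^ 3 * 16 ^ J) with hε
  have hε0 : 0 < ε := by rw [hε]; positivity
  have hεeq : 16 * M ^ 3 * (4 ^ J * (4 ^ J * ε)) ≤ 1 := by
    have e1 : (4 : ℝ) ^ J * 4 ^ J = 16 ^ J := by rw [← mul_pow]; norm_num
    have e2 : 16 * M ^ 3 * (4 ^ J * (4 ^ J * ε)) = (16 * M ^ 3 * (4 ^ J * 4 ^ J)) * ε := by ring
    rw [e2, e1, hε]
    have : (0 : ℝ) < 16 * M ^ 3 * 16 ^ J := by positivity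
    rw [mul_one_div_cancel this.ne']
  have hinj : ∀ v ∈ S, ∀ v' ∈ S, A v = A v' → B v = B v' → C v = C v' → D v = D v' → v = v' := by
    intro v hv v' hv' e1 e2 e3 e4
    have d1 := hdet v
    have d2 := hdet v'
    rw [e1, e2, e3, e4, d2] at d1
    have hk : v'.1 = v.1 := by
      have : (2 : ℕ) ^ v'.1 = 2 ^ v.1 := by exact_mod_cast d1
      exact Nat.pow_right_injective (le_refl 2) this
    have f2 : p v * v.2 + q v * 2 ^ v.1 = p v' * v'.2 + q v' * 2 ^ v'.1 := by rw [hB] at e2; exact e2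
    have f4 : r v * v.2 + s v * 2 ^ v.1 = r v' * v'.2 + s v' * 2 ^ v'.1 := by rw [hD] at e4; exact e4
    have f1 : p v = p v' := by rw [hA] at e1; exact e1
    have f3 : r v = r v' := by rw [hC] at e3; exact e3
    rw [hk, ← f1] at f2
    rw [hk, ← f3] at f4
    have g1 : (2 : ℤ) ^ v.1 ∣ ((v.2 : ℤ) - v'.2) := by
      have k1 : (2 : ℤ) ^ v.1 ∣ p v * ((v.2 : ℤ) - v'.2) := ⟨q v' - q v, by linear_combination f2⟩
      have k2 : (2 : ℤ) ^ v.1 ∣ r v * ((v.2 : ℤ) - v'.2) := ⟨s v' - s v, by linear_combination f4⟩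
      have k3 : ((v.2 : ℤ) - v'.2) = s v * (p v * ((v.2 : ℤ) - v'.2)) - q v * (r v * ((v.2 : ℤ) - v'.2)) := by
        linear_combination -((v.2 : ℤ) - v'.2) * h1 v
      rw [k3]
      exact dvd_sub (k1.mul_left _) (k2.mul_left _)
    obtain ⟨_, _, g2, _, _⟩ := hS v hv
    obtain ⟨_, _, g3, _, _⟩ := hS v' hv'
    rw [hk] at g3
    have g4 : (v.2 : ℤ) - v'.2 = 0 := by
      apply Int.eq_zero_of_abs_lt_dvd g1
      rw [abs_lt]
      have k1 : (v.2 : ℤ) < 2 ^ v.1 := by exact_mod_cast g2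
      have k2 : (v'.2 : ℤ) < 2 ^ v.1 := by exact_mod_cast g3
      constructor <;> omega
    apply Prod.ext hk.symm
    omega
  obtain ⟨P0, hP0, hP1, hP2⟩ := separated (fun a b : ℕ × ℕ => ‖Z a - Z b‖ < ε / 2)
    (fun a => by rw [sub_self, norm_zero]; positivity) (fun a b hab => by rw [norm_sub_rev]; exact hab)
    (256 * (J + 1) ^ 2) S.card S le_rfl (fun a ha A' hA' hn =>
      cluster (fun v => v.1) A B C D Z z hz J S (fun v hv => by
        obtain ⟨_, g, _⟩ := hS v hv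
        omega) (fun v _ => hdet v) (fun v _ => hmob v) (fun v _ => h5 v) hinj hM hy hy2 hx hε0.le
        hεeq a ha A' hA' hn)
  have hinjZ : Set.InjOn Z P0 := by
    intro a ha b hb hab
    by_contra hne
    apply hP2 a ha b hb hne
    rw [hab, sub_self, norm_zero]; positivity
  refine ⟨P0.image Z, ?_, ?_, ?_⟩
  · rw [card_image_of_injOn hinjZ, ← hScard]
    exact hP1
  · intro x hx'
    obtain ⟨v, hv, rfl⟩ := mem_image.1 hx'
    obtain ⟨g1, g2, g3, g4, g5⟩ := hS v (hP0 hv)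
    refine ⟨h3 v, h4 v, by linarith [h5 v], ?_, ?_⟩
    · -- the height
      have hw := hpt v
      have hk := im_key (h2 v)
      rw [h1 v] at hk
      simp only [Int.cast_one, one_mul] at hk
      have hwim : (pt z v.1 v.2).im = z.im / 2 ^ v.1 := pt_im _ _ _
      have hM4 : M ≤ M * 4 ^ J := by
        have : (1 : ℝ) ≤ 4 ^ J := one_le_pow₀ (by norm_num)
        nlinarith
      have hpow : (2 : ℝ) ^ v.1 ≤ 4 ^ J := by
        calc (2 : ℝ) ^ v.1 ≤ 2 ^ (2 * J) := pow_le_pow_right₀ (by norm_num) (by omega)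
          _ = 4 ^ J := by rw [pow_mul]; norm_num
      have hZpos : 0 < (Z v).im := by linarith [h5 v]
      by_cases hr : r v = 0
      · have hs1 : s v = 1 ∨ s v = -1 := by
          have := h1 v
          rw [hr] at this
          simp only [mul_zero, sub_zero] at this
          exact Int.isUnit_iff.1 (IsUnit.of_mul_eq_one _ (by rw [mul_comm]; exact this))
        have hn1 : ‖((r v : ℤ) : ℂ) * pt z v.1 v.2 + (s v : ℤ)‖ = 1 := by
          rw [hr]
          rcases hs1 with h | h <;> rw [h] <;> simp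
        rw [hn1] at hk
        simp only [one_pow, mul_one] at hk
        rw [hk, hwim]
        have : z.im / 2 ^ v.1 ≤ z.im := div_le_self hz.le (one_le_pow₀ (by norm_num))
        linarith
      · have hn1 : (pt z v.1 v.2).im ^ 2 ≤ ‖((r v : ℤ) : ℂ) * pt z v.1 v.2 + (s v : ℤ)‖ ^ 2 := by
          have h7 : |(((r v : ℤ) : ℂ) * pt z v.1 v.2 + (s v : ℤ)).im| ≤ _ := Complex.abs_im_le_norm _
          have h8 : (((r v : ℤ) : ℂ) * pt z v.1 v.2 + (s v : ℤ)).im = (r v : ℝ) * (pt z v.1 v.2).im := by simp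
          rw [h8, abs_mul] at h7
          have h9 : (1 : ℝ) ≤ |(r v : ℝ)| := by
            have : (1 : ℤ) ≤ |r v| := Int.one_le_abs hr
            exact_mod_cast this
          have h10 : (pt z v.1 v.2).im ≤ ‖((r v : ℤ) : ℂ) * pt z v.1 v.2 + (s v : ℤ)‖ := by
            have : (pt z v.1 v.2).im ≤ |(r v : ℝ)| * |(pt z v.1 v.2).im| := by
              rw [abs_of_pos hw]; nlinarith
            linarith
          gcongr
        set w := (pt z v.1 v.2).im with hwdef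
        have h11 : (Z v).im * w ^ 2 ≤ w :=
          (mul_le_mul_of_nonneg_left hn1 hZpos.le).trans_eq hk
        have h12 : (Z v).im * w ≤ 1 := by
          have : ((Z v).im * w) * w ≤ 1 * w := by nlinarith
          exact le_of_mul_le_mul_right this hw
        rw [hwim] at h12
        have h13 : (Z v).im * z.im ≤ 2 ^ v.1 := by
          have hp2 : (0 : ℝ) < 2 ^ v.1 := by positivity
          have : (Z v).im * (z.im / 2 ^ v.1) = ((Z v).im * z.im) / 2 ^ v.1 := by ring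
          rw [this, div_le_one hp2] at h12
          exact h12
        have h14 : (Z v).im * (1 / M) ≤ 4 ^ J := by
          calc (Z v).im * (1 / M) ≤ (Z v).im * z.im := by gcongr
            _ ≤ 2 ^ v.1 := h13
            _ ≤ 4 ^ J := hpow
        rw [mul_one_div, div_le_iff₀ (by linarith)] at h14
        linarith
    · rw [h6 v]; exact g5
  · intro x hx' y hy' hxy
    obtain ⟨v, hv, rfl⟩ := mem_image.1 hx'
    obtain ⟨w, hw, rfl⟩ := mem_image.1 hy'
    have hvw : v ≠ w := fun h => hxy (by rw [h])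
    have := hP2 v hv w hw hvw
    push Not at this
    refine le_trans (le_of_eq ?_) this
    rw [hε]
    field_simp
    norm_num

end Pool.Agent.Q30.HP
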