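import Mathlib

/-!
# A lower bound for circle averages gives a lower bound for the integral over the disc
-/

set_option autoImplicit false

open Filter Topology MeasureTheory Metric Real
open scoped ENNReal

namespace Pool.Agent.Q30.HP

lemma polar_ge {g : ℂ → ℝ} {c : ℂ} {R m : ℝ} (hR : 0 < R) (hg : ContinuousOn g (ball c R))
    (hg0 : ∀ z, 0 ≤ g z) (hm0 : 0 ≤ m) (hm : ∀ r, 0 < r → r < R → m ≤ circleAverage g c r) :
    ENNReal.ofReal (π * m * R ^ 2) ≤ ∫⁻ z in ball c R, ENNReal.ofReal (g z) := by
  have e1 : ∫⁻ z in ball c R, ENNReal.ofReal (g z) =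
      ∫⁻ z, (ball (0:ℂ) R).indicator (fun z => ENNReal.ofReal (g (c + z))) z := by
    rw [← lintegral_indicator measurableSet_ball]
    rw [← lintegral_add_left_eq_self _ c]
    congr 1
    funext z
    simp only [Set.indicator, mem_ball, dist_self_add_left, dist_zero_right]
  rw [e1, ← Complex.lintegral_comp_polarCoord_symm]
  set S : Set (ℝ × ℝ) := Set.Ioo 0 R ×ˢ Set.Ioo (-π) π with hS
  have hSsub : S ⊆ polarCoord.target := by
    rintro ⟨r, θ⟩ ⟨h1, h2⟩
    exact ⟨h1.1, h2⟩
  have hSm : MeasurableSet S := measurableSet_Ioo.prod measurableSet_Ioo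
  set G : ℝ × ℝ → ℝ≥0∞ := fun q => ENNReal.ofReal (q.1 * g (circleMap c q.1 q.2)) with hG
  have e2 : ∫⁻ q in polarCoord.target, ENNReal.ofReal q.1 •
      (ball (0:ℂ) R).indicator (fun z => ENNReal.ofReal (g (c + z)))
      (Complex.polarCoord.symm q) = ∫⁻ q in S, G q := by
    rw [← lintegral_indicator polarCoord.open_target.measurableSet, ← lintegral_indicator hSm]
    congr 1
    funext q
    obtain ⟨r, θ⟩ := q
    by_cases hq : (r, θ) ∈ polarCoord.target
    · rw [Set.indicator_of_mem hq]
      have hr0 : 0 < r := hq.1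
      by_cases hr : r < R
      · have hS' : (r, θ) ∈ S := ⟨⟨hr0, hr⟩, hq.2⟩
        rw [Set.indicator_of_mem hS']
        have h3 : Complex.polarCoord.symm (r, θ) ∈ ball (0:ℂ) R := by
          rw [mem_ball_zero_iff, Complex.norm_polarCoord_symm]
          simp [abs_of_pos hr0, hr]
        simp only [Set.indicator_of_mem h3, smul_eq_mul, hG]
        rw [← ENNReal.ofReal_mul hr0.le]
        congr 3
        rw [circleMap, Complex.polarCoord_symm_apply, Complex.exp_mul_I]
        simp
      · have hS' : (r, θ) ∉ S := fun h => hr h.1.2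
        rw [Set.indicator_of_notMem hS']
        have h3 : Complex.polarCoord.symm (r, θ) ∉ ball (0:ℂ) R := by
          rw [mem_ball_zero_iff, Complex.norm_polarCoord_symm]
          simpa [abs_of_pos hr0] using hr
        simp only [Set.indicator_of_notMem h3, smul_zero]
    · rw [Set.indicator_of_notMem hq, Set.indicator_of_notMem (fun h => hq (hSsub h))]
  rw [e2]
  have hcS : ContinuousOn (fun q : ℝ × ℝ => q.1 * g (circleMap c q.1 q.2)) S := by
    apply continuous_fst.continuousOn.mul
    apply hg.comp (g := g)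
    · unfold circleMap; fun_prop
    · rintro ⟨r, θ⟩ ⟨h1, _⟩
      rw [mem_ball, dist_eq_norm, circleMap_sub_center, norm_circleMap_zero, abs_of_pos h1.1]
      exact h1.2
  have hGm : AEMeasurable G ((volume.restrict (Set.Ioo 0 R)).prod (volume.restrict (Set.Ioo (-π) π))) := by
    rw [Measure.prod_restrict, ← Measure.volume_eq_prod]
    exact (hcS.aemeasurable hSm).ennreal_ofReal
  rw [hS, Measure.volume_eq_prod, ← Measure.prod_restrict, lintegral_prod _ hGm]
  have hinner : ∀ r ∈ Set.Ioo 0 R, ENNReal.ofReal (2 * π * m) * ENNReal.ofReal r ≤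
      ∫⁻ θ in Set.Ioo (-π) π, G (r, θ) := by
    intro r hr
    have h1 := hm r hr.1 hr.2
    rw [circleAverage_eq_integral_add (-π), intervalIntegral.integral_comp_add_right
      (fun θ => g (circleMap c r θ))] at h1
    have h2 : (0:ℝ) + -π = -π := by ring
    have h3 : 2 * π + -π = π := by ring
    rw [h2, h3] at h1
    have hcont : Continuous fun θ => g (circleMap c r θ) := by
      apply hg.comp_continuous (continuous_circleMap c r)
      intro θ
      rw [mem_ball, dist_eq_norm, circleMap_sub_center, norm_circleMap_zero, abs_of_pos hr.1]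
      exact hr.2
    rw [intervalIntegral.integral_of_le (by linarith [pi_pos]), integral_Ioc_eq_integral_Ioo] at h1
    have hint : IntegrableOn (fun θ => g (circleMap c r θ)) (Set.Ioo (-π) π) :=
      (hcont.continuousOn.integrableOn_compact isCompact_Icc).mono_set Set.Ioo_subset_Icc_self
    have hint2 : IntegrableOn (fun θ => r * g (circleMap c r θ)) (Set.Ioo (-π) π) :=
      Integrable.const_mul hint r
    have h6 : ∫⁻ θ in Set.Ioo (-π) π, G (r, θ)
        = ENNReal.ofReal (∫ θ in Set.Ioo (-π) π, r * g (circleMap c r θ)) := by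
      rw [ofReal_integral_eq_lintegral_ofReal hint2]
      exact Filter.Eventually.of_forall fun θ => mul_nonneg hr.1.le (hg0 _)
    rw [h6, ← ENNReal.ofReal_mul (by positivity)]
    apply ENNReal.ofReal_le_ofReal
    rw [integral_const_mul]
    rw [smul_eq_mul, ← div_eq_inv_mul, le_div_iff₀ (by positivity)] at h1
    have := hr.1
    nlinarith
  calc ENNReal.ofReal (π * m * R ^ 2)
      = ENNReal.ofReal (2 * π * m) * ∫⁻ r in Set.Ioo 0 R, ENNReal.ofReal r := by
        have h1 : ∫⁻ r in Set.Ioo 0 R, ENNReal.ofReal r = ENNReal.ofReal (∫ r in Set.Ioo 0 R, r) := by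
          rw [ofReal_integral_eq_lintegral_ofReal]
          · exact (continuous_id.continuousOn.integrableOn_compact isCompact_Icc).mono_set Set.Ioo_subset_Icc_self
          · rw [Filter.EventuallyLE, ae_restrict_iff' measurableSet_Ioo]
            exact Filter.Eventually.of_forall fun r hr => hr.1.le
        rw [h1, ← ENNReal.ofReal_mul (by positivity), ← integral_Ioc_eq_integral_Ioo,
          ← intervalIntegral.integral_of_le hR.le, integral_id]
        congr 1
        ring
    _ = ∫⁻ r in Set.Ioo 0 R, ENNReal.ofReal (2 * π * m) * ENNReal.ofReal r := by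
        rw [lintegral_const_mul _ (by fun_prop)]
    _ ≤ ∫⁻ r in Set.Ioo 0 R, ∫⁻ θ in Set.Ioo (-π) π, G (r, θ) := by
        apply setLIntegral_mono' measurableSet_Ioo
        exact hinner

end Pool.Agent.Q30.HP
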