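import Mathlib

/-!
# The number of representations of a power of two by `t ^ 2 + N y ^ 2`
-/

set_option autoImplicit false

open Finset

namespace Pool.Agent.Q30.HP

/-- the solutions of `t ^ 2 + N y ^ 2 = 2 ^ s` -/
noncomputable def sol (N : ℤ) (s : ℕ) : Finset (ℤ × ℤ) :=
  ((Icc (-(2 : ℤ) ^ s) (2 ^ s)) ×ˢ (Icc (-(2 : ℤ) ^ s) (2 ^ s))).filter
    (fun p => p.1 ^ 2 + N * p.2 ^ 2 = 2 ^ s)

lemma abs_le_of_sq {t m : ℤ} (hm : 1 ≤ m) (h : t ^ 2 ≤ m) : -m ≤ t ∧ t ≤ m := by
  constructor <;> nlinarith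

lemma mem_sol {N : ℤ} (hN : 1 ≤ N) {s : ℕ} {p : ℤ × ℤ} :
    p ∈ sol N s ↔ p.1 ^ 2 + N * p.2 ^ 2 = 2 ^ s := by
  unfold sol
  rw [mem_filter, mem_product, mem_Icc, mem_Icc]
  refine ⟨fun h => h.2, fun h => ⟨?_, h⟩⟩
  have h2 : (1 : ℤ) ≤ 2 ^ s := one_le_pow₀ (by norm_num)
  have h3 : p.1 ^ 2 ≤ 2 ^ s := by nlinarith [sq_nonneg p.2, mul_nonneg (by linarith : (0:ℤ) ≤ N) (sq_nonneg p.2)]
  have h4 : p.2 ^ 2 ≤ 2 ^ s := by nlinarith [sq_nonneg p.1, sq_nonneg p.2, mul_nonneg (by linarith : (0:ℤ) ≤ N - 1) (sq_nonneg p.2)]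
  exact ⟨abs_le_of_sq h2 h3, abs_le_of_sq h2 h4⟩

/-- the solutions with `y` odd -/
noncomputable def osol (N : ℤ) (s : ℕ) : Finset (ℤ × ℤ) := (sol N s).filter (fun p => p.2 % 2 = 1)

lemma key_id (N t y t' y' : ℤ) : (t * t' + N * y * y') ^ 2 + N * (t * y' - t' * y) ^ 2 =
    (t ^ 2 + N * y ^ 2) * (t' ^ 2 + N * y' ^ 2) := by ring

lemma pow_dvd_of_mul {s : ℕ} {a b : ℤ} (ha : b % 4 = 2) (h : (2 : ℤ) ^ s ∣ a * b) (hs : 1 ≤ s) :
    (2 : ℤ) ^ (s - 1) ∣ a := by
  obtain ⟨k, hk⟩ : ∃ k, b = 2 * (2 * k + 1) := ⟨(b - 2) / 4, by omega⟩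
  obtain ⟨r, rfl⟩ : ∃ r, s = r + 1 := ⟨s - 1, by omega⟩
  rw [hk] at h
  have h1 : (2 : ℤ) ^ r ∣ a * (2 * k + 1) := by
    have : a * (2 * (2 * k + 1)) = 2 * (a * (2 * k + 1)) := by ring
    rw [this, pow_succ, mul_comm ((2 : ℤ) ^ r) 2] at h
    exact (mul_dvd_mul_iff_left (by norm_num)).1 h
  have h2 : IsCoprime ((2 : ℤ) ^ r) (2 * k + 1) := by
    apply IsCoprime.pow_left
    exact ⟨-k, 1, by ring⟩
  simpa using h2.dvd_of_dvd_mul_right h1

/-- the possible values -/
def V (s : ℕ) : Finset ℤ := {0, 2 ^ (s - 1), -2 ^ (s - 1), 2 ^ s, -2 ^ s}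

lemma V_card (s : ℕ) : (V s).card ≤ 5 := by
  unfold V
  exact card_le_five

lemma mem_V {s : ℕ} (hs : 1 ≤ s) {d : ℤ} (h1 : (2 : ℤ) ^ (s - 1) ∣ d) (h2 : d ^ 2 ≤ (2 ^ s) ^ 2) : d ∈ V s := by
  obtain ⟨k, hk⟩ := h1
  obtain ⟨r, rfl⟩ : ∃ r, s = r + 1 := ⟨s - 1, by omega⟩
  simp only [Nat.add_sub_cancel] at hk ⊢
  have hp : (0 : ℤ) < 2 ^ r := by positivity
  have h3 : k ^ 2 ≤ 4 := by
    have e1 : ((2 : ℤ) ^ r) ^ 2 * k ^ 2 ≤ (2 ^ r) ^ 2 * 4 := by
      have : ((2 : ℤ) ^ (r + 1)) ^ 2 = (2 ^ r) ^ 2 * 4 := by ring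
      rw [← this]
      calc ((2 : ℤ) ^ r) ^ 2 * k ^ 2 = d ^ 2 := by rw [hk]; ring
        _ ≤ _ := h2
    exact le_of_mul_le_mul_left e1 (by positivity)
  have h4 : -2 ≤ k := by nlinarith
  have h5 : k ≤ 2 := by nlinarith
  unfold V
  simp only [mem_insert, mem_singleton, Nat.add_sub_cancel]
  interval_cases k
  · right; right; right; right; rw [hk, pow_succ]; ring
  · right; right; left; rw [hk]; ring
  · left; rw [hk]; ring
  · right; left; rw [hk]; ring
  · right; right; right; left; rw [hk, pow_succ]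

lemma osol_odd_aux {N : ℤ} (hN : 1 ≤ N) {s : ℕ} {t y t' y' : ℤ}
    (h0 : t ^ 2 + N * y ^ 2 = 2 ^ s) (h : t' ^ 2 + N * y' ^ 2 = 2 ^ s) :
    (t * y' - t' * y) ^ 2 ≤ (2 ^ s) ^ 2 ∧ (t * y' + t' * y) ^ 2 ≤ (2 ^ s) ^ 2 := by
  have h1 := key_id N t y t' y'
  have h2 := key_id N t (-y) t' y'
  rw [h0, h] at h1
  have h0' : t ^ 2 + N * (-y) ^ 2 = 2 ^ s := by rw [← h0]; ring
  rw [h0', h] at h2
  constructor
  · nlinarith [sq_nonneg (t * t' + N * y * y'), mul_nonneg (by linarith : (0:ℤ) ≤ N - 1) (sq_nonneg (t * y' - t' * y))]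
  · have e : t * y' - t' * -y = t * y' + t' * y := by ring
    rw [e] at h2
    nlinarith [sq_nonneg (t * t' + N * (-y) * y'), mul_nonneg (by linarith : (0:ℤ) ≤ N - 1) (sq_nonneg (t * y' + t' * y))]

lemma lin_inj {N t y a b a' b' : ℤ} (hne : t ^ 2 + N * y ^ 2 ≠ 0)
    (h1 : t * b - a * y = t * b' - a' * y) (h2 : t * a + N * y * b = t * a' + N * y * b') :
    a = a' ∧ b = b' := by
  have e1 : (t ^ 2 + N * y ^ 2) * (a - a') = 0 := by linear_combination t * h2 - N * y * h1
  have e2 : (t ^ 2 + N * y ^ 2) * (b - b') = 0 := by linear_combination t * h1 + y * h2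
  constructor
  · have := (mul_eq_zero.1 e1).resolve_left hne
    linarith
  · have := (mul_eq_zero.1 e2).resolve_left hne
    linarith

/-- the part of the solutions with `t y' - t' y` among the five values -/
lemma part_card {N : ℤ} {s : ℕ} {t y : ℤ} (h0 : t ^ 2 + N * y ^ 2 = 2 ^ s)
    (A : Finset (ℤ × ℤ)) (hA : ∀ p ∈ A, p.1 ^ 2 + N * p.2 ^ 2 = 2 ^ s ∧ t * p.2 - p.1 * y ∈ V s) :
    A.card ≤ 15 := by
  classical
  have hne : t ^ 2 + N * y ^ 2 ≠ 0 := by rw [h0]; positivity
  have h1 : A.card ≤ (V s ×ˢ (Finset.univ : Finset SignType)).card := by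
    apply card_le_card_of_injOn (fun p => (t * p.2 - p.1 * y, SignType.sign (t * p.1 + N * y * p.2)))
    · intro p hp
      simp only [coe_product, Set.mem_prod, mem_coe]
      exact ⟨(hA p hp).2, mem_univ _⟩
    · rintro ⟨a, b⟩ hp ⟨a', b'⟩ hq he
      simp only [Prod.mk.injEq] at he
      have k1 := key_id N t y a b
      have k2 := key_id N t y a' b'
      rw [h0, (hA _ hp).1] at k1
      rw [h0, (hA _ hq).1] at k2
      have h3 : (t * a + N * y * b) ^ 2 = (t * a' + N * y * b') ^ 2 := by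
        have := he.1
        rw [this] at k1
        linarith
      have h4 : t * a + N * y * b = t * a' + N * y * b' := by
        rcases sq_eq_sq_iff_eq_or_eq_neg.1 h3 with h | h
        · exact h
        · have hs := he.2
          rw [h] at hs
          rcases lt_trichotomy (t * a' + N * y * b') 0 with hh | hh | hh
          · rw [sign_neg hh, sign_pos (by linarith)] at hs
            exact absurd hs (by decide)
          · rw [h, hh]; ring
          · rw [sign_pos hh, sign_neg (by linarith)] at hs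
            exact absurd hs (by decide)
      obtain ⟨e1, e2⟩ := lin_inj hne he.1 h4
      rw [e1, e2]
  have h2 : (V s ×ˢ (Finset.univ : Finset SignType)).card ≤ 15 := by
    rw [card_product]
    have : (Finset.univ : Finset SignType).card = 3 := by decide
    rw [this]
    have := V_card s
    omega
  omega

lemma osol_card (s : ℕ) : ∀ N : ℤ, 1 ≤ N → (osol N s).card ≤ 30 := by
  classical
  induction s using Nat.strong_induction_on with
  | _ s ih =>
    intro N hN
    rcases (osol N s).eq_empty_or_nonempty with he | ⟨⟨t, y⟩, h0⟩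
    · rw [he]; simp
    unfold osol at h0
    rw [mem_filter, mem_sol hN] at h0
    obtain ⟨h0, hy⟩ := h0
    simp only at h0 hy
    have hmem : ∀ p ∈ osol N s, p.1 ^ 2 + N * p.2 ^ 2 = 2 ^ s ∧ p.2 % 2 = 1 := by
      intro p hp
      unfold osol at hp
      rw [mem_filter, mem_sol hN] at hp
      exact hp
    have hone : ∀ (a b : ℤ), a ^ 2 + N * b ^ 2 = 2 ^ s → b % 2 = 1 → s ≤ 1 → (a, b) ∈
        (({(0, 1), (0, -1), (1, 1), (1, -1), (-1, 1), (-1, -1)} : Finset (ℤ × ℤ))) := by
      intro a b hab hb hs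
      have h2 : (2 : ℤ) ^ s ≤ 2 := by
        calc (2 : ℤ) ^ s ≤ 2 ^ 1 := pow_le_pow_right₀ (by norm_num) hs
          _ = 2 := by norm_num
      have hb1 : b ^ 2 ≤ 2 := by nlinarith [sq_nonneg a, mul_nonneg (by linarith : (0:ℤ) ≤ N - 1) (sq_nonneg b)]
      have hb2 : b = 1 ∨ b = -1 := by
        have : -1 ≤ b := by nlinarith
        have : b ≤ 1 := by nlinarith
        omega
      have ha1 : a ^ 2 ≤ 1 := by
        have : b ^ 2 = 1 := by rcases hb2 with h | h <;> rw [h] <;> norm_num
        rw [this] at hab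
        nlinarith
      have ha2 : a = 0 ∨ a = 1 ∨ a = -1 := by
        have : -1 ≤ a := by nlinarith
        have : a ≤ 1 := by nlinarith
        omega
      rcases ha2 with h | h | h <;> rcases hb2 with h' | h' <;> rw [h, h'] <;> simp
    by_cases hs : s ≤ 1
    · have : osol N s ⊆ (({(0, 1), (0, -1), (1, 1), (1, -1), (-1, 1), (-1, -1)} : Finset (ℤ × ℤ))) := by
        rintro ⟨a, b⟩ hp
        exact hone a b (hmem _ hp).1 (hmem _ hp).2 hs
      refine (card_le_card this).trans ?_
      exact card_le_six.trans (by norm_num)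
    push Not at hs
    have h4 : (4 : ℤ) ∣ 2 ^ s := by
      obtain ⟨r, rfl⟩ : ∃ r, s = r + 2 := ⟨s - 2, by omega⟩
      exact ⟨2 ^ r, by ring⟩
    have hsq : ∀ b : ℤ, b % 2 = 1 → b ^ 2 % 4 = 1 := by
      intro b hb
      obtain ⟨k, rfl⟩ : ∃ k, b = 2 * k + 1 := ⟨b / 2, by omega⟩
      have : (2 * k + 1) ^ 2 = 4 * (k ^ 2 + k) + 1 := by ring
      rw [this]; omega
    have hsq0 : ∀ b : ℤ, b % 2 = 0 → b ^ 2 % 4 = 0 := by
      intro b hb
      obtain ⟨k, rfl⟩ : ∃ k, b = 2 * k := ⟨b / 2, by omega⟩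
      have : (2 * k) ^ 2 = 4 * (k ^ 2) := by ring
      rw [this]; omega
    by_cases hNodd : N % 2 = 1
    · -- all `t` are odd
      have hodd : ∀ a b : ℤ, a ^ 2 + N * b ^ 2 = 2 ^ s → b % 2 = 1 → a % 2 = 1 := by
        intro a b hab hb
        by_contra hc
        have ha : a % 2 = 0 := by omega
        have e1 := hsq0 a ha
        have e2 : (N * b ^ 2) % 2 = 1 := by
          rw [Int.mul_emod, hNodd]
          have := hsq b hb
          have : b ^ 2 % 2 = 1 := by omega
          rw [this]; norm_num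
        omega
      have ht := hodd t y h0 hy
      have hsplit : osol N s ⊆ ((osol N s).filter (fun p => t * p.2 - p.1 * y ∈ V s)) ∪
          ((osol N s).filter (fun p => t * p.2 + p.1 * y ∈ V s)) := by
        rintro ⟨a, b⟩ hp
        rw [mem_union, mem_filter, mem_filter]
        obtain ⟨hab, hb⟩ := hmem _ hp
        simp only at hab hb
        have ha := hodd a b hab hb
        obtain ⟨b1, b2⟩ := osol_odd_aux hN h0 hab
        have hd : (2 : ℤ) ^ s ∣ (t * b - a * y) * (t * b + a * y) := by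
          refine ⟨b ^ 2 - y ^ 2, ?_⟩
          linear_combination b ^ 2 * h0 - y ^ 2 * hab
        obtain ⟨t1, ht1⟩ : ∃ k, t = 2 * k + 1 := ⟨t / 2, by omega⟩
        obtain ⟨y1, hy1⟩ : ∃ k, y = 2 * k + 1 := ⟨y / 2, by omega⟩
        obtain ⟨a1, ha1⟩ : ∃ k, a = 2 * k + 1 := ⟨a / 2, by omega⟩
        obtain ⟨c1, hc1⟩ : ∃ k, b = 2 * k + 1 := ⟨b / 2, by omega⟩
        have e1 : t * b = 2 * (2 * t1 * c1 + t1 + c1) + 1 := by rw [ht1, hc1]; ring
        have e2 : a * y = 2 * (2 * a1 * y1 + a1 + y1) + 1 := by rw [ha1, hy1]; ring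
        set A := 2 * t1 * c1 + t1 + c1 with hA
        set B := 2 * a1 * y1 + a1 + y1 with hB
        rcases Int.emod_two_eq_zero_or_one (A - B) with hAB | hAB
        · -- the sum is `2 mod 4`
          left
          refine ⟨hp, mem_V (by omega) ?_ b1⟩
          apply pow_dvd_of_mul (b := t * b + a * y) _ hd (by omega)
          rw [e1, e2]; omega
        · right
          refine ⟨hp, mem_V (by omega) ?_ b2⟩
          apply pow_dvd_of_mul (b := t * b - a * y) _ (by rw [mul_comm]; exact hd) (by omega)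
          rw [e1, e2]; omega
      have c1 : ((osol N s).filter (fun p => t * p.2 - p.1 * y ∈ V s)).card ≤ 15 := by
        apply part_card h0
        intro p hp
        rw [mem_filter] at hp
        exact ⟨(hmem p hp.1).1, hp.2⟩
      have c2 : ((osol N s).filter (fun p => t * p.2 + p.1 * y ∈ V s)).card ≤ 15 := by
        have h0' : t ^ 2 + N * (-y) ^ 2 = 2 ^ s := by rw [← h0]; ring
        apply part_card h0'
        intro p hp
        rw [mem_filter] at hp
        refine ⟨(hmem p hp.1).1, ?_⟩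
        have : t * p.2 - p.1 * -y = t * p.2 + p.1 * y := by ring
        rw [this]; exact hp.2
      calc (osol N s).card ≤ _ := card_le_card hsplit
        _ ≤ _ := card_union_le _ _
        _ ≤ 30 := by omega
    · have hNe : N % 2 = 0 := by omega
      have hte : ∀ a b : ℤ, a ^ 2 + N * b ^ 2 = 2 ^ s → a % 2 = 0 := by
        intro a b hab
        by_contra hc
        have ha : a % 2 = 1 := by omega
        have e1 := hsq a ha
        have e2 : (N * b ^ 2) % 2 = 0 := by
          rw [Int.mul_emod, hNe]; simp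
        omega
      by_cases hN4 : N % 4 = 0
      · obtain ⟨M, hM⟩ : ∃ M, N = 4 * M := ⟨N / 4, by omega⟩
        have hM1 : 1 ≤ M := by omega
        have h1 : (osol N s).card ≤ (osol M (s - 2)).card := by
          apply card_le_card_of_injOn (fun p => (p.1 / 2, p.2))
          · rintro ⟨a, b⟩ hp
            obtain ⟨hab, hb⟩ := hmem _ hp
            simp only at hab hb
            have ha := hte a b hab
            obtain ⟨k, rfl⟩ : ∃ k, a = 2 * k := ⟨a / 2, by omega⟩
            rw [mem_coe]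
            unfold osol
            rw [mem_filter, mem_sol hM1]
            refine ⟨?_, hb⟩
            simp only
            rw [Int.mul_ediv_cancel_left _ (by norm_num)]
            obtain ⟨r, rfl⟩ : ∃ r, s = r + 2 := ⟨s - 2, by omega⟩
            rw [hM] at hab
            simp only [Nat.add_sub_cancel]
            have : (4 : ℤ) * (k ^ 2 + M * b ^ 2) = 4 * 2 ^ r := by linear_combination hab
            linarith
          · rintro ⟨a, b⟩ hp ⟨a', b'⟩ hq he
            simp only [Prod.mk.injEq] at he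
            have ha := hte a b (hmem _ hp).1
            have ha' := hte a' b' (hmem _ hq).1
            rw [Prod.mk.injEq]
            exact ⟨by omega, he.2⟩
        exact h1.trans (ih (s - 2) (by omega) M hM1)
      · exfalso
        have e1 := hsq0 t (hte t y h0)
        have e2 := hsq y hy
        obtain ⟨M, hM⟩ : ∃ M, N = 4 * M + 2 := ⟨N / 4, by omega⟩
        have e3 : (N * y ^ 2) % 4 = 2 := by
          rw [hM, Int.mul_emod, e2]; omega
        omega

theorem sol_card {N : ℤ} (hN : 1 ≤ N) (s : ℕ) : (sol N s).card ≤ 32 * (s + 1) := by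
  classical
  induction s using Nat.strong_induction_on with
  | _ s ih =>
    have hsplit : sol N s ⊆ osol N s ∪ (sol N s).filter (fun p => p.2 % 2 = 0) := by
      intro p hp
      rw [mem_union]
      unfold osol
      rw [mem_filter, mem_filter]
      rcases Int.emod_two_eq_zero_or_one p.2 with h | h
      · exact Or.inr ⟨hp, h⟩
      · exact Or.inl ⟨hp, h⟩
    have h1 := osol_card s N hN
    have h2 : (sol N s).card ≤ (osol N s).card + ((sol N s).filter (fun p => p.2 % 2 = 0)).card :=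
      (card_le_card hsplit).trans (card_union_le _ _)
    have hsq : ∀ b : ℤ, b % 2 = 1 → b ^ 2 % 4 = 1 := by
      intro b hb
      obtain ⟨k, rfl⟩ : ∃ k, b = 2 * k + 1 := ⟨b / 2, by omega⟩
      have : (2 * k + 1) ^ 2 = 4 * (k ^ 2 + k) + 1 := by ring
      rw [this]; omega
    have hsq0 : ∀ b : ℤ, b % 2 = 0 → b ^ 2 % 4 = 0 := by
      intro b hb
      obtain ⟨k, rfl⟩ : ∃ k, b = 2 * k := ⟨b / 2, by omega⟩
      have : (2 * k) ^ 2 = 4 * (k ^ 2) := by ring
      rw [this]; omega
    have hev : ∀ p ∈ (sol N s).filter (fun p => p.2 % 2 = 0), p.1 ^ 2 + N * p.2 ^ 2 = 2 ^ s ∧ p.2 % 2 = 0 := by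
      intro p hp
      rw [mem_filter, mem_sol hN] at hp
      exact hp
    rcases Nat.lt_or_ge s 2 with hs | hs
    · interval_cases s
      · have h3 : ((sol N 0).filter (fun p => p.2 % 2 = 0)) ⊆ ({(1, 0), (-1, 0)} : Finset (ℤ × ℤ)) := by
          rintro ⟨a, b⟩ hp
          obtain ⟨hab, hb⟩ := hev _ hp
          simp only [pow_zero] at hab hb
          have hb0 : b = 0 := by
            by_contra hc
            have : 1 ≤ b ^ 2 := by
              have : 0 < b ^ 2 := by positivity
              omega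
            have h4 := hsq0 b hb
            have h5 : 4 ≤ b ^ 2 := by omega
            nlinarith [sq_nonneg a]
          rw [hb0] at hab ⊢
          have ha : a ^ 2 = 1 := by linarith
          rcases sq_eq_one_iff.1 ha with h | h <;> rw [h] <;> simp
        have := (card_le_card h3).trans card_le_two
        omega
      · have h3 : ((sol N 1).filter (fun p => p.2 % 2 = 0)) = ∅ := by
          rw [eq_empty_iff_forall_notMem]
          rintro ⟨a, b⟩ hp
          obtain ⟨hab, hb⟩ := hev _ hp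
          simp only [pow_one] at hab hb
          have h4 := hsq0 b hb
          obtain ⟨k, hk⟩ : ∃ k, b ^ 2 = 4 * k := ⟨b ^ 2 / 4, by omega⟩
          rw [hk] at hab
          have : N * (4 * k) = 4 * (N * k) := by ring
          rw [this] at hab
          rcases Int.emod_two_eq_zero_or_one a with h | h
          · have := hsq0 a h; omega
          · have := hsq a h; omega
        rw [h3] at h2
        simp at h2
        omega
    · have h3 : ((sol N s).filter (fun p => p.2 % 2 = 0)).card ≤ (sol N (s - 2)).card := by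
        apply card_le_card_of_injOn (fun p => (p.1 / 2, p.2 / 2))
        · rintro ⟨a, b⟩ hp
          obtain ⟨hab, hb⟩ := hev _ hp
          simp only at hab hb
          obtain ⟨k, rfl⟩ : ∃ k, b = 2 * k := ⟨b / 2, by omega⟩
          obtain ⟨r, rfl⟩ : ∃ r, s = r + 2 := ⟨s - 2, by omega⟩
          have ha : a % 2 = 0 := by
            by_contra hc
            have h5 := hsq a (by omega)
            have e1 : N * (2 * k) ^ 2 = 4 * (N * k ^ 2) := by ring
            have e2 : (2 : ℤ) ^ (r + 2) = 4 * 2 ^ r := by ring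
            rw [e1, e2] at hab
            omega
          obtain ⟨l, rfl⟩ : ∃ l, a = 2 * l := ⟨a / 2, by omega⟩
          rw [mem_coe, mem_sol hN]
          simp only [Nat.add_sub_cancel]
          rw [Int.mul_ediv_cancel_left _ (by norm_num), Int.mul_ediv_cancel_left _ (by norm_num)]
          have : (4 : ℤ) * (l ^ 2 + N * k ^ 2) = 4 * 2 ^ r := by linear_combination hab
          linarith
        · rintro ⟨a, b⟩ hp ⟨a', b'⟩ hq he
          simp only [Prod.mk.injEq] at he
          have par : ∀ a b : ℤ, a ^ 2 + N * b ^ 2 = 2 ^ s → b % 2 = 0 → a % 2 = 0 := by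
            intro a b hab hb
            obtain ⟨k, rfl⟩ : ∃ k, b = 2 * k := ⟨b / 2, by omega⟩
            obtain ⟨r, rfl⟩ : ∃ r, s = r + 2 := ⟨s - 2, by omega⟩
            by_contra hc
            have h5 := hsq a (by omega)
            have e1 : N * (2 * k) ^ 2 = 4 * (N * k ^ 2) := by ring
            have e2 : (2 : ℤ) ^ (r + 2) = 4 * 2 ^ r := by ring
            rw [e1, e2] at hab
            omega
          obtain ⟨u1, u2⟩ := hev _ hp
          obtain ⟨v1, v2⟩ := hev _ hq
          simp only at u1 u2 v1 v2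
          have p1 := par a b u1 u2
          have p2 := par a' b' v1 v2
          rw [Prod.mk.injEq]
          exact ⟨by omega, by omega⟩
      have h4 := ih (s - 2) (by omega)
      have : s - 2 + 1 = s - 1 := by omega
      rw [this] at h4
      omega

end Pool.Agent.Q30.HP
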