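import Pool.Agent.Q30.HP.Band

/-!
# Pointwise domination by finitely many Moebius transformations
-/

set_option autoImplicit false

open MeasureTheory UpperHalfPlane Metric Filter Topology
open scoped MatrixGroups ENNReal

namespace Pool.Agent.Q30.HP

/-- The values of all forms at the points of `S` are controlled by their values at the points `g • τ` in `E`, `g` in a
finite set of matrices. -/
def Step (S E : Set ℍ) : Prop :=
  ∃ G : Set (GL (Fin 2) ℝ), G.Finite ∧ ∃ C : ℝ, 0 < C ∧ ∀ (U : ℂ → ℂ) (T : ℝ), Form U T → ∀ τ ∈ S, ∀ B : ℝ, 0 ≤ B →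
    (∀ g ∈ G, g • τ ∈ E → ‖U ((g • τ : ℍ) : ℂ)‖ ≤ B) → ‖U τ‖ ≤ C * B

lemma Step.mono {S S' E E' : Set ℍ} (h : Step S E) (hS : S' ⊆ S) (hE : E ⊆ E') : Step S' E' := by
  obtain ⟨G, hG, C, hC, H⟩ := h
  exact ⟨G, hG, C, hC, fun U T hU τ hτ B hB hb => H U T hU τ (hS hτ) B hB fun g hg hgE => hb g hg (hE hgE)⟩

lemma Step.refl (S : Set ℍ) : Step S S := by
  refine ⟨{1}, Set.finite_singleton _, 1, one_pos, fun U T hU τ hτ B hB hb => ?_⟩
  have := hb 1 rfl (by rwa [one_smul])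
  rwa [one_smul, ← one_mul B] at this

lemma Step.trans {S E F : Set ℍ} (h : Step S E) (h' : Step E F) : Step S F := by
  obtain ⟨G, hG, C, hC, H⟩ := h
  obtain ⟨G', hG', C', hC', H'⟩ := h'
  refine ⟨Set.image2 (· * ·) G' G, hG'.image2 _ hG, C * C', by positivity, fun U T hU τ hτ B hB hb => ?_⟩
  rw [mul_assoc]
  refine H U T hU τ hτ _ (by positivity) fun g hg hgE => ?_
  refine H' U T hU (g • τ) hgE B hB fun g' hg' hgF => ?_
  have h1 := hb (g' * g) (Set.mem_image2_of_mem hg' hg) (by rwa [mul_smul])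
  rwa [mul_smul] at h1

lemma Step.union {S S' E : Set ℍ} (h : Step S E) (h' : Step S' E) : Step (S ∪ S') E := by
  obtain ⟨G, hG, C, hC, H⟩ := h
  obtain ⟨G', hG', C', hC', H'⟩ := h'
  refine ⟨G ∪ G', hG.union hG', C + C', by positivity, fun U T hU τ hτ B hB hb => ?_⟩
  rcases hτ with hτ | hτ
  · have := H U T hU τ hτ B hB fun g hg => hb g (Or.inl hg)
    nlinarith
  · have := H' U T hU τ hτ B hB fun g hg => hb g (Or.inr hg)
    nlinarith

/-- the translation -/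
noncomputable def tr (r : ℝ) : Quad := ⟨1, r, 0, 1, by norm_num⟩

lemma tr_coe (r : ℝ) (τ : ℍ) : (((tr r).gl • τ : ℍ) : ℂ) = τ + r := by
  rw [Quad.coe_smul]
  simp [tr]

lemma tr_im (r : ℝ) (τ : ℍ) : ((tr r).gl • τ).im = τ.im := by
  have := congrArg Complex.im (tr_coe r τ)
  simpa using this

lemma tr_re (r : ℝ) (τ : ℍ) : ((tr r).gl • τ).re = τ.re + r := by
  have := congrArg Complex.re (tr_coe r τ)
  simpa using this

/-- translation to the strip -/
lemma step_shift {S : Set ℍ} {R y1 y2 : ℝ} (hS : ∀ τ ∈ S, |τ.re| ≤ R ∧ y1 ≤ τ.im ∧ τ.im ≤ y2) :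
    Step S {τ | |τ.re| ≤ 1 / 2 ∧ y1 ≤ τ.im ∧ τ.im ≤ y2} := by
  refine ⟨(fun n : ℤ => (tr n).gl) '' (Set.Icc (-⌈R + 1⌉) ⌈R + 1⌉), (Set.finite_Icc _ _).image _, 1, one_pos,
    fun U T hU τ hτ B hB hb => ?_⟩
  obtain ⟨h1, h2, h3⟩ := hS τ hτ
  have h4 := abs_sub_round τ.re
  rw [abs_le] at h1 h4
  have h5 : R + 1 ≤ ⌈R + 1⌉ := Int.le_ceil _
  have hmem : (tr ((-round τ.re : ℤ) : ℝ)).gl ∈ (fun n : ℤ => (tr n).gl) '' (Set.Icc (-⌈R + 1⌉) ⌈R + 1⌉) := by
    refine ⟨-round τ.re, ⟨?_, ?_⟩, rfl⟩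
    · have : (((-⌈R + 1⌉ : ℤ)) : ℝ) ≤ ((-round τ.re : ℤ) : ℝ) := by push_cast; linarith
      exact_mod_cast this
    · have : ((-round τ.re : ℤ) : ℝ) ≤ ((⌈R + 1⌉ : ℤ) : ℝ) := by push_cast; linarith
      exact_mod_cast this
  have h6 := hb _ hmem (by
    refine ⟨?_, ?_, ?_⟩
    · rw [tr_re]
      push_cast
      rw [abs_le]
      constructor <;> linarith
    · rw [tr_im]; exact h2
    · rw [tr_im]; exact h3)
  rw [tr_coe] at h6
  have h7 := hU.inv.shift_int (-round τ.re) τ.im_pos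
  have e : ((((-round τ.re : ℤ)) : ℝ) : ℂ) = ((-round τ.re : ℤ) : ℂ) := by push_cast; rfl
  rw [e, h7] at h6
  rwa [one_mul]

/-- the maps that are used to go up -/
noncomputable def upA : Quad := ⟨1, 0, 0, 2, by norm_num⟩
noncomputable def upB : Quad := ⟨1, 0, 0, 4, by norm_num⟩
noncomputable def upC : Quad := ⟨1, 2, 0, 4, by norm_num⟩

/-- going up -/
lemma step_up {a : ℝ} (ha : 0 < a) (k : ℕ) :
    Step {τ | a ≤ τ.im ∧ τ.im ≤ 2 ^ k * (4 * a)} {τ | a ≤ τ.im ∧ τ.im ≤ 4 * a} := by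
  induction k with
  | zero => exact (Step.refl _).mono (by intro τ hτ; simpa using hτ) (Set.Subset.refl _)
  | succ k ih =>
    refine Step.trans ?_ ih
    have hk1 : (1 : ℝ) ≤ 2 ^ k := one_le_pow₀ (by norm_num)
    refine ⟨{1, upA.gl, upB.gl, upC.gl}, by simp, 9, by norm_num, fun U T hU τ hτ B hB hb => ?_⟩
    obtain ⟨h1, h2⟩ := hτ
    rw [pow_succ] at h2
    rcases le_or_gt τ.im (2 ^ k * (4 * a)) with h4 | h4
    · have := hb 1 (by simp) (by rw [one_smul]; exact ⟨h1, h4⟩)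
      rw [one_smul] at this
      linarith
    · have hw4 : 4 * a < τ.im := by nlinarith
      obtain ⟨c, hc, hc7⟩ := hU.two
      have hw2 : 0 < ((τ : ℂ) / 2).im := by
        have := τ.im_pos
        simp
        exact this
      have hrel := hc.hecke ((τ : ℂ) / 2) hw2
      have e1 : 2 * ((τ : ℂ) / 2) = τ := by ring
      rw [e1] at hrel
      have eA : ((upA.gl • τ : ℍ) : ℂ) = (τ : ℂ) / 2 := by rw [Quad.coe_smul]; simp [upA]
      have eB : ((upB.gl • τ : ℍ) : ℂ) = (τ : ℂ) / 2 / 2 := by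
        rw [Quad.coe_smul]; simp [upB]; ring
      have eC : ((upC.gl • τ : ℍ) : ℂ) = ((τ : ℂ) / 2 + 1) / 2 := by
        rw [Quad.coe_smul]; simp [upC]; ring
      have iA : (upA.gl • τ).im = τ.im / 2 := by
        have := congrArg Complex.im eA
        simpa using this
      have iB : (upB.gl • τ).im = τ.im / 4 := by
        have := congrArg Complex.im eB
        simp at this
        rw [this]; ring
      have iC : (upC.gl • τ).im = τ.im / 4 := by
        have := congrArg Complex.im eC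
        simp at this
        rw [this]; ring
      have b1 := hb upA.gl (by simp) ⟨by rw [iA]; linarith, by rw [iA]; linarith⟩
      have b2 := hb upB.gl (by simp) ⟨by rw [iB]; linarith, by rw [iB]; linarith⟩
      have b3 := hb upC.gl (by simp) ⟨by rw [iC]; linarith, by rw [iC]; linarith⟩
      rw [eA] at b1
      rw [eB] at b2
      rw [eC] at b3
      have e2 : U τ = c * U ((τ : ℂ) / 2) - U ((τ : ℂ) / 2 / 2) - U (((τ : ℂ) / 2 + 1) / 2) := by rw [← hrel]; ring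
      rw [e2]
      calc ‖c * U ((τ : ℂ) / 2) - U ((τ : ℂ) / 2 / 2) - U (((τ : ℂ) / 2 + 1) / 2)‖
          ≤ ‖c * U ((τ : ℂ) / 2)‖ + ‖U ((τ : ℂ) / 2 / 2)‖ + ‖U (((τ : ℂ) / 2 + 1) / 2)‖ :=
            (norm_sub_le _ _).trans (by gcongr; exact norm_sub_le _ _)
        _ ≤ 7 * B + B + B := by
            rw [norm_mul]
            gcongr
        _ = 9 * B := by ring

end Pool.Agent.Q30.HP
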