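import Pool.Agent.Q30.HP.Step

/-!
# The horocycle inequality, pointwise
-/

set_option autoImplicit false

open MeasureTheory UpperHalfPlane Metric Filter Topology
open scoped MatrixGroups ENNReal

namespace Pool.Agent.Q30.HP

variable {U : ℂ → ℂ} {T : ℝ}

/-- **The horocycle inequality**, pointwise. -/
theorem horo3 {N : ℕ} (hN : 2 ≤ N) {A : ℕ → Polynomial ℚ}
    (hA : Polynomial.cyclotomic N ℚ = ∑ p ∈ N.primeFactors, A p * psi N p) (h : Form U T)
    {z : ℂ} {B : ℝ} (hz : 0 < z.im) (hB0 : 0 ≤ B)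
    (hup : ∀ p ∈ N.primeFactors, ∀ k : ℤ, ‖U (p * (z + k / N))‖ ≤ B ∧ ‖U (p * (p * (z + k / N)))‖ ≤ B) (k0 : ℤ)
    (hst : ∀ j : ℕ, j < N.totient → ‖U (z + ((k0 + j : ℤ) : ℂ) / N)‖ ≤ B) :
    ‖U z‖ ≤ hcst N A * B := by
  have hN0 : (0 : ℝ) < N := by exact_mod_cast (by omega : 0 < N)
  have hNc : (N : ℂ) ≠ 0 := by exact_mod_cast hN0.ne'
  set g : ℤ → ℂ := fun k => U (z + k / N) with hg
  have hkim : ∀ k : ℤ, ((k : ℂ) / N).im = 0 := by
    intro k
    have : ((k : ℂ) / N) = (((k : ℝ) / N : ℝ) : ℂ) := by push_cast; rfl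
    rw [this, Complex.ofReal_im]
  -- the relations
  have hpsi : ∀ p ∈ N.primeFactors, ∀ k : ℤ, ‖Polynomial.aeval shiftL (psi N p) g k‖ ≤ ((p : ℝ) * (p + 1) + 1) * B := by
    intro p hp k
    have hp' := hp
    rw [Nat.mem_primeFactors] at hp
    obtain ⟨hpp, hpN, _⟩ := hp
    obtain ⟨c, hc⟩ := h.heckeP hpp
    have hc1 := h.eig_le hpp hc
    have hp2 : (2 : ℝ) ≤ p := by exact_mod_cast hpp.two_le
    have hpc : (p : ℂ) ≠ 0 := by exact_mod_cast hpp.ne_zero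
    obtain ⟨b1, b2⟩ := hup p hp' k
    set w : ℂ := z + k / N with hw
    have hwim : w.im = z.im := by rw [hw, Complex.add_im, hkim, add_zero]
    have hpw : (p * w).im = p * z.im := by simp [hwim]
    have hrel := hc (p * w) (by rw [hpw]; positivity)
    rw [aeval_psi]
    have e1 : ∑ b ∈ Finset.range p, g (k + ((N / p : ℕ) : ℤ) * b) = ∑ b ∈ Finset.range p, U ((p * w + b) / p) := by
      refine Finset.sum_congr rfl fun b _ => ?_
      simp only [hg]
      congr 1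
      have e2 : ((((N / p : ℕ) : ℤ)) : ℂ) = (N : ℂ) / p := by
        rw [Int.cast_natCast]; exact Nat.cast_div hpN hpc
      rw [Int.cast_add, Int.cast_mul, e2, Int.cast_natCast, hw]
      field_simp
      ring
    rw [e1]
    have e3 : ∑ b ∈ Finset.range p, U ((p * w + b) / p) = c * U (p * w) - U (p * (p * w)) := by rw [← hrel]; ring
    rw [e3]
    calc ‖c * U (p * w) - U (p * (p * w))‖ ≤ ‖c‖ * ‖U (p * w)‖ + ‖U (p * (p * w))‖ := by
          rw [← norm_mul]; exact norm_sub_le _ _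
      _ ≤ (p * (p + 1)) * B + B := by gcongr
      _ = _ := by ring
  set R : ℝ := (∑ p ∈ N.primeFactors, wt (A p) * ((p : ℝ) * (p + 1) + 1)) * B with hR
  have hR0 : 0 ≤ R := mul_nonneg (Finset.sum_nonneg fun p _ => mul_nonneg (wt_nonneg _) (by positivity)) hB0
  have hcyc : ∀ k : ℤ, ‖Polynomial.aeval shiftL (Polynomial.cyclotomic N ℚ) g k‖ ≤ R := by
    intro k
    rw [hA, map_sum, LinearMap.sum_apply, Finset.sum_apply, hR, Finset.sum_mul]
    refine (norm_sum_le _ _).trans (Finset.sum_le_sum fun p hp => ?_)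
    rw [map_mul, Module.End.mul_apply, mul_assoc]
    exact norm_aeval_le _ _ (hpsi p hp) k
  have hstrip : ∀ j : ℕ, j < (Polynomial.cyclotomic N ℚ).natDegree → ‖g (k0 + j)‖ ≤ B := by
    intro j hj
    rw [Polynomial.natDegree_cyclotomic] at hj
    exact hst j hj
  have hmono := Polynomial.cyclotomic.monic N ℚ
  -- the representative of zero
  set m : ℕ := ((-k0) % (N : ℤ)).toNat with hm
  have hNz : (0 : ℤ) < N := by omega
  have hm0 : ((m : ℕ) : ℤ) = (-k0) % (N : ℤ) := by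
    rw [hm, Int.toNat_of_nonneg (Int.emod_nonneg _ hNz.ne')]
  have hmN : m < N := by
    have := Int.emod_lt_of_pos (-k0) hNz
    omega
  obtain ⟨t, ht⟩ : ∃ t : ℤ, k0 + m = N * t := by
    refine ⟨-((-k0) / N), ?_⟩
    have := Int.emod_add_mul_ediv (-k0) N
    rw [hm0]
    linarith
  have hfin := recur hmono g hR0 hB0 hcyc k0 hstrip m
  rw [ht] at hfin
  have e2 : g (N * t) = U z := by
    simp only [hg]
    push_cast
    rw [mul_div_assoc, mul_comm, div_mul_cancel₀ _ hNc]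
    exact h.inv.shift_int t hz
  rw [e2] at hfin
  refine hfin.trans ?_
  unfold hcst
  have h1 : (1 + wt (Polynomial.cyclotomic N ℚ)) ^ (m + 1) ≤ (1 + wt (Polynomial.cyclotomic N ℚ)) ^ (N + 1) :=
    pow_le_pow_right₀ (by linarith [wt_nonneg (Polynomial.cyclotomic N ℚ)]) (by omega)
  have h2 : B + R = (1 + ∑ p ∈ N.primeFactors, wt (A p) * ((p : ℝ) * (p + 1) + 1)) * B := by rw [hR]; ring
  rw [h2, ← mul_assoc]
  have h3 : 0 ≤ 1 + ∑ p ∈ N.primeFactors, wt (A p) * ((p : ℝ) * (p + 1) + 1) :=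
    add_nonneg zero_le_one (Finset.sum_nonneg fun p _ => mul_nonneg (wt_nonneg _) (by positivity))
  gcongr

/-- `τ ↦ q (τ + r)` -/
noncomputable def sc (q r : ℝ) (hq : 0 < q) : Quad := ⟨q, q * r, 0, 1, by simpa using hq⟩

lemma sc_coe {q : ℝ} (r : ℝ) (hq : 0 < q) (τ : ℍ) : (((sc q r hq).gl • τ : ℍ) : ℂ) = q * (τ + r) := by
  rw [Quad.coe_smul]
  simp [sc]
  ring

/-- `τ ↦ -1 / (τ + r)` -/
noncomputable def iv (r : ℝ) : Quad := ⟨0, -1, 1, r, by norm_num⟩

lemma iv_coe (r : ℝ) (τ : ℍ) : (((iv r).gl • τ : ℍ) : ℂ) = -((τ : ℂ) + r)⁻¹ := by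
  rw [Quad.coe_smul]
  simp [iv]
  rw [neg_div, one_div]

lemma iv_im (r : ℝ) (τ : ℍ) : ((iv r).gl • τ).im = τ.im / ((τ.re + r) ^ 2 + τ.im ^ 2) := by
  have h := congrArg Complex.im (iv_coe r τ)
  have h1 : Complex.normSq ((τ : ℂ) + r) = (τ.re + r) ^ 2 + τ.im ^ 2 := by
    rw [Complex.normSq_apply]
    simp
    ring
  rw [Complex.neg_im, Complex.inv_im, h1] at h
  rw [← UpperHalfPlane.coe_im, h]
  simp
  ring

lemma iv_re (r : ℝ) (τ : ℍ) : ((iv r).gl • τ).re = -(τ.re + r) / ((τ.re + r) ^ 2 + τ.im ^ 2) := by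
  have h := congrArg Complex.re (iv_coe r τ)
  have h1 : Complex.normSq ((τ : ℂ) + r) = (τ.re + r) ^ 2 + τ.im ^ 2 := by
    rw [Complex.normSq_apply]
    simp
    ring
  rw [Complex.neg_re, Complex.inv_re, h1] at h
  rw [← UpperHalfPlane.coe_re, h]
  simp
  ring

lemma iv_U (h : Form U T) (r : ℝ) (τ : ℍ) : U (((iv r).gl • τ : ℍ) : ℂ) = U (τ + r) := by
  rw [iv_coe]
  exact (h.inv ((τ : ℂ) + r) (by simpa using τ.im_pos)).2

/-- the low horocycles -/
lemma step_low {h yl M : ℝ} (hh : 1 ≤ h) (hyl0 : 0 < yl) (hyl1 : yl ≤ 1 / (2 * h)) :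
    ∃ H' : ℝ, M ≤ H' ∧ Step {τ : ℍ | |τ.re| ≤ 1 ∧ yl ≤ τ.im ∧ τ.im ≤ 1 / (2 * h)} {τ | h ≤ τ.im ∧ τ.im ≤ H'} := by
  have hh0 : 0 < h := by linarith
  set η : ℝ := 2 * Real.sqrt (yl / (2 * h)) with hη
  have hη0 : 0 < η := by positivity
  obtain ⟨N, hN, hNP, hNη⟩ := exists_totient2 ⌈h / yl⌉₊ hη0
  obtain ⟨A, hA⟩ := cyc_mem hN
  have hN0 : (0 : ℝ) < N := by exact_mod_cast (by omega : 0 < N)
  have hNc : (N : ℂ) ≠ 0 := by exact_mod_cast hN0.ne'
  have hNz : (0 : ℤ) < N := by omega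
  have hNz' : (N : ℤ) ≠ 0 := hNz.ne'
  refine ⟨max (max ((N : ℝ) ^ 2 / (2 * h)) (1 / yl)) M, le_max_right _ _, ?_⟩
  set H' : ℝ := max (max ((N : ℝ) ^ 2 / (2 * h)) (1 / yl)) M with hH'
  set F1 : ℕ × ℤ → GL (Fin 2) ℝ := fun x =>
    if hx : 0 < (x.1 : ℝ) then (sc x.1 ((x.2 : ℝ) / N) hx).gl else 1 with hF1
  set F2 : ℕ × ℤ → GL (Fin 2) ℝ := fun x =>
    if hx : 0 < ((x.1 : ℝ) * x.1) then (sc ((x.1 : ℝ) * x.1) ((x.2 : ℝ) / N) hx).gl else 1 with hF2
  refine ⟨(F1 '' (Set.Iic N ×ˢ Set.Icc 0 (N : ℤ)) ∪ F2 '' (Set.Iic N ×ˢ Set.Icc 0 (N : ℤ))) ∪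
      (fun k : ℤ => (iv ((k : ℝ) / N)).gl) '' Set.Icc (-(3 * N : ℤ)) (3 * N), ?_, hcst N A, ?_, ?_⟩
  · have hf : (Set.Iic N ×ˢ Set.Icc 0 (N : ℤ) : Set (ℕ × ℤ)).Finite := (Set.finite_Iic N).prod (Set.finite_Icc _ _)
    exact ((hf.image _).union (hf.image _)).union ((Set.finite_Icc _ _).image _)
  · exact lt_of_lt_of_le one_pos (hcst_one_le N A)
  intro U T hU τ hτ B hB hb
  obtain ⟨hre, hy1, hy2⟩ := hτ
  rw [abs_le] at hre
  have hy0 : 0 < τ.im := τ.im_pos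
  set y : ℝ := τ.im with hy
  -- the arithmetic of the residue
  have hres : ∀ k : ℤ, ∃ k' t : ℤ, 0 ≤ k' ∧ k' ≤ N ∧ k = k' + N * t := by
    intro k
    refine ⟨k % N, k / N, Int.emod_nonneg _ hNz', (Int.emod_lt_of_pos _ hNz).le, ?_⟩
    have := Int.emod_add_mul_ediv k N
    linarith
  set k0 : ℤ := ⌈(-Real.sqrt (y / (2 * h)) - τ.re) * N⌉ with hk0
  refine horo3 hN hA hU τ.im_pos hB ?_ k0 ?_
  · intro p hp k
    have hpP := hNP p hp
    have hpr := Nat.prime_of_mem_primeFactors hp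
    have hp1 : (1 : ℝ) ≤ p := by exact_mod_cast hpr.one_lt.le
    have hp0 : (0 : ℝ) < p := by linarith
    have hpp0 : (0 : ℝ) < p * p := by positivity
    have hpNn : p ≤ N := Nat.le_of_dvd (by omega) (Nat.dvd_of_mem_primeFactors hp)
    have hpN : (p : ℝ) ≤ N := by exact_mod_cast hpNn
    have hph : h / yl ≤ p := (Nat.le_ceil _).trans (by exact_mod_cast hpP)
    rw [div_le_iff₀ hyl0] at hph
    have hpy : h ≤ p * y := hph.trans (by gcongr)
    have hppy : h ≤ p * p * y := hpy.trans (by nlinarith)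
    have hup1 : (p : ℝ) * p * y ≤ (N : ℝ) ^ 2 / (2 * h) := by
      calc (p : ℝ) * p * y ≤ N * N * (1 / (2 * h)) := by gcongr
        _ = _ := by ring
    have hup2 : (p : ℝ) * y ≤ (N : ℝ) ^ 2 / (2 * h) := by
      refine le_trans ?_ hup1
      have : 0 < (p : ℝ) * y := by positivity
      nlinarith
    have hle : (N : ℝ) ^ 2 / (2 * h) ≤ H' := (le_max_left _ _).trans (le_max_left _ _)
    obtain ⟨k', t, hk1, hk2, rfl⟩ := hres k
    have hmem : ((p, k') : ℕ × ℤ) ∈ (Set.Iic N ×ˢ Set.Icc 0 (N : ℤ) : Set (ℕ × ℤ)) := ⟨hpNn, hk1, hk2⟩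
    have im1 : ((sc (p : ℝ) ((k' : ℝ) / N) hp0).gl • τ).im = p * y := by
      have := congrArg Complex.im (sc_coe ((k' : ℝ) / N) hp0 τ)
      rw [← UpperHalfPlane.coe_im, this, Complex.im_ofReal_mul]
      simp [hy]
    have im2 : ((sc ((p : ℝ) * p) ((k' : ℝ) / N) hpp0).gl • τ).im = p * p * y := by
      have := congrArg Complex.im (sc_coe ((k' : ℝ) / N) hpp0 τ)
      rw [← UpperHalfPlane.coe_im, this, Complex.im_ofReal_mul]
      simp [hy]
    have b1 := hb (sc (p : ℝ) ((k' : ℝ) / N) hp0).gl (by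
      left; left
      refine ⟨(p, k'), hmem, ?_⟩
      simp only [hF1]
      rw [dif_pos hp0]) ⟨by rw [im1]; exact hpy, by rw [im1]; linarith⟩
    have b2 := hb (sc ((p : ℝ) * p) ((k' : ℝ) / N) hpp0).gl (by
      left; right
      refine ⟨(p, k'), hmem, ?_⟩
      simp only [hF2]
      rw [dif_pos hpp0]) ⟨by rw [im2]; exact hppy, by rw [im2]; linarith⟩
    constructor
    · have e := hU.inv.shift_int ((p : ℤ) * t) (z := (((sc (p : ℝ) ((k' : ℝ) / N) hp0).gl • τ : ℍ) : ℂ))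
        (UpperHalfPlane.im_pos _)
      rw [← e, sc_coe] at b1
      refine le_of_eq_of_le ?_ b1
      congr 2
      push_cast
      field_simp
      ring
    · have e := hU.inv.shift_int ((p : ℤ) * p * t)
        (z := (((sc ((p : ℝ) * p) ((k' : ℝ) / N) hpp0).gl • τ : ℍ) : ℂ)) (UpperHalfPlane.im_pos _)
      rw [← e, sc_coe] at b2
      refine le_of_eq_of_le ?_ b2
      congr 2
      push_cast
      field_simp
      ring
  · intro j hj
    have hsq : 0 ≤ y / (2 * h) := by positivity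
    have hk1 : (-Real.sqrt (y / (2 * h)) - τ.re) * N ≤ k0 := Int.le_ceil _
    have hk2 : (k0 : ℝ) < (-Real.sqrt (y / (2 * h)) - τ.re) * N + 1 := Int.ceil_lt_add_one _
    have hj' : (j : ℝ) + 1 ≤ N.totient := by exact_mod_cast hj
    have hj0 : (0 : ℝ) ≤ j := Nat.cast_nonneg j
    have htN : (N.totient : ℝ) ≤ N := by exact_mod_cast Nat.totient_le N
    have hN1 : (2 : ℝ) ≤ N := by exact_mod_cast hN
    have h1h : 1 / (2 * h) ≤ 1 / 2 := by
      rw [div_le_div_iff₀ (by positivity) (by norm_num)]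
      linarith
    have hs1 : Real.sqrt (y / (2 * h)) ≤ 1 := by
      rw [Real.sqrt_le_one]
      rw [div_le_one (by positivity)]
      linarith
    have hs0 : 0 ≤ Real.sqrt (y / (2 * h)) := Real.sqrt_nonneg _
    set r : ℝ := ((k0 + j : ℤ) : ℝ) / N with hr
    have hr' : r = ((k0 : ℝ) + j) / N := by rw [hr]; push_cast; ring
    have hmem : (iv r).gl ∈ (fun k : ℤ => (iv ((k : ℝ) / N)).gl) '' Set.Icc (-(3 * N : ℤ)) (3 * N) := by
      refine ⟨k0 + j, ⟨?_, ?_⟩, rfl⟩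
      · have : ((-(3 * N : ℤ) : ℤ) : ℝ) ≤ ((k0 + j : ℤ) : ℝ) := by
          push_cast
          nlinarith
        exact_mod_cast this
      · have : ((k0 + j : ℤ) : ℝ) ≤ ((3 * N : ℤ) : ℝ) := by
          push_cast
          nlinarith
        exact_mod_cast this
    have hlo : -Real.sqrt (y / (2 * h)) ≤ τ.re + r := by
      have : -Real.sqrt (y / (2 * h)) - τ.re ≤ r := by
        rw [hr', le_div_iff₀ hN0]
        linarith
      linarith
    have hhi : τ.re + r ≤ Real.sqrt (y / (2 * h)) := by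
      have h5 : η ≤ 2 * Real.sqrt (y / (2 * h)) := by
        rw [hη]
        gcongr
      have : r ≤ -Real.sqrt (y / (2 * h)) - τ.re + (N.totient : ℝ) / N := by
        rw [hr', div_le_iff₀ hN0, add_mul, div_mul_cancel₀ _ hN0.ne']
        linarith
      linarith
    have hx4 : (τ.re + r) ^ 2 ≤ y / (2 * h) := by
      have := Real.sq_sqrt hsq
      nlinarith
    have hpos : 0 < (τ.re + r) ^ 2 + y ^ 2 := by positivity
    have b := hb _ (Or.inr hmem) (by
      refine ⟨?_, ?_⟩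
      · rw [iv_im, ← hy, le_div_iff₀ hpos]
        have h6 : y ^ 2 ≤ y / (2 * h) := by
          rw [sq, div_eq_mul_one_div y (2 * h)]
          gcongr
        have h7 : y / (2 * h) + y / (2 * h) = y / h := by field_simp; ring
        calc h * ((τ.re + r) ^ 2 + y ^ 2) ≤ h * (y / h) := by
              rw [← h7]; gcongr
          _ = y := by field_simp
      · rw [iv_im, ← hy]
        have h8 : y / ((τ.re + r) ^ 2 + y ^ 2) ≤ 1 / yl := by
          rw [div_le_div_iff₀ hpos hyl0]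
          nlinarith [sq_nonneg (τ.re + r)]
        exact h8.trans ((le_max_right _ _).trans (le_max_left _ _)))
    rw [iv_U hU] at b
    refine le_of_eq_of_le ?_ b
    congr 3
    rw [hr]
    push_cast
    ring

end Pool.Agent.Q30.HP
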