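import Pool.Agent.Q30.HP.Step2

/-!
# Distribution functions and moments of Hecke eigenfunctions on compact sets and on one band
-/

set_option autoImplicit false

open MeasureTheory UpperHalfPlane Metric Filter Topology
open scoped MatrixGroups ENNReal

namespace Pool.Agent.Q30.HP

variable {U : ℂ → ℂ} {T : ℝ}

lemma box_compact {R y1 y2 : ℝ} (hy1 : 0 < y1) :
    IsCompact {τ : ℍ | |τ.re| ≤ R ∧ y1 ≤ τ.im ∧ τ.im ≤ y2} := by
  have e : {τ : ℍ | |τ.re| ≤ R ∧ y1 ≤ τ.im ∧ τ.im ≤ y2} =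
      UpperHalfPlane.coe ⁻¹' (Set.Icc (-R) R ×ℂ Set.Icc y1 y2) := by
    ext τ
    simp [Complex.mem_reProdIm, abs_le]
  rw [e, isOpenEmbedding_coe.isInducing.isCompact_preimage_iff]
  · exact isCompact_Icc.reProdIm isCompact_Icc
  · intro z hz
    rw [Complex.mem_reProdIm] at hz
    exact ⟨⟨z, lt_of_lt_of_le hy1 hz.2.1⟩, rfl⟩

/-- the middle part -/
lemma step_mid {h : ℝ} (hh : 1 ≤ h) :
    Step {τ : ℍ | |τ.re| ≤ 1 / 2 ∧ 1 / (2 * h) ≤ τ.im ∧ τ.im ≤ h}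
      {τ : ℍ | |τ.re| ≤ 1 ∧ (1 / (2 * h)) / ((2 * h + 3) ^ 2 + h ^ 2) ≤ τ.im ∧ τ.im ≤ 1 / (2 * h)} := by
  set n : ℤ := ⌈2 * h + 1⌉ with hn
  have hn1 : 2 * h + 1 ≤ n := Int.le_ceil _
  have hn2 : (n : ℝ) < 2 * h + 1 + 1 := Int.ceil_lt_add_one _
  refine ⟨{(iv n).gl}, Set.finite_singleton _, 1, one_pos, fun U T hU τ hτ B hB hb => ?_⟩
  obtain ⟨h1, h2, h3⟩ := hτ
  rw [abs_le] at h1
  have hy := τ.im_pos
  have hpos : 0 < (τ.re + n) ^ 2 + τ.im ^ 2 := by positivity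
  have hx : 2 * h ≤ τ.re + n := by linarith
  have hx2 : τ.re + n ≤ 2 * h + 3 := by linarith
  have b := hb _ rfl (by
    refine ⟨?_, ?_, ?_⟩
    · rw [iv_re, abs_div, abs_of_pos hpos, div_le_one hpos, abs_neg, abs_of_nonneg (by linarith)]
      nlinarith [sq_nonneg τ.im]
    · rw [iv_im]
      have h10 : (τ.re + n) ^ 2 ≤ (2 * h + 3) ^ 2 := pow_le_pow_left₀ (by linarith) hx2 2
      gcongr
    · rw [iv_im, div_le_div_iff₀ hpos (by positivity)]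
      have h10 : (2 * h) ^ 2 ≤ (τ.re + n) ^ 2 := pow_le_pow_left₀ (by linarith) hx 2
      nlinarith [sq_nonneg τ.im])
  rw [iv_U hU] at b
  have h7 := hU.inv.shift_int n τ.im_pos
  have e : ((n : ℝ) : ℂ) = (n : ℂ) := by push_cast; rfl
  rw [e] at b
  have h8 : U ((τ : ℂ) + n) = U τ := h7
  rw [h8] at b
  rwa [one_mul]

/-- **Pointwise domination.** -/
theorem step_band {a M : ℝ} (ha : 0 < a) (hM : 1 ≤ M) :
    Step {τ : ℍ | |τ.re| ≤ M ∧ 1 / M ≤ τ.im ∧ τ.im ≤ M} {τ : ℍ | |τ.re| ≤ 1 / 2 ∧ a ≤ τ.im ∧ τ.im ≤ 4 * a} := by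
  set h : ℝ := max a M with hh
  have hh1 : 1 ≤ h := hM.trans (le_max_right _ _)
  have hha : a ≤ h := le_max_left _ _
  have hhM : M ≤ h := le_max_right _ _
  have hM0 : 0 < M := by linarith
  have hh0 : 0 < h := by linarith
  set yl : ℝ := (1 / (2 * h)) / ((2 * h + 3) ^ 2 + h ^ 2) with hyl
  have hyl0 : 0 < yl := by positivity
  have hyl1 : yl ≤ 1 / (2 * h) := by
    rw [hyl]
    apply div_le_self (by positivity)
    nlinarith [sq_nonneg h]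
  obtain ⟨H', _, hlow⟩ := step_low (M := 1) hh1 hyl0 hyl1
  obtain ⟨k, hk⟩ := pow_unbounded_of_one_lt (H' / (4 * a)) (by norm_num : (1 : ℝ) < 2)
  have hk' : H' ≤ 2 ^ k * (4 * a) := by
    rw [div_lt_iff₀ (by positivity)] at hk
    exact hk.le
  have s1 : Step {τ : ℍ | |τ.re| ≤ M ∧ 1 / M ≤ τ.im ∧ τ.im ≤ M} {τ : ℍ | |τ.re| ≤ 1 / 2 ∧ 1 / M ≤ τ.im ∧ τ.im ≤ M} :=
    step_shift fun τ hτ => hτ
  have s2 : Step {τ : ℍ | |τ.re| ≤ 1 / 2 ∧ 1 / M ≤ τ.im ∧ τ.im ≤ M}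
      {τ : ℍ | |τ.re| ≤ 1 ∧ yl ≤ τ.im ∧ τ.im ≤ 1 / (2 * h)} := by
    refine (step_mid hh1).mono ?_ (Set.Subset.refl _)
    rintro τ ⟨q1, q2, q3⟩
    refine ⟨q1, le_trans ?_ q2, q3.trans hhM⟩
    rw [div_le_div_iff₀ (by positivity) hM0]
    linarith
  have s3 : Step {τ : ℍ | h ≤ τ.im ∧ τ.im ≤ H'} {τ : ℍ | a ≤ τ.im ∧ τ.im ≤ 4 * a} := by
    refine (step_up ha k).mono ?_ (Set.Subset.refl _)
    rintro τ ⟨q1, q2⟩
    exact ⟨hha.trans q1, q2.trans hk'⟩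
  obtain ⟨G, hG, C, hC, H⟩ := ((s1.trans s2).trans hlow).trans s3
  -- the real parts are bounded
  have hcomp : IsCompact (⋃ g ∈ G, (fun τ : ℍ => g • τ) '' {τ : ℍ | |τ.re| ≤ M ∧ 1 / M ≤ τ.im ∧ τ.im ≤ M}) := by
    refine hG.isCompact_biUnion fun g _ => ?_
    exact (box_compact (by positivity)).image (continuous_const_smul g)
  obtain ⟨R, hR⟩ := (hcomp.image UpperHalfPlane.continuous_re).isBounded.exists_norm_le
  have s4 : Step {τ : ℍ | |τ.re| ≤ M ∧ 1 / M ≤ τ.im ∧ τ.im ≤ M} {τ : ℍ | |τ.re| ≤ R ∧ a ≤ τ.im ∧ τ.im ≤ 4 * a} := by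
    refine ⟨G, hG, C, hC, fun U T hU τ hτ B hB hb => H U T hU τ hτ B hB fun g hg hgE => ?_⟩
    refine hb g hg ⟨?_, hgE.1, hgE.2⟩
    have := hR (g • τ).re ⟨g • τ, Set.mem_biUnion hg ⟨τ, hτ, rfl⟩, rfl⟩
    rwa [Real.norm_eq_abs] at this
  exact s4.trans (step_shift fun τ hτ => hτ)

/-- the distribution functions -/
theorem Step.dist {S E : Set ℍ} (h : Step S E) (hE : MeasurableSet E) : ∃ C : ℝ, 0 < C ∧
    ∀ (U : ℂ → ℂ) (T : ℝ), Form U T → ∀ s : ℝ, 0 ≤ s →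
      volume (S ∩ {τ : ℍ | s < ‖U τ‖}) ≤ ENNReal.ofReal C * volume (E ∩ {τ : ℍ | s / C < ‖U τ‖}) := by
  obtain ⟨G, hG, C, hC, H⟩ := h
  set D : ℝ := max C (hG.toFinset.card : ℝ) with hD
  have hD0 : 0 < D := lt_of_lt_of_le hC (le_max_left _ _)
  refine ⟨D, hD0, fun U T hU s hs => ?_⟩
  have hm : Measurable fun τ : ℍ => ‖U τ‖ :=
    (hU.smooth.continuousOn.comp_continuous (by fun_prop) fun τ : ℍ => τ.im_pos).measurable.norm
  have hEm : MeasurableSet (E ∩ {τ : ℍ | s / D < ‖U τ‖}) := hE.inter (measurableSet_lt measurable_const hm)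
  have hsub : S ∩ {τ : ℍ | s < ‖U τ‖} ⊆
      ⋃ g ∈ hG.toFinset, (fun τ : ℍ => g • τ) ⁻¹' (E ∩ {τ : ℍ | s / D < ‖U τ‖}) := by
    rintro τ ⟨hτ, hs2⟩
    by_contra hcon
    simp only [Set.mem_iUnion, Set.mem_preimage, Set.mem_inter_iff, Set.mem_setOf_eq, not_exists, not_and,
      not_lt, Set.Finite.mem_toFinset] at hcon
    have := H U T hU τ hτ (s / D) (by positivity) fun g hg hgE => hcon g hg hgE
    have h2 : C * (s / D) ≤ s := by
      rw [← mul_div_assoc, div_le_iff₀ hD0, mul_comm]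
      gcongr
      exact le_max_left _ _
    have h3 : s < ‖U τ‖ := hs2
    linarith
  refine (measure_mono hsub).trans ((measure_biUnion_finset_le _ _).trans ?_)
  have h2 : ∀ g ∈ hG.toFinset, volume ((fun τ : ℍ => g • τ) ⁻¹' (E ∩ {τ : ℍ | s / D < ‖U τ‖})) =
      volume (E ∩ {τ : ℍ | s / D < ‖U τ‖}) := fun g _ => measure_preimage_smul _ _ _
  rw [Finset.sum_congr rfl h2, Finset.sum_const, nsmul_eq_mul]
  gcongr
  rw [← ENNReal.ofReal_natCast]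
  exact ENNReal.ofReal_le_ofReal (le_max_right _ _)

/-- the moments -/
theorem Step.moment {S E : Set ℍ} (h : Step S E) (hS : MeasurableSet S) (hE : MeasurableSet E) : ∃ C : ℝ, 0 < C ∧
    ∀ (U : ℂ → ℂ) (T : ℝ), Form U T → ∀ q : ℝ, 0 < q →
      ∫⁻ τ in S, ENNReal.ofReal (‖U τ‖ ^ q) ≤ ENNReal.ofReal (C * C ^ q) * ∫⁻ τ in E, ENNReal.ofReal (‖U τ‖ ^ q) := by
  classical
  obtain ⟨G, hG, C, hC, H⟩ := h
  set D : ℝ := max C (hG.toFinset.card : ℝ) with hD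
  have hD0 : 0 < D := lt_of_lt_of_le hC (le_max_left _ _)
  refine ⟨D, hD0, fun U T hU q hq => ?_⟩
  have hm : Measurable fun τ : ℍ => ‖U τ‖ :=
    (hU.smooth.continuousOn.comp_continuous (by fun_prop) fun τ : ℍ => τ.im_pos).measurable.norm
  set φ : ℍ → ℝ≥0∞ := fun τ => ENNReal.ofReal (‖U τ‖ ^ q) with hφ
  have hφm : Measurable φ := (hm.pow_const q).ennreal_ofReal
  set ψ : ℍ → ℝ≥0∞ := E.indicator φ with hψ
  have hψm : Measurable ψ := hφm.indicator hE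
  have hpt : ∀ τ ∈ S, φ τ ≤ ENNReal.ofReal (D ^ q) * ∑ g ∈ hG.toFinset, ψ (g • τ) := by
    intro τ hτ
    -- the largest value
    obtain ⟨B, hB0, hB1, hB2⟩ : ∃ B : ℝ, 0 ≤ B ∧ (∀ g ∈ G, g • τ ∈ E → ‖U ((g • τ : ℍ) : ℂ)‖ ≤ B) ∧
        ENNReal.ofReal (B ^ q) ≤ ∑ g ∈ hG.toFinset, ψ (g • τ) := by
      by_cases hne : (hG.toFinset.filter fun g => g • τ ∈ E).Nonempty
      · obtain ⟨g0, hg0, hmax⟩ := Finset.exists_max_image _ (fun g => ‖U ((g • τ : ℍ) : ℂ)‖) hne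
        rw [Finset.mem_filter] at hg0
        refine ⟨‖U ((g0 • τ : ℍ) : ℂ)‖, norm_nonneg _, fun g hg hgE => ?_, ?_⟩
        · exact hmax g (Finset.mem_filter.2 ⟨hG.mem_toFinset.2 hg, hgE⟩)
        · have e : ENNReal.ofReal (‖U ((g0 • τ : ℍ) : ℂ)‖ ^ q) = ψ (g0 • τ) := by
            rw [hψ, Set.indicator_of_mem hg0.2]
          rw [e]
          exact Finset.single_le_sum (f := fun g => ψ (g • τ)) (fun _ _ => zero_le) hg0.1
      · refine ⟨0, le_refl _, fun g hg hgE => ?_, ?_⟩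
        · exact absurd ⟨g, Finset.mem_filter.2 ⟨hG.mem_toFinset.2 hg, hgE⟩⟩ hne
        · rw [Real.zero_rpow hq.ne', ENNReal.ofReal_zero]
          exact zero_le
    have h1 := H U T hU τ hτ B hB0 hB1
    have h2 : ‖U τ‖ ^ q ≤ D ^ q * B ^ q := by
      rw [← Real.mul_rpow hD0.le hB0]
      apply Real.rpow_le_rpow (norm_nonneg _) _ hq.le
      refine h1.trans ?_
      gcongr
      exact le_max_left _ _
    calc φ τ ≤ ENNReal.ofReal (D ^ q * B ^ q) := ENNReal.ofReal_le_ofReal h2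
      _ = ENNReal.ofReal (D ^ q) * ENNReal.ofReal (B ^ q) := ENNReal.ofReal_mul (by positivity)
      _ ≤ _ := by gcongr
  calc ∫⁻ τ in S, φ τ ≤ ∫⁻ τ in S, ENNReal.ofReal (D ^ q) * ∑ g ∈ hG.toFinset, ψ (g • τ) :=
        setLIntegral_mono' hS hpt
    _ ≤ ∫⁻ τ, ENNReal.ofReal (D ^ q) * ∑ g ∈ hG.toFinset, ψ (g • τ) :=
        lintegral_mono' Measure.restrict_le_self le_rfl
    _ = ENNReal.ofReal (D ^ q) * ∑ g ∈ hG.toFinset, ∫⁻ τ, ψ (g • τ) := by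
        rw [lintegral_const_mul' _ _ ENNReal.ofReal_ne_top, lintegral_finsetSum]
        intro g _
        exact hψm.comp (measurable_const_smul _)
    _ = ENNReal.ofReal (D ^ q) * ∑ g ∈ hG.toFinset, ∫⁻ τ in E, φ τ := by
        congr 1
        refine Finset.sum_congr rfl fun g _ => ?_
        rw [(measurePreserving_smul g (volume : Measure ℍ)).lintegral_comp hψm, hψ, lintegral_indicator hE]
    _ ≤ ENNReal.ofReal (D * D ^ q) * ∫⁻ τ in E, φ τ := by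
        rw [Finset.sum_const, nsmul_eq_mul, ← mul_assoc, mul_comm D, ENNReal.ofReal_mul (by positivity)]
        gcongr
        rw [← ENNReal.ofReal_natCast]
        exact ENNReal.ofReal_le_ofReal (le_max_right _ _)

end Pool.Agent.Q30.HP
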